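import Pool.Agent.X288.CX.Main

/-! The Gram inequality and the strict inequality for functions with given correlations. -/

set_option autoImplicit false
set_option linter.unusedSectionVars false

namespace Pool.Agent.X288.CX

open Complex Filter Topology ComplexConjugate NumberField IsDedekindDomain Polynomial
  Pool.Agent.W401.Cheb Pool.Agent.W540.BE Pool.Agent.W353.L1 Asymptotics
open Pool.Agent.H341R2 (lam lam_tendsto sysK)
open Pool.Agent.W353.TP (LL)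
open Pool.Agent.X288.AR (RZ hd has_hd hd_self hd_ne exists_U prime0 EP_abs EP_cs)

section
variable {F : Type} [Field F] [NumberField F] {b : ℝ}
    (t : HeightOneSpectrum (𝓞 F) → ℂ) (ht : ∀ v, ‖t v‖ ≤ b)
    (U : Subgroup (GK F)) [U.Normal] (hU : IsOpen (U : Set (GK F))) [Finite (GK F ⧸ U)]
    {κ : Type*} [Fintype κ] {n : κ → ℕ}
    (ρ : ∀ k, Representation ℂ (GK F) (Fin (n k) → ℂ)) (hρ : ∀ k, ∀ u ∈ U, ρ k u = 1)
    (τ : κ → ℝ) (σ : HeightOneSpectrum (𝓞 F) → GK F) (hσ : ∀ v, IsFrob v (σ v))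
    (x : κ → ℝ → ℝ) (hx : ∀ k, Tendsto (fun ε : ℝ =>
      (EP (nm F) ε fun v => (t v * RZ U ρ hρ σ k (τ k) v).re) / lam ε - x k ε) (𝓝[>] 0) (𝓝 0))

include ht in
theorem mul_boundX (k : κ) (s : ℝ) (v : HeightOneSpectrum (𝓞 F)) :
    |(t v * RZ U ρ hρ σ k s v).re| ≤ b * n k := by
  refine (Complex.abs_re_le_norm _).trans ?_
  rw [norm_mul]
  exact mul_le_mul (ht v) (RZ_bound U ρ hρ k s σ v) (norm_nonneg _)
    ((norm_nonneg _).trans (ht v))

include ht hx in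
theorem bddX : ∃ Y : ℝ, ∀ k, ∀ᶠ ε : ℝ in 𝓝[>] 0, |x k ε| ≤ Y := by
  obtain ⟨p0⟩ := prime0 (F := F)
  have hb0 : 0 ≤ b := (norm_nonneg _).trans (ht p0)
  refine ⟨∑ k, (2 * (b * n k : ℝ) + 1), fun k => ?_⟩
  have h2 := (Metric.tendsto_nhds.1 (hx k)) 1 one_pos
  have h3 := EP_abs (F := F) (φ := fun v => (t v * RZ U ρ hρ σ k (τ k) v).re)
    (b := b * n k) (mul_boundX t ht U ρ hρ σ k (τ k))
  filter_upwards [h2, h3] with ε h4 h5
  rw [Real.dist_eq, sub_zero] at h4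
  have h6 := abs_sub_abs_le_abs_sub (x k ε)
    ((EP (nm F) ε fun v => (t v * RZ U ρ hρ σ k (τ k) v).re) / lam ε)
  rw [abs_sub_comm] at h6
  have h7 : (2 * (b * n k : ℝ) + 1) ≤ ∑ k, (2 * (b * n k : ℝ) + 1) :=
    Finset.single_le_sum (f := fun k => (2 * (b * n k : ℝ) + 1)) (fun k _ => by positivity)
      (Finset.mem_univ k)
  linarith

include ht hU hσ hx in
/-- **The Gram inequality**, with a bound for the second moment. -/
theorem gramX {β : ℝ} (hβ : 0 ≤ β)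
    (hsec : ∃ C : ℝ, ∀ᶠ ε : ℝ in 𝓝[>] 0, (EP (nm F) ε fun v => ‖t v‖ ^ 2) ≤ β * LL ε + C)
    (C : ℝ) {η : ℝ} (hη : 0 < η) :
    ∀ᶠ ε : ℝ in 𝓝[>] 0, ∀ c : κ → ℝ, (∀ k, |c k| ≤ C) →
      (∑ k, c k * x k ε) ^ 2 ≤ β * (∑ k, ∑ l, c k * c l * hd ρ τ k l) + η := by
  obtain ⟨p0⟩ := prime0 (F := F)
  obtain ⟨Y, hY⟩ := bddX t ht U ρ hρ τ σ x hx
  have h := gramC (normSys (F := F)) p0 Finset.univ t
    (fun k => RZ U ρ hρ σ k (τ k)) (b := b) (β := β) ht (fun k => (n k : ℝ))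
    (fun k v => RZ_bound U ρ hρ k (τ k) σ v) hβ (fun δ hδ => sec_lamC hsec hδ) (hd ρ τ)
    (fun k _ l _ => (has_hd U ρ hρ hU σ hσ τ k l).2) x
    (fun k _ => hx k) (fun k _ => hY k) C hη
  filter_upwards [h] with ε h1 c hc
  exact h1 c fun k _ => hc k

include ht hU hσ hx in
theorem disjX {β : ℝ} (hβ : 0 ≤ β)
    (hsec : ∃ C : ℝ, ∀ᶠ ε : ℝ in 𝓝[>] 0, (EP (nm F) ε fun v => ‖t v‖ ^ 2) ≤ β * LL ε + C)
    (hirr : ∀ k, (ρ k).IsIrreducible)
    (hne : ∀ k l, k ≠ l → τ k = τ l → IsEmpty ((ρ k).Equiv (ρ l))) {η : ℝ} (hη : 0 < η) :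
    ∀ᶠ ε : ℝ in 𝓝[>] 0, ∑ k, x k ε ^ 2 ≤ β + η := by
  classical
  obtain ⟨Y, hY⟩ := bddX t ht U ρ hρ τ σ x hx
  have h := disjoint_of_gram Finset.univ (hd ρ τ) (Real.sqrt β) x
    (fun k _ l _ hkl => hd_ne ρ τ (hirr k) (hirr l) (hne k l hkl))
    (fun k _ => Or.inr (hd_self ρ τ (hirr k)).ge) (C0 := Y) (fun k _ => hY k)
    (fun C η' hη' => by
      filter_upwards [gramX t ht U hU ρ hρ τ σ hσ x hx hβ hsec C hη'] with ε h1 c hc
      rw [Real.sq_sqrt hβ]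
      exact h1 c fun k => hc k (Finset.mem_univ k)) hη
  filter_upwards [h] with ε h1
  rw [Real.sq_sqrt hβ] at h1
  refine le_trans (le_of_eq (Finset.sum_congr rfl fun k _ => ?_)) h1
  rw [hd_self ρ τ (hirr k), div_one]

include ht hU hσ hx in
/-- **The strict inequality** for irreducible representations of large dimension. -/
theorem strictX
    (hsec : ∃ C : ℝ, ∀ᶠ ε : ℝ in 𝓝[>] 0, (EP (nm F) ε fun v => ‖t v‖ ^ 2) ≤ 1 * LL ε + C)
    {k : κ} (hk : (ρ k).IsIrreducible) (h3 : b + 1 ≤ n k) :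
    ∃ A : ℝ, A < 1 ∧ ∀ᶠ ε : ℝ in 𝓝[>] 0, |x k ε| ≤ A := by
  classical
  obtain ⟨δ, hδ, hsp⟩ := has_split U hU σ hσ
  have hN := normSys (F := F)
  obtain ⟨p0⟩ := prime0 (F := F)
  have hb0 : 0 ≤ b := (norm_nonneg _).trans (ht p0)
  set z : HeightOneSpectrum (𝓞 F) → ℂ := RZ U ρ hρ σ k (τ k) with hz
  have hzb : ∀ v, ‖z v‖ ≤ n k := RZ_bound U ρ hρ k (τ k) σ
  have hz1 : ∀ v, σ v ∈ U → ‖z v‖ = n k := by
    intro v hv
    rw [hz]
    unfold RZ
    rw [norm_mul, norm_zz, mul_one]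
    have e1 : (chF U ρ hρ k).f (QuotientGroup.mk (σ v)) = (ρ k).character (σ v)⁻¹ := rfl
    rw [e1]
    have e2 : ρ k (σ v)⁻¹ = 1 := hρ k _ (U.inv_mem hv)
    unfold Representation.character
    rw [e2, LinearMap.trace_one, Module.finrank_fin_fun]
    simp
  have hzsq : Tendsto (fun ε : ℝ => (EP (nm F) ε fun v => ‖z v‖ ^ 2) / lam ε) (𝓝[>] 0) (𝓝 1) := by
    have h := (has_hd U ρ hρ hU σ hσ τ k k).2
    rw [hd_self ρ τ hk] at h
    refine h.congr fun ε => ?_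
    congr 2
    funext v
    rw [Complex.mul_conj, Complex.ofReal_re, Complex.normSq_eq_norm_sq]
  have hcorr := hx k
  refine ⟨1 - δ / 8, by linarith, ?_⟩
  filter_upwards [sec_lamC hsec (δ := δ / 8) (by positivity),
    hzsq.eventually_lt_const (by linarith : (1 : ℝ) < 1 + δ / 8),
    hsp.eventually_const_lt (by linarith : δ - δ / 8 < δ),
    (Metric.tendsto_nhds.1 hcorr) (δ / 8) (by positivity),
    lam_tendsto.eventually_gt_atTop 0, self_mem_nhdsWithin] with ε h1 h2 h4 h5 h6 h7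
  have hε : (0 : ℝ) < ε := h7
  rw [Real.dist_eq, sub_zero] at h5
  -- pointwise inequality
  have hmb : ∀ v, |(t v * z v).re| ≤ b * n k := mul_boundX t ht U ρ hρ σ k (τ k)
  have hpt : ∀ v, |(t v * z v).re| + (1 / 2) * (if σ v ∈ U then (1 : ℝ) else 0) ≤
      (1 / 2) * ‖t v‖ ^ 2 + (1 / 2) * ‖z v‖ ^ 2 := by
    intro v
    have q1 : |(t v * z v).re| ≤ ‖t v‖ * ‖z v‖ := by
      rw [← norm_mul]
      exact Complex.abs_re_le_norm _
    split_ifs with hv
    · have q2 := hz1 v hv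
      have q3 : 1 ≤ ‖z v‖ - ‖t v‖ := by
        rw [q2]
        have := ht v
        linarith
      nlinarith [mul_self_nonneg (‖z v‖ - ‖t v‖ - 1)]
    · nlinarith [sq_nonneg (‖z v‖ - ‖t v‖)]
  have hbt : ∀ v, |‖t v‖ ^ 2| ≤ b ^ 2 := fun v => by
    rw [abs_of_nonneg (sq_nonneg _)]
    exact pow_le_pow_left₀ (norm_nonneg _) (ht v) 2
  have hbz : ∀ v, |‖z v‖ ^ 2| ≤ (n k : ℝ) ^ 2 := fun v => by
    rw [abs_of_nonneg (sq_nonneg _)]
    exact pow_le_pow_left₀ (norm_nonneg _) (hzb v) 2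
  have hbi : ∀ v, |(if σ v ∈ U then (1 : ℝ) else 0)| ≤ 1 := fun v => by
    split_ifs <;> simp
  have key : |EP (nm F) ε fun v => (t v * z v).re| + (1 / 2) * (EP (nm F) ε fun v =>
      if σ v ∈ U then (1 : ℝ) else 0) ≤
      (1 / 2) * (EP (nm F) ε fun v => ‖t v‖ ^ 2) + (1 / 2) * EP (nm F) ε fun v => ‖z v‖ ^ 2 := by
    have q1 : |EP (nm F) ε fun v => (t v * z v).re| ≤ EP (nm F) ε fun v => |(t v * z v).re| :=
      Pool.Agent.W353.L1.EP_abs_le (B := b * n k) (fun v => by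
        rw [abs_abs]
        exact hmb v) (fun v => le_rfl) hε
    have q2 : (EP (nm F) ε fun v => |(t v * z v).re| +
        (1 / 2) * (if σ v ∈ U then (1 : ℝ) else 0)) ≤
        EP (nm F) ε fun v => (1 / 2) * ‖t v‖ ^ 2 + (1 / 2) * ‖z v‖ ^ 2 := by
      refine Pool.Agent.W353.L1.EP_mono (B := b * n k + 1 / 2)
        (B' := 1 / 2 * b ^ 2 + 1 / 2 * (n k : ℝ) ^ 2)
        (fun v => ?_) (fun v => ?_) hpt hε
      · refine (abs_add_le _ _).trans (add_le_add ?_ ?_)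
        · rw [abs_abs]
          exact hmb v
        · rw [abs_mul]
          have := hbi v
          rw [abs_of_pos (by norm_num : (0 : ℝ) < 1 / 2)]
          linarith
      · refine (abs_add_le _ _).trans (add_le_add ?_ ?_)
        · rw [abs_mul, abs_of_pos (by norm_num : (0 : ℝ) < 1 / 2)]
          exact mul_le_mul_of_nonneg_left (hbt v) (by norm_num)
        · rw [abs_mul, abs_of_pos (by norm_num : (0 : ℝ) < 1 / 2)]
          exact mul_le_mul_of_nonneg_left (hbz v) (by norm_num)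
    rw [EP_add hN hε (B := b * n k) (B' := 1 / 2) (fun v => by
        rw [abs_abs]
        exact hmb v) (fun v => by
        rw [abs_mul, abs_of_pos (by norm_num : (0 : ℝ) < 1 / 2)]
        have := hbi v
        linarith), EP_add hN hε (B := 1 / 2 * b ^ 2) (B' := 1 / 2 * (n k : ℝ) ^ 2)
        (fun v => by
          rw [abs_mul, abs_of_pos (by norm_num : (0 : ℝ) < 1 / 2)]
          exact mul_le_mul_of_nonneg_left (hbt v) (by norm_num))
        (fun v => by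
          rw [abs_mul, abs_of_pos (by norm_num : (0 : ℝ) < 1 / 2)]
          exact mul_le_mul_of_nonneg_left (hbz v) (by norm_num)),
      EP_const_mul, EP_const_mul, EP_const_mul] at q2
    linarith
  set X := (EP (nm F) ε fun v => (t v * z v).re) / lam ε with hX
  have hXle : |X| ≤ 1 + δ / 8 - (1 / 2) * (δ - δ / 8) := by
    have q1 := div_le_div_of_nonneg_right key h6.le
    rw [add_div, add_div, ← abs_of_pos h6, ← abs_div, abs_of_pos h6, mul_div_assoc,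
      mul_div_assoc, mul_div_assoc] at q1
    rw [hX]
    have q2 : (1 / 2 : ℝ) * ((EP (nm F) ε fun v => ‖t v‖ ^ 2) / lam ε) ≤
        1 / 2 * (1 + δ / 8) := mul_le_mul_of_nonneg_left h1 (by norm_num)
    have q3 : (1 / 2 : ℝ) * ((EP (nm F) ε fun v => ‖z v‖ ^ 2) / lam ε) ≤
        1 / 2 * (1 + δ / 8) := mul_le_mul_of_nonneg_left h2.le (by norm_num)
    have q4 : (1 / 2 : ℝ) * (δ - δ / 8) ≤ 1 / 2 * ((EP (nm F) ε fun v =>
      if σ v ∈ U then (1 : ℝ) else 0) / lam ε) := mul_le_mul_of_nonneg_left h4.le (by norm_num)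
    linarith
  have h8 : |x k ε| ≤ |X| + δ / 8 := by
    have h9 := abs_sub_abs_le_abs_sub (x k ε) X
    rw [abs_sub_comm] at h9
    linarith
  linarith

end

end Pool.Agent.X288.CX
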