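import Pool.Agent.X288.CX.Own
import Pool.Agent.X288.CX.Abs
import Pool.Agent.X288.L2.Edge

/-! Elliptic curves over number fields attached to a newform and an Artin representation. -/

set_option autoImplicit false

namespace Pool.Agent.X288.CX

open Complex Filter Topology ComplexConjugate NumberField IsDedekindDomain Pool.Agent.H341R2
  Asymptotics
open Pool.Agent.H921R2.TatePole (nm two_le_nm kerPrime nm_eq below deg kerPrime_bijective)
open Pool.Agent.W353.TP (LL HX sysH E_H EH_eq card_hom_le low_kerPrime)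
open Pool.Agent.TH322.BC.Edge (MinimalModels LSeries size HasOrder)
open Pool.Agent.W401.Cheb Pool.Agent.W353.L1
open Pool.Agent.W540.BE (EP EP_finsupp EP_add EP_const_mul size_compare)
open Pool.Agent.X288.AR (RZ)
open MatrixGroups CongruenceSubgroup
open UpperHalfPlane hiding I

/-- the prime numbers as a system of norms -/
theorem sysP : Pool.Agent.W540.BE.NormSys (fun p : Nat.Primes => (p : ℕ)) where
  two_le p := p.2.two_le
  summable r hr := Nat.Primes.summable_rpow.2 hr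

section
variable {F : Type} [Field F] [NumberField F]

/-- the homomorphisms to `𝔽_p` are the primes of norm `p` -/
theorem sum_hom {M : Type*} [AddCommMonoid M] (g : HeightOneSpectrum (𝓞 F) → M) (p : Nat.Primes) :
    ∑ u : 𝓞 F →+* ZMod (p : ℕ), g (kerPrime p u).1.1 =
      ∑ᶠ v : {v : HeightOneSpectrum (𝓞 F) // Ideal.absNorm v.asIdeal = (p : ℕ)}, g v.1 := by
  rw [← finsum_eq_sum_of_fintype]
  have hn : ∀ u : 𝓞 F →+* ZMod (p : ℕ), Ideal.absNorm (kerPrime p u).1.1.asIdeal = (p : ℕ) :=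
    fun u => nm_kerPrime p u
  refine finsum_eq_of_bijective (fun u => ⟨(kerPrime p u).1.1, hn u⟩) ⟨?_, ?_⟩ fun u => rfl
  · intro u u' h
    have h1 : (kerPrime p u).1.1 = (kerPrime p u').1.1 := congrArg (fun x => x.1) h
    exact (kerPrime_bijective p).1 (Subtype.ext (Subtype.ext h1))
  · rintro ⟨v, hv⟩
    have hb : below v = p := by
      apply Subtype.ext
      change (Ideal.absNorm v.asIdeal).minFac = (p : ℕ)
      rw [hv]
      exact p.2.minFac_eq
    have hd : deg v = 1 := by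
      unfold deg
      rw [hb, hv]
      exact p.2.factorization_self
    obtain ⟨u, hu⟩ := (kerPrime_bijective (K := F) p).2 ⟨⟨v, hb⟩, hd⟩
    refine ⟨u, Subtype.ext ?_⟩
    change (kerPrime p u).1.1 = v
    rw [hu]

/-- passing from one number field to another one -/
theorem transfer {F' : Type} [Field F'] [NumberField F'] {g : HeightOneSpectrum (𝓞 F) → ℝ}
    {h : HeightOneSpectrum (𝓞 F') → ℝ} {B B' : ℝ} (hg : ∀ v, |g v| ≤ B) (hh : ∀ v, |h v| ≤ B')
    (M : ℕ) (hgh : ∀ p : Nat.Primes, M < (p : ℕ) →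
      ∑ u : 𝓞 F →+* ZMod (p : ℕ), g (kerPrime p u).1.1 =
        ∑ u : 𝓞 F' →+* ZMod (p : ℕ), h (kerPrime p u).1.1) :
    ∃ C : ℝ, ∀ ε : ℝ, 0 < ε → |(sysK F).E ε g - (sysK F').E ε h| ≤ C := by
  classical
  have hfin : {p : Nat.Primes | (p : ℕ) ≤ M}.Finite :=
    (Set.finite_Iic M).preimage (Subtype.val_injective.injOn)
  set S : Finset Nat.Primes := hfin.toFinset with hS
  set d : ℝ := (Module.finrank ℚ F : ℝ) with hd
  set d' : ℝ := (Module.finrank ℚ F' : ℝ) with hd'
  have hb : ∀ p : Nat.Primes, |low g p| ≤ d * B := by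
    intro p
    obtain ⟨p0⟩ := Pool.Agent.X288.AR.prime0 (F := F)
    have hB : 0 ≤ B := (abs_nonneg _).trans (hg p0)
    rw [low_kerPrime]
    refine (Finset.abs_sum_le_sum_abs _ _).trans ?_
    refine (Finset.sum_le_card_nsmul _ _ B fun u _ => hg _).trans ?_
    rw [nsmul_eq_mul, Finset.card_univ]
    exact mul_le_mul_of_nonneg_right (by rw [hd]; exact_mod_cast card_hom_le (K := F) p) hB
  have hb' : ∀ p : Nat.Primes, |low h p| ≤ d' * B' := by
    intro p
    obtain ⟨p0⟩ := Pool.Agent.X288.AR.prime0 (F := F')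
    have hB : 0 ≤ B' := (abs_nonneg _).trans (hh p0)
    rw [low_kerPrime]
    refine (Finset.abs_sum_le_sum_abs _ _).trans ?_
    refine (Finset.sum_le_card_nsmul _ _ B' fun u _ => hh _).trans ?_
    rw [nsmul_eq_mul, Finset.card_univ]
    exact mul_le_mul_of_nonneg_right (by rw [hd']; exact_mod_cast card_hom_le (K := F') p) hB
  refine ⟨B * Module.finrank ℚ F * Pool.Agent.H921R2.TatePole.C0 +
    S.card * (d * B + d' * B') + B' * Module.finrank ℚ F' * Pool.Agent.H921R2.TatePole.C0,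
    fun ε hε => ?_⟩
  have h1 := E_low hg hε
  have h2 := E_low hh hε
  have h3 : |EP (fun p : Nat.Primes => (p : ℕ)) ε fun p => low g p - low h p| ≤
      S.card * (d * B + d' * B') := by
    refine EP_finsupp sysP S _ (fun p hp => ?_) _ (fun p => ?_) hε
    · have hp' : M < (p : ℕ) := by
        by_contra h
        apply hp
        rw [hS, Set.Finite.mem_toFinset]
        exact not_lt.1 h
      rw [low_kerPrime, low_kerPrime, hgh p hp', sub_self]
    · exact (abs_sub _ _).trans (add_le_add (hb p) (hb' p))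
  have h4 : (EP (fun p : Nat.Primes => (p : ℕ)) ε fun p => low g p - low h p) =
      E ε (low g) - E ε (low h) := by
    have e1 := EP_add sysP hε (φ := low g) (ψ := fun p => (-1) * low h p) (B := d * B)
      (B' := d' * B') hb (fun p => by
        rw [abs_mul, abs_neg, abs_one, one_mul]
        exact hb' p)
    rw [EP_const_mul] at e1
    have e2 : (fun p => low g p - low h p) = fun p => low g p + (-1) * low h p := by
      funext p
      ring
    rw [e2, e1]
    have e3 : EP (fun p : Nat.Primes => (p : ℕ)) ε (low g) = E ε (low g) := rfl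
    have e4 : EP (fun p : Nat.Primes => (p : ℕ)) ε (low h) = E ε (low h) := rfl
    rw [e3, e4]
    ring
  rw [h4] at h3
  rw [abs_le] at *
  constructor <;> linarith [h1.1, h1.2, h2.1, h2.2, h3.1, h3.2]

end

section
variable {N : ℕ} {k : ℤ}

open Classical in
/-- the coefficients of a newform as a function on the primes of `ℚ` -/
noncomputable def tq (f : CuspForm (Gamma1 N : Subgroup (GL (Fin 2) ℝ)) k)
    (v : HeightOneSpectrum (𝓞 ℚ)) : ℂ :=
  if ‖W388.lamC f (nm v)‖ ≤ 2 then W388.lamC f (nm v) else 0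

theorem norm_tq (f : CuspForm (Gamma1 N : Subgroup (GL (Fin 2) ℝ)) k)
    (v : HeightOneSpectrum (𝓞 ℚ)) : ‖tq f v‖ ≤ 2 := by
  unfold tq
  split_ifs with h
  · exact h
  · rw [norm_zero]
    norm_num

/-- the second moment over the primes of `ℚ` -/
theorem sec_tq [NeZero N] {ψ : DirichletCharacter ℂ N}
    {f : CuspForm (Gamma1 N : Subgroup (GL (Fin 2) ℝ)) k} (hk : 1 ≤ k) (hf : Newf N k ψ f) :
    ∃ C : ℝ, ∀ᶠ ε : ℝ in 𝓝[>] 0,
      (EP (Pool.Agent.W540.BE.nm ℚ) ε fun v => ‖tq f v‖ ^ 2) ≤ 1 * LL ε + C := by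
  have h := EP_secG (F := ℚ) (s := fun p => min (‖W388.lamC f p‖ ^ 2) 4) (b3 := 4) (R := 1)
    (fun p => le_min (sq_nonneg _) (by norm_num)) (b2 := 4) (fun p => min_le_right _ _)
    zero_le_one (E_newf hk hf 4) (φ := fun v => ‖tq f v‖ ^ 2) (fun v => sq_nonneg _)
    (fun v => by
      have := norm_tq f v
      calc ‖tq f v‖ ^ 2 ≤ 2 ^ 2 := pow_le_pow_left₀ (norm_nonneg _) this 2
        _ = 4 := by norm_num) 0 (fun p _ u => by
      rw [one_mul]
      have h1 : nm (kerPrime p u).1.1 = (p : ℕ) := nm_kerPrime p u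
      unfold tq
      rw [h1]
      split_ifs with h2
      · refine le_min le_rfl ?_
        calc ‖W388.lamC f p‖ ^ 2 ≤ 2 ^ 2 := pow_le_pow_left₀ (norm_nonneg _) h2 2
          _ = 4 := by norm_num
      · rw [norm_zero, zero_pow two_ne_zero]
        exact le_min (sq_nonneg _) (by norm_num))
  rwa [one_mul, Pool.Agent.X288.L2.finrank_QQ] at h

end

section
variable {F : Type} [Field F] [NumberField F]

/-- there is one homomorphism from `𝓞 ℚ` to `𝔽_p` -/
theorem card_hom_QQ (p : Nat.Primes) : Fintype.card (𝓞 ℚ →+* ZMod (p : ℕ)) = 1 := by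
  apply le_antisymm
  · have h := card_hom_le (K := ℚ) p
    have h1 : Module.finrank ℚ ℚ = 1 := by
      have := Pool.Agent.X288.L2.finrank_QQ
      exact_mod_cast this
    rwa [h1] at h
  · exact Fintype.card_pos_iff.2 ⟨(Int.castRingHom (ZMod (p : ℕ))).comp
      (Rat.ringOfIntegersEquiv : 𝓞 ℚ ≃+* ℤ).toRingHom⟩

end

section
variable {F : Type} [Field F] [NumberField F]
variable {N : ℕ} [NeZero N] {f : CuspForm (Gamma1 N : Subgroup (GL (Fin 2) ℝ)) (2 : ℤ)}

/-- **The size of the L-function of an elliptic curve attached to `f` and `R`.** -/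
theorem att_corr {E : WeierstrassCurve F} [E.IsElliptic]
    {V : HeightOneSpectrum (𝓞 F) → WeierstrassCurve (𝓞 F)} (hV : MinimalModels E V)
    (hbd : ∀ p : ℕ, p.Prime → ¬ p ∣ N → ‖W388.lamC f p‖ ≤ 2)
    (U : Subgroup (GK ℚ)) [U.Normal] [Finite (GK ℚ ⧸ U)]
    {κ : Type*} [Fintype κ] {n : κ → ℕ}
    (R : ∀ k, Representation ℂ (GK ℚ) (Fin (n k) → ℂ)) (hR : ∀ k, ∀ u ∈ U, R k u = 1) (k : κ)
    (hatt : ∀ᶠ v0 : HeightOneSpectrum (𝓞 ℚ) in cofinite, ∀ σ : GK ℚ, IsFrob v0 σ →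
      (((∑ᶠ v : {v : HeightOneSpectrum (𝓞 F) // Ideal.absNorm v.asIdeal =
        Ideal.absNorm v0.asIdeal}, EC.trc V v.1 : ℤ)) : ℂ) =
        (qExpansion 1 f).coeff (Ideal.absNorm v0.asIdeal) *
          (R k).character σ⁻¹)
    (τ : ℝ) (σ : HeightOneSpectrum (𝓞 ℚ) → GK ℚ) (hσ : ∀ v, IsFrob v (σ v)) :
    Tendsto (fun ε : ℝ => (EP (Pool.Agent.W540.BE.nm ℚ) ε fun v =>
      (tq f v * RZ U R hR σ k τ v).re) / lam ε - size V τ ε) (𝓝[>] 0) (𝓝 0) := by
  classical
  obtain ⟨-, C1, hC1⟩ := size_own hV τ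
  obtain ⟨M1, hM1⟩ := Pool.Agent.X288.AR.exists_bound (fin_bad hV)
  rw [Filter.eventually_cofinite] at hatt
  obtain ⟨M2, hM2⟩ := Pool.Agent.X288.AR.exists_bound hatt
  set g : HeightOneSpectrum (𝓞 F) → ℝ := fun v =>
    ((nt V v : ℂ) * ((nm v : ℕ) : ℂ) ^ (-(τ * I))).re with hg
  set h : HeightOneSpectrum (𝓞 ℚ) → ℝ := fun v => (tq f v * RZ U R hR σ k τ v).re with hh
  have hgb : ∀ v, |g v| ≤ 2 := by
    intro v
    rw [hg]
    refine (Complex.abs_re_le_norm _).trans ?_
    rw [norm_mul, Pool.Agent.W540.BE.norm_cpow_I (by have := two_le_nm v; omega) τ, mul_one,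
      Complex.norm_real]
    exact abs_nt V v
  have hhb : ∀ v, |h v| ≤ 2 * n k := mul_boundX (tq f) (norm_tq f) U R hR σ k τ
  obtain ⟨C2, hC2⟩ := transfer hgb hhb (max (max M1 M2) N) (fun p hp => by
    have hpM1 : M1 < (p : ℕ) := lt_of_le_of_lt ((le_max_left _ _).trans (le_max_left _ _)) hp
    have hpM2 : M2 < (p : ℕ) := lt_of_le_of_lt ((le_max_right _ _).trans (le_max_left _ _)) hp
    have hpN : ¬ (p : ℕ) ∣ N := by
      intro hd
      have h1 := Nat.le_of_dvd (Nat.pos_of_ne_zero (NeZero.ne N)) hd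
      have h2 : N ≤ max (max M1 M2) N := le_max_right _ _
      omega
    have hsqrt : (((p : ℕ) : ℝ) ^ ((((2 : ℤ) : ℝ) - 1) / 2)) = Real.sqrt (p : ℕ) := by
      rw [Real.sqrt_eq_rpow]
      congr 1
      push_cast
      norm_num
    -- the left side
    have hl : ∀ u : 𝓞 F →+* ZMod (p : ℕ), g (kerPrime p u).1.1 =
        ((EC.trc V (kerPrime p u).1.1 : ℂ) *
          ((((Real.sqrt (p : ℕ) : ℝ) : ℂ))⁻¹ * (((p : ℕ) : ℕ) : ℂ) ^ (-(τ * I)))).re := by
      intro u
      have h1 : nm (kerPrime p u).1.1 = (p : ℕ) := nm_kerPrime p u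
      have hgood : (6 : 𝓞 F) ∉ (kerPrime p u).1.1.asIdeal ∧
          (V (kerPrime p u).1.1).Δ ∉ (kerPrime p u).1.1.asIdeal := by
        by_contra hcon
        have h2 := hM1 _ hcon
        have h3 : Pool.Agent.W540.BE.nm F (kerPrime p u).1.1 = (p : ℕ) := h1
        omega
      rw [hg]
      simp only
      unfold nt
      rw [if_pos hgood, h1]
      push_cast
      rw [mul_assoc]
    rw [Finset.sum_congr rfl fun u _ => hl u, ← Complex.re_sum, ← Finset.sum_mul]
    -- the right side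
    obtain ⟨u0, hu0⟩ := Fintype.card_eq_one_iff.1 (card_hom_QQ p)
    have hu : (Finset.univ : Finset (𝓞 ℚ →+* ZMod (p : ℕ))) = {u0} := by
      ext u
      simp [hu0 u]
    rw [hu, Finset.sum_singleton]
    set v0 := (kerPrime p u0).1.1 with hv0
    have h1 : nm v0 = (p : ℕ) := nm_kerPrime p u0
    have h1' : Ideal.absNorm v0.asIdeal = (p : ℕ) := h1
    have hat : ∀ σ : GK ℚ, IsFrob v0 σ →
      (((∑ᶠ v : {v : HeightOneSpectrum (𝓞 F) // Ideal.absNorm v.asIdeal =
        Ideal.absNorm v0.asIdeal}, EC.trc V v.1 : ℤ)) : ℂ) =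
        (qExpansion 1 f).coeff (Ideal.absNorm v0.asIdeal) * (R k).character σ⁻¹ := by
      by_contra hcon
      have h2 := hM2 v0 hcon
      have h3 : Pool.Agent.W540.BE.nm ℚ v0 = (p : ℕ) := h1
      omega
    have hat1 := hat (σ v0) (hσ v0)
    rw [h1'] at hat1
    have hsum : (∑ u : 𝓞 F →+* ZMod (p : ℕ), (EC.trc V (kerPrime p u).1.1 : ℂ)) =
        (qExpansion 1 f).coeff (p : ℕ) * (R k).character (σ v0)⁻¹ := by
      rw [← hat1, ← sum_hom (F := F) (EC.trc V) p]
      push_cast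
      rfl
    rw [hsum, hh]
    simp only
    have htq : tq f v0 = (qExpansion 1 f).coeff (p : ℕ) * (((Real.sqrt (p : ℕ) : ℝ) : ℂ))⁻¹ := by
      unfold tq
      rw [h1, if_pos (hbd p p.2 hpN)]
      unfold W388.lamC
      rw [hsqrt, div_eq_mul_inv]
    have hRZ : RZ U R hR σ k τ v0 = (R k).character (σ v0)⁻¹ * (((p : ℕ) : ℕ) : ℂ) ^ (-(τ * I)) := by
      have e1 : RZ U R hR σ k τ v0 = (R k).character (σ v0)⁻¹ * zz τ v0 := rfl
      have e2 : zz τ v0 = ((nm v0 : ℕ) : ℂ) ^ (-(τ * I)) := rfl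
      rw [e1, e2, h1]
    rw [htq, hRZ]
    congr 1
    ring)
  have hylam : ∀ᶠ ε : ℝ in 𝓝[>] 0,
      |EP (Pool.Agent.W540.BE.nm ℚ) ε h| ≤ (2 * (2 * n k) : ℝ) * lam ε := by
    filter_upwards [Pool.Agent.X288.AR.EP_abs hhb, lam_tendsto.eventually_gt_atTop 0] with ε h1 h2
    rwa [abs_div, abs_of_pos h2, div_le_iff₀ h2] at h1
  have hmain : ∀ᶠ ε : ℝ in 𝓝[>] 0, |EP (Pool.Agent.W540.BE.nm ℚ) ε h -
      Real.log ‖LSeries V (3 / 2 + τ * I + ε)‖| ≤ C1 + C2 := by
    filter_upwards [hC1, self_mem_nhdsWithin] with ε h1 h2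
    have h3 := hC2 ε h2
    have h4 : EP (Pool.Agent.W540.BE.nm ℚ) ε h = (sysK ℚ).E ε h := rfl
    rw [h4]
    have h1' : |(sysK F).E ε g - Real.log ‖LSeries V (3 / 2 + τ * I + ε)‖| ≤ C1 := h1
    generalize (sysK F).E ε g = x1 at h1' h3
    generalize Real.log ‖LSeries V (3 / 2 + τ * I + ε)‖ = x2 at h1'
    rw [abs_le] at h1' h3 ⊢
    constructor <;> linarith [h1'.1, h1'.2, h3.1, h3.2]
  exact size_compare hylam hmain

end

end Pool.Agent.X288.CX
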