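import Pool.Agent.Y149.CR.Main
import Pool.Agent.Y149.CR.Ord
import Pool.Agent.X288.L2.Thm
import Pool.Agent.X288.CX.Att

/-! All modular elliptic curves over the rationals and all heights, over fixed number fields. -/

set_option autoImplicit false
set_option linter.unusedSectionVars false
open Classical

namespace Pool.Agent.X288.CX

open Complex Filter Topology ComplexConjugate NumberField IsDedekindDomain Asymptotics
  Pool.Agent.W401.Cheb Pool.Agent.W540.BE Pool.Agent.W353.L1 Pool.Agent.W353.NF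
open Pool.Agent.W353.TP (HX sysH LL LL_tendsto E_H EH_eq bdd_isLittleO lam0_sub card_hom_le)
open Pool.Agent.W353.AB (Sy syE)
open Pool.Agent.H341R2 (lam lam_tendsto sysK)
open Pool.Agent.TH322.BC
open Pool.Agent.TH322.BC.Edge (TwistOver MinimalModels LSeries size HasOrder LimsupLE character
  character_eq orders lim_abs_le size_twist size_base coe_ne twist)
open Pool.Agent.Y722.EP (IsModular NotIsogenous IsNewformOf points)
open Pool.Agent.Y722.RS (tt rc tt_le)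
open Pool.Agent.X288.L2 (EC Cls has_pair hw hw_self abs_TT_le TT_newform P_eq Q_eq PQ_ne PP QQ)

section
variable {K : Type} [Field K] [NumberField K]

/-- from homomorphisms to primes -/
theorem szh_EP {T : HX K → ℝ} {t Ψ : HeightOneSpectrum (𝓞 K) → ℝ} {X : ℝ → ℝ} {b B : ℝ}
    (hT : ∀ x, |T x| ≤ b) (ht : ∀ v, |t v| ≤ b) (hΨ : ∀ v, |Ψ v| ≤ B) (M : ℕ)
    (hTt : ∀ x : HX K, M < (x.1 : ℕ) → T x = t (vx x)) (h : SzH T Ψ X) :
    Tendsto (fun ε : ℝ => (EP (nm K) ε fun v => t v * Ψ v) / lam ε - X ε) (𝓝[>] 0) (𝓝 0) := by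
  obtain ⟨p0⟩ := Pool.Agent.X288.AR.prime0 (F := K)
  have hb0 : 0 ≤ b := (abs_nonneg _).trans (ht p0)
  have hB0 : 0 ≤ B := (abs_nonneg _).trans (hΨ p0)
  have hfin : {p : Nat.Primes | (p : ℕ) ≤ M}.Finite :=
    (Set.finite_Iic M).preimage (Subtype.val_injective.injOn)
  set S : Finset Nat.Primes := hfin.toFinset with hS
  set D : ℝ := (Module.finrank ℚ K : ℝ) with hD
  have hD0 : 0 ≤ D := Nat.cast_nonneg _
  have hTb : ∀ x, |T x * Ψ (vx x)| ≤ b * B := fun x => by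
    rw [abs_mul]
    exact mul_le_mul (hT x) (hΨ _) (abs_nonneg _) hb0
  have htb : ∀ v, |t v * Ψ v| ≤ b * B := fun v => by
    rw [abs_mul]
    exact mul_le_mul (ht v) (hΨ _) (abs_nonneg _) hb0
  have hsumb : ∀ (φ : HX K → ℝ), (∀ x, |φ x| ≤ b * B) → ∀ p : Nat.Primes,
      |∑ u : 𝓞 K →+* ZMod (p : ℕ), φ ⟨p, u⟩| ≤ D * (b * B) := by
    intro φ hφ p
    refine (Finset.abs_sum_le_sum_abs _ _).trans ?_
    refine (Finset.sum_le_card_nsmul _ _ (b * B) fun u _ => hφ _).trans ?_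
    rw [nsmul_eq_mul, Finset.card_univ]
    refine mul_le_mul_of_nonneg_right ?_ (mul_nonneg hb0 hB0)
    rw [hD]
    exact_mod_cast card_hom_le (K := K) p
  have hC : ∀ ε : ℝ, 0 < ε → |(EP (nm K) ε fun v => t v * Ψ v) -
      (sysH K).E ε (fun x => T x * Ψ (vx x))| ≤ b * B * Module.finrank ℚ K *
        Pool.Agent.H921R2.TatePole.C0 + S.card * (D * (b * B) + D * (b * B)) := by
    intro ε hε
    have h1 := E_H htb hε
    change |(EP (nm K) ε fun v => t v * Ψ v) - _| ≤ _ at h1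
    rw [EH_eq hε (fun x => htb _)] at h1
    refine le_trans (le_of_eq (congrArg (fun y => |(EP (nm K) ε fun v => t v * Ψ v) - y|)
      (EH_eq hε hTb))) ?_
    have h3 : |EP (fun p : Nat.Primes => (p : ℕ)) ε fun p =>
        (∑ u : 𝓞 K →+* ZMod (p : ℕ), t (vx ⟨p, u⟩) * Ψ (vx ⟨p, u⟩)) +
          (-1) * ∑ u : 𝓞 K →+* ZMod (p : ℕ), T ⟨p, u⟩ * Ψ (vx ⟨p, u⟩)| ≤
        S.card * (D * (b * B) + D * (b * B)) := by
      refine EP_finsupp sysP S _ (fun p hp => ?_) _ (fun p => ?_) hε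
      · have hp' : M < (p : ℕ) := by
          by_contra h
          apply hp
          rw [hS, Set.Finite.mem_toFinset]
          exact not_lt.1 h
        have e5 : ∑ u : 𝓞 K →+* ZMod (p : ℕ), T ⟨p, u⟩ * Ψ (vx ⟨p, u⟩) =
            ∑ u : 𝓞 K →+* ZMod (p : ℕ), t (vx ⟨p, u⟩) * Ψ (vx ⟨p, u⟩) :=
          Finset.sum_congr rfl fun u _ => congrArg (fun y => y * Ψ (vx ⟨p, u⟩)) (hTt ⟨p, u⟩ hp')
        rw [e5]
        ring
      · refine (abs_add_le _ _).trans (add_le_add (hsumb (fun x => t (vx x) * Ψ (vx x))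
          (fun x => htb _) p) ?_)
        rw [abs_mul, abs_neg, abs_one, one_mul]
        exact hsumb (fun x => T x * Ψ (vx x)) hTb p
    rw [EP_add sysP hε (hsumb (fun x => t (vx x) * Ψ (vx x)) fun x => htb _)
      (B' := D * (b * B)) (fun p => by
        rw [abs_mul, abs_neg, abs_one, one_mul]
        exact hsumb (fun x => T x * Ψ (vx x)) hTb p), EP_const_mul] at h3
    have e1 : (EP (fun p : Nat.Primes => (p : ℕ)) ε fun p =>
        ∑ u : 𝓞 K →+* ZMod (p : ℕ), t (vx ⟨p, u⟩) * Ψ (vx ⟨p, u⟩)) =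
        Pool.Agent.H341R2.E ε fun p => ∑ u : 𝓞 K →+* ZMod (p : ℕ),
          t (Pool.Agent.H921R2.TatePole.kerPrime p u).1.1 *
            Ψ (Pool.Agent.H921R2.TatePole.kerPrime p u).1.1 := rfl
    have e2 : (EP (fun p : Nat.Primes => (p : ℕ)) ε fun p =>
        ∑ u : 𝓞 K →+* ZMod (p : ℕ), T ⟨p, u⟩ * Ψ (vx ⟨p, u⟩)) =
        Pool.Agent.H341R2.E ε fun p => ∑ u : 𝓞 K →+* ZMod (p : ℕ), T ⟨p, u⟩ * Ψ (vx ⟨p, u⟩) := rfl
    rw [e1, e2] at h3
    rw [abs_le] at *
    constructor <;> linarith [h1.1, h1.2, h3.1, h3.2]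
  have h1 : (fun ε => (EP (nm K) ε fun v => t v * Ψ v) -
      (sysH K).E ε (fun x => T x * Ψ (vx x))) =o[𝓝[>] 0] LL := by
    apply bdd_isLittleO
    exact ⟨_, eventually_of_mem self_mem_nhdsWithin fun ε hε => hC ε hε⟩
  have h2 : (fun ε => (EP (nm K) ε fun v => t v * Ψ v) - X ε * LL ε) =o[𝓝[>] 0] LL := by
    refine (h1.sub h).congr' ?_ (EventuallyEq.refl _ _)
    filter_upwards with ε
    ring
  -- the scale
  have hY : ∀ᶠ ε : ℝ in 𝓝[>] 0, |(EP (nm K) ε fun v => t v * Ψ v) / lam ε| ≤ 2 * (b * B) :=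
    Pool.Agent.X288.AR.EP_abs htb
  have hl : Tendsto (fun ε => LL ε / lam ε) (𝓝[>] 0) (𝓝 1) := by
    have h3 : (fun ε => LL ε - lam ε) =o[𝓝[>] 0] lam := by
      have h4 : (fun ε => lam ε - LL ε) =o[𝓝[>] 0] LL := lam0_sub
      have h5 : lam ~[𝓝[>] 0] LL := h4
      exact h5.symm
    have h4 : LL ~[𝓝[>] 0] lam := h3
    refine (isEquivalent_iff_tendsto_one ?_).1 h4
    filter_upwards [lam_tendsto.eventually_gt_atTop 0] with ε hε
    exact hε.ne'
  have hO : LL =O[𝓝[>] 0] lam := by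
    have h5 : LL ~[𝓝[>] 0] lam := by
      have h4 : (fun ε => lam ε - LL ε) =o[𝓝[>] 0] LL := lam0_sub
      have h6 : lam ~[𝓝[>] 0] LL := h4
      exact h6.symm
    exact h5.isBigO
  have h3 : (fun ε => (EP (nm K) ε fun v => t v * Ψ v) - X ε * LL ε) =o[𝓝[>] 0] lam :=
    h2.trans_isBigO hO
  have h4 : Tendsto (fun ε => ((EP (nm K) ε fun v => t v * Ψ v) - X ε * LL ε) / lam ε)
      (𝓝[>] 0) (𝓝 0) := h3.tendsto_div_nhds_zero
  -- `X` is bounded
  have hXb : ∀ᶠ ε : ℝ in 𝓝[>] 0, |X ε| ≤ 2 * (2 * (b * B) + 1) := by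
    filter_upwards [hY, h4.eventually (Metric.ball_mem_nhds 0 one_pos),
      hl.eventually_const_lt (by norm_num : (1 / 2 : ℝ) < 1),
      lam_tendsto.eventually_gt_atTop 0] with ε g1 g2 g3 g4
    rw [Real.dist_eq, sub_zero] at g2
    have e : X ε * (LL ε / lam ε) = (EP (nm K) ε fun v => t v * Ψ v) / lam ε -
        ((EP (nm K) ε fun v => t v * Ψ v) - X ε * LL ε) / lam ε := by ring
    have g5 : |X ε| * (1 / 2) ≤ 2 * (b * B) + 1 := by
      calc |X ε| * (1 / 2) ≤ |X ε| * (LL ε / lam ε) :=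
            mul_le_mul_of_nonneg_left g3.le (abs_nonneg _)
        _ = |X ε * (LL ε / lam ε)| := by
            rw [abs_mul, abs_of_pos (lt_trans (by norm_num) g3)]
        _ ≤ _ := by
            rw [e]
            refine (abs_sub _ _).trans (add_le_add g1 g2.le)
    linarith
  have h5 : Tendsto (fun ε => X ε * (LL ε / lam ε - 1)) (𝓝[>] 0) (𝓝 0) := by
    have h6 : Tendsto (fun ε => (2 * (2 * (b * B) + 1)) * |LL ε / lam ε - 1|) (𝓝[>] 0)
        (𝓝 ((2 * (2 * (b * B) + 1)) * |(1 : ℝ) - 1|)) :=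
      ((hl.sub_const 1).abs).const_mul _
    rw [sub_self, abs_zero, mul_zero] at h6
    refine squeeze_zero_norm' ?_ h6
    filter_upwards [hXb] with ε g1
    rw [Real.norm_eq_abs, abs_mul]
    exact mul_le_mul_of_nonneg_right g1 (abs_nonneg _)
  have h6 := h4.add h5
  rw [add_zero] at h6
  refine h6.congr fun ε => ?_
  ring

end

section
variable {ι : Type} {a b : ι → ℤ} (hab : ∀ i, 4 * a i ^ 3 + 27 * b i ^ 2 ≠ 0)
  (hmod : ∀ i, IsModular (a i) (b i))
  (hne : ∀ i j, i ≠ j → NotIsogenous (a i) (b i) (a j) (b j))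
  {κ : Type} [Fintype κ] {U : Subgroup (GK ℚ)} [U.Normal] (hU : IsOpen (U : Set (GK ℚ)))
  {ψ : κ → GK ℚ → ℝ} (hcl : ∀ k, Cls U (ψ k))
  {σ : HeightOneSpectrum (𝓞 ℚ) → GK ℚ} (hσ : ∀ v, IsFrob v (σ v))
  {X : ι → κ → ℝ → ℝ → ℝ}
  (hX : ∀ i k τ, SzH (Pool.Agent.W353.NF.TT (syE (PP ℚ (a i)) (QQ ℚ (b i))))
    (fun v => ψ k (σ v) * cz τ v) (X i k τ))

include hab hmod hne hU hcl hσ hX in
/-- **Bessel's inequality** for all modular elliptic curves and all heights. -/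
theorem bessel_cls (S : Finset (ι × ℝ)) (C : ℝ) {η : ℝ} (hη : 0 < η) :
    ∀ᶠ ε : ℝ in 𝓝[>] 0, ∀ c : κ → ℝ, (∀ k, |c k| ≤ C) →
      ∑ x ∈ S, (max (∑ k, c k * X x.1 k x.2 ε) 0) ^ 2 ≤
        (∑ k, ∑ l, c k * c l * avR U fun q => ψ k q.out * ψ l q.out) + η := by
  have hfinU : Finite (GK ℚ ⧸ U) := Subgroup.quotient_finite_of_isOpen _ hU
  choose N hN f hf using hmod
  have hprime : ∀ v : HeightOneSpectrum (𝓞 ℚ), (nm ℚ v).Prime := fun v => by
    rw [Pool.Agent.Y677.SM.nm_rat]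
    exact (Rat.HeightOneSpectrum.primesEquiv v).2
  set t : ι → HeightOneSpectrum (𝓞 ℚ) → ℝ := fun i v => tt (f i) (nm ℚ v) with ht
  have htb : ∀ i v, |t i v| ≤ 2 := fun i v => by
    have := hN i
    exact tt_le (hf i).1 (hprime v)
  choose bM hbM0 hbM using fun k => (hcl k).bdd
  have hx : ∀ x ∈ S, ∀ k ∈ (Finset.univ : Finset κ), Tendsto (fun ε : ℝ =>
      (EP (nm ℚ) ε fun v => (((ψ k (σ v) : ℝ) : ℂ) *
        ((t x.1 v : ℂ) * zz x.2 v)).re) / lam ε - X x.1 k x.2 ε) (𝓝[>] 0) (𝓝 0) := by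
    intro x _ k _
    have s3 := szh_EP (b := 2) (B := bM k) (abs_TT_le (a x.1) (b x.1))
      (htb x.1) (fun v => by
        rw [abs_mul]
        calc |ψ k (σ v)| * |cz x.2 v| ≤ bM k * 1 :=
              mul_le_mul (hbM _ _) (abs_cz _ _) (abs_nonneg _) (hbM0 k).le
          _ = _ := mul_one _) (6 * (4 * a x.1 ^ 3 + 27 * b x.1 ^ 2)).natAbs (fun y hy => by
        have h1 : ¬ ((y.1 : ℕ) : ℤ) ∣ 6 * (4 * a x.1 ^ 3 + 27 * b x.1 ^ 2) := by
          intro hd
          have h2 := Nat.le_of_dvd (Int.natAbs_pos.2 (mul_ne_zero (by norm_num) (hab x.1)))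
            (Int.natCast_dvd.1 hd)
          omega
        rw [TT_newform (hf x.1) y h1, ht]
        simp only
        rw [nm_vx]) (hX x.1 k x.2)
    refine s3.congr fun ε => ?_
    congr 3
    funext v
    have e : ((ψ k (σ v) : ℝ) : ℂ) * ((t x.1 v : ℂ) * zz x.2 v) =
        ((t x.1 v * ψ k (σ v) : ℝ) : ℂ) * zz x.2 v := by
      push_cast
      ring
    rw [e, Complex.re_ofReal_mul]
    unfold cz
    ring
  have hherm : ∀ k ∈ (Finset.univ : Finset κ), ∀ l ∈ (Finset.univ : Finset κ),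
      Tendsto (fun ε : ℝ => (EP (nm ℚ) ε fun v => (((ψ k (σ v) : ℝ) : ℂ) *
        conj ((ψ l (σ v) : ℝ) : ℂ)).re) / lam ε) (𝓝[>] 0)
        (𝓝 (avR U fun q => ψ k q.out * ψ l q.out)) := by
    intro k _ l _
    have h1 := (has_pair hU σ hσ (hcl k) (hcl l) 0 0).2
    rw [hw_self, if_pos rfl, one_mul] at h1
    refine h1.congr fun ε => ?_
    congr 2
    funext v
    have e0 : cz 0 v = 1 := by
      unfold cz zz
      simp
    rw [e0, mul_one, mul_one, Complex.conj_ofReal, ← Complex.ofReal_mul, Complex.ofReal_re]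
  have h := Pool.Agent.Y149.CR.bessel (normSys (F := ℚ)) lam_tendsto (EP_one ℚ) S Finset.univ
    (fun x v => (t x.1 v : ℂ) * zz x.2 v)
    (fun k v => ((ψ k (σ v) : ℝ) : ℂ)) (bu := 2)
    (bG := bM) (fun x v => by
      rw [norm_mul, norm_zz, mul_one, Complex.norm_real]
      exact htb x.1 v) (fun k v => by
      rw [Complex.norm_real]
      exact hbM _ _) (fun x _ y _ => by
      split_ifs with hxy
      · subst hxy
        have := hN x.1
        obtain ⟨C', hC'⟩ := Pool.Agent.Y149.CR.gram_self (hf x.1).1 (htb x.1)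
          (Filter.Eventually.of_forall fun v => rfl) x.2
        exact ⟨C', hC'.mono fun ε h1 => by rwa [one_mul]⟩
      · have := hN x.1
        have := hN y.1
        rcases eq_or_ne x.2 y.2 with h2 | h2
        · have h1 : x.1 ≠ y.1 := fun h1 => hxy (Prod.ext h1 h2)
          obtain ⟨p, hp, hp1, hp2, hp3⟩ := hne _ _ h1
          obtain ⟨g1, g2⟩ := (hf x.1).2 p hp hp1
          obtain ⟨g3, g4⟩ := (hf y.1).2 p hp hp2
          have hrc : rc (f x.1) p ≠ rc (f y.1) p := by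
            intro h8
            unfold rc at h8
            rw [g2, g4] at h8
            simp only [Complex.sub_re, Complex.add_re, Complex.natCast_re, Complex.one_re] at h8
            apply hp3
            have h9 : (points (ZMod p) (a x.1) (b x.1) : ℝ) = points (ZMod p) (a y.1) (b y.1) := by
              linarith
            exact_mod_cast h9
          rw [← h2]
          obtain ⟨C', hC'⟩ := Pool.Agent.Y149.CR.gram_form (hf x.1).1 (hf y.1).1 (htb x.1)
            (htb y.1) (Filter.Eventually.of_forall fun v => rfl)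
            (Filter.Eventually.of_forall fun v => rfl) hp g1 g3 hrc x.2
          exact ⟨C', hC'.mono fun ε h1 => by rwa [zero_mul, zero_add]⟩
        · obtain ⟨C', hC'⟩ := Pool.Agent.Y149.CR.gram_height (hf x.1).1 (hf y.1).1 (htb x.1)
            (htb y.1) (Filter.Eventually.of_forall fun v => rfl)
            (Filter.Eventually.of_forall fun v => rfl) h2
          exact ⟨C', hC'.mono fun ε h1 => by rwa [zero_mul, zero_add]⟩)
    (fun k l => avR U fun q => ψ k q.out * ψ l q.out)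
    hherm (fun x k ε => X x.1 k x.2 ε) hx C hη
  filter_upwards [h] with ε h1 c hc
  exact h1 c fun k _ => hc k

end

/-- counting from sums of squares of positive parts -/
theorem count_of {A : Type*} {T : Set A} {y : A → ℤ} {Q : ℝ}
    (h : ∀ S : Finset A, (∀ x ∈ S, x ∈ T) → ∑ x ∈ S, (max (y x : ℝ) 0) ^ 2 ≤ Q) :
    {x ∈ T | 0 < y x}.Finite ∧ ({x ∈ T | 0 < y x}.ncard : ℝ) ≤ Q := by
  have hQ : 0 ≤ Q := by simpa using h ∅ (by simp)
  have key : ∀ S : Finset A, (∀ x ∈ S, x ∈ {x ∈ T | 0 < y x}) → (S.card : ℝ) ≤ Q := by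
    intro S hS
    refine le_trans ?_ (h S fun x hx => (hS x hx).1)
    rw [Finset.card_eq_sum_ones, Nat.cast_sum]
    refine Finset.sum_le_sum fun x hx => ?_
    have h3 := (hS x hx).2
    have h4 : (1 : ℝ) ≤ (y x : ℝ) := by exact_mod_cast h3
    have h5 : (1 : ℝ) ≤ max (y x : ℝ) 0 := h4.trans (le_max_left _ _)
    push_cast
    nlinarith
  have hfin : {x ∈ T | 0 < y x}.Finite := by
    by_contra hinf
    obtain ⟨S, hS1, hS2⟩ := Set.Infinite.exists_subset_card_eq hinf (⌊Q⌋₊ + 1)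
    have h1 := key S fun x hx => hS1 hx
    rw [hS2] at h1
    push_cast at h1
    have h2 := Nat.lt_floor_add_one Q
    linarith
  refine ⟨hfin, ?_⟩
  have h1 := key hfin.toFinset fun x hx => hfin.mem_toFinset.1 hx
  rwa [← Set.ncard_eq_toFinset_card _ hfin] at h1

/-- from sizes to orders -/
theorem pos_orders {A : Type*} {Y : A → ℝ → ℝ} {y : A → ℤ} {S : Finset A} {Q : ℝ}
    (hY : ∀ x ∈ S, Tendsto (Y x) (𝓝[>] 0) (𝓝 (y x : ℝ)))
    (h : ∀ η : ℝ, 0 < η → ∀ᶠ ε : ℝ in 𝓝[>] 0, ∑ x ∈ S, (max (Y x ε) 0) ^ 2 ≤ Q + η) :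
    ∑ x ∈ S, (max (y x : ℝ) 0) ^ 2 ≤ Q := by
  refine le_of_forall_pos_le_add fun η hη => ?_
  have hlim : Tendsto (fun ε : ℝ => ∑ x ∈ S, (max (Y x ε) 0) ^ 2) (𝓝[>] 0)
      (𝓝 (∑ x ∈ S, (max (y x : ℝ) 0) ^ 2)) :=
    tendsto_finsetSum _ fun x hx => ((hY x hx).max tendsto_const_nhds).pow 2
  exact le_of_tendsto hlim (h η hη)

end Pool.Agent.X288.CX
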