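import Pool.Agent.X288.CX.Cusp2

/-! A variety whose cohomology is the sum of an Artin representation and of tempered cuspidal
representations: the defects for all Artin twists. -/

set_option autoImplicit false
set_option linter.unusedSectionVars false

namespace Pool.Agent.X288.CX

open Complex Filter Topology ComplexConjugate NumberField IsDedekindDomain Polynomial
  Pool.Agent.W401.Cheb Pool.Agent.W540.BE Pool.Agent.W353.L1 Asymptotics
open Pool.Agent.H341R2 (lam lam_tendsto sysK)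
open Pool.Agent.W353.TP (LL LL_tendsto lam0_sub lam0_isBigO)
open Pool.Agent.X288.AR (RZ hd has_hd hd_self hd_ne exists_U prime0 EP_abs EP_cs dual_one)

section
variable {F : Type} [Field F] [NumberField F]
variable (U : Subgroup (GK F)) [U.Normal] [Finite (GK F ⧸ U)] {κ : Type*} {n : κ → ℕ}
    (ρ : ∀ k, Representation ℂ (GK F) (Fin (n k) → ℂ)) (hρ : ∀ k, ∀ u ∈ U, ρ k u = 1)
    {N : ℕ} (A : Representation ℂ (GK F) (Fin N → ℂ)) (hA : ∀ u ∈ U, A u = 1)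

theorem avC_dual2 (k : κ) :
    avC U (fun q => (chF U ρ hρ k).f q * (chF U (fun _ : Unit => A) (fun _ => hA) ()).f q) =
      (Module.finrank ℂ ((ρ k).IntertwiningMap A.dual) : ℂ) := by
  classical
  let _ : Fintype (GK F ⧸ U) := Fintype.ofFinite _
  have hne : (Nat.card (GK F ⧸ U) : ℂ) ≠ 0 := by
    have : Nat.card (GK F ⧸ U) ≠ 0 := Nat.card_pos.ne'
    exact_mod_cast this
  let _ : Invertible (Nat.card (GK F ⧸ U) : ℂ) := invertibleOfNonzero hne
  have h1 := Representation.card_inv_mul_sum_char_mul_char_eq_finrank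
    (qrep U (ρ k) (hρ k)) (qrep U A.dual (dual_one U A hA))
  rw [finrank_qrep] at h1
  rw [← h1]
  unfold avC
  rw [finsum_eq_sum_of_fintype]
  congr 1
  refine Finset.sum_congr rfl fun q _ => ?_
  obtain ⟨g, rfl⟩ := QuotientGroup.mk_surjective q
  have h2 : (qrep U A.dual (dual_one U A hA)).character (QuotientGroup.mk g) =
      A.character g⁻¹ := by
    have := Representation.char_dual A g
    exact this
  rw [h2, mul_comm]
  rfl

open Classical in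
/-- the multiplicity of the trivial representation in the tensor product with `A`, at the height
zero -/
noncomputable def evA (τ : κ → ℝ) (k : κ) : ℝ :=
  if τ k = 0 then (Module.finrank ℂ ((ρ k).IntertwiningMap A.dual) : ℝ) else 0

include hA in
theorem has_evA (hU : IsOpen (U : Set (GK F)))
    (σ : HeightOneSpectrum (𝓞 F) → GK F) (hσ : ∀ v, IsFrob v (σ v)) (τ : κ → ℝ) (k : κ) :
    Has (fun v => (A.character (σ v)⁻¹ * RZ U ρ hρ σ k (τ k) v).re) (evA ρ A τ k) := by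
  classical
  have h := ((chF U ρ hρ k).mul (chF U (fun _ : Unit => A) (fun _ => hA) ())).has hU σ hσ (τ k)
  refine h.congr (fun v => ?_) ?_
  · unfold CF.R RZ
    congr 1
    change (chF U ρ hρ k).f _ * A.character (σ v)⁻¹ * zz (τ k) v = _
    ring
  · have e1 : avC U ((chF U ρ hρ k).mul (chF U (fun _ : Unit => A) (fun _ => hA) ())).f =
        (Module.finrank ℂ ((ρ k).IntertwiningMap A.dual) : ℂ) := avC_dual2 U ρ hρ A hA k
    rw [e1, Complex.natCast_re]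
    unfold evA
    split_ifs <;> rfl

end

section
variable {F : Type} [Field F] [NumberField F] {b : ℕ} (w : ℝ)
    (α : HeightOneSpectrum (𝓞 F) → Fin b → ℂ)
    (hα : ∀ᶠ v in cofinite, ∀ j, ‖α v j‖ = (nm F v : ℝ) ^ w)
    {N : ℕ} (A : Representation ℂ (GK F) (Fin N → ℂ))
    (hA : ∃ U : Subgroup (GK F), IsOpen (U : Set (GK F)) ∧ ∀ u ∈ U, A u = 1)
    (t : HeightOneSpectrum (𝓞 F) → ℂ) {b' : ℝ} (ht : ∀ v, ‖t v‖ ≤ b')
    (hdec : ∀ σ : HeightOneSpectrum (𝓞 F) → GK F, (∀ v, IsFrob v (σ v)) →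
      ∀ᶠ v in cofinite, trc w α v = A.character (σ v)⁻¹ + t v)
    {κ : Type*} [Fintype κ] {n : κ → ℕ}
    (ρ : ∀ k, Representation ℂ (GK F) (Fin (n k) → ℂ))
    (hopen : ∀ k, ∃ U : Subgroup (GK F), IsOpen (U : Set (GK F)) ∧ ∀ u ∈ U, ρ k u = 1)
    (τ : κ → ℝ) (B : κ → HeightOneSpectrum (𝓞 F) → ℂ[X])
    (hB : ∀ k, ∀ᶠ v in cofinite, ∀ σ : GK F, IsFrob v σ → ∀ z : ℂ,
      (B k v).eval z = ∏ j, LinearMap.det (1 - (α v j * z) • ρ k σ⁻¹))
    (hB0 : ∀ k, ∀ v, (B k v).eval (((nm F v : ℕ) : ℂ) ^ (-(w + 1 + τ k * I : ℂ))) ≠ 0)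
    (L : κ → ℂ → ℂ)
    (hL : ∀ k, ∀ s : ℂ, w + 1 < s.re →
      L k s = ∏' v, ((B k v).eval (((nm F v : ℕ) : ℂ) ^ (-s)))⁻¹)

include hα ht hdec hB hB0 hL in
theorem aut_corr (U : Subgroup (GK F)) [U.Normal] (hU : IsOpen (U : Set (GK F)))
    [Finite (GK F ⧸ U)] (hρ : ∀ k, ∀ u ∈ U, ρ k u = 1) (hAU : ∀ u ∈ U, A u = 1)
    (σ : HeightOneSpectrum (𝓞 F) → GK F) (hσ : ∀ v, IsFrob v (σ v)) (k : κ) :
    Tendsto (fun ε : ℝ => (EP (nm F) ε fun v => (t v * RZ U ρ hρ σ k (τ k) v).re) / lam ε -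
      (xs w τ L k ε - evA ρ A τ k)) (𝓝[>] 0) (𝓝 0) := by
  have hN := normSys (F := F)
  have h1 := xc_corr w α hα U ρ hρ τ B hB hB0 L hL σ hσ k
  obtain ⟨⟨B1, hB1⟩, h2⟩ := has_evA U ρ hρ A hAU hU σ hσ τ k
  have h2' := h2.sub_const (evA ρ A τ k)
  rw [sub_self] at h2'
  have hb0 : ∀ v, |(t v * RZ U ρ hρ σ k (τ k) v).re| ≤ b' * n k :=
    mul_boundX t ht U ρ hρ σ k (τ k)
  have hb2 : ∀ v, |(trc w α v * RZ U ρ hρ σ k (τ k) v).re| ≤ b * n k :=
    mul_bound w α U ρ hρ k (τ k) σ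
  have hb3 : ∀ v, |(trc w α v * RZ U ρ hρ σ k (τ k) v).re +
      (-1) * (A.character (σ v)⁻¹ * RZ U ρ hρ σ k (τ k) v).re| ≤ b * n k + B1 := fun v =>
    (abs_add_le _ _).trans (add_le_add (hb2 v) (by
      rw [abs_mul, abs_neg, abs_one, one_mul]
      exact hB1 v))
  have h3 := corr_congr hb0 hb3 (by
    filter_upwards [hdec σ hσ] with v h4
    rw [h4, add_mul, Complex.add_re]
    ring)
  have h4 := (h3.add h1).sub h2'
  rw [add_zero, sub_zero] at h4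
  refine h4.congr' ?_
  filter_upwards [self_mem_nhdsWithin, lam_tendsto.eventually_gt_atTop 0] with ε h5 h6
  have hε : (0 : ℝ) < ε := h5
  rw [EP_add hN hε (B := b * n k) (B' := B1) hb2 (fun v => by
    rw [abs_mul, abs_neg, abs_one, one_mul]
    exact hB1 v), EP_const_mul]
  field_simp
  ring

include hα hA ht hdec hopen hB hB0 hL in
/-- **The Gram inequality for the defects.** -/
theorem aut_gram {S : ℝ} (hS0 : 0 ≤ S)
    (hsec : ∀ δ : ℝ, 0 < δ → ∀ᶠ ε : ℝ in 𝓝[>] 0, (EP (nm F) ε fun v => ‖t v‖ ^ 2) / lam ε ≤ S + δ)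
    (C : ℝ) {η : ℝ} (hη : 0 < η) :
    ∀ᶠ ε : ℝ in 𝓝[>] 0, ∀ c : κ → ℝ, (∀ k, |c k| ≤ C) →
      (∑ k, c k * (xs w τ L k ε - evA ρ A τ k)) ^ 2 ≤
        S * (∑ k, ∑ l, c k * c l * hd ρ τ k l) + η := by
  classical
  obtain ⟨U, hUn, hU, hρU⟩ := exists_U (κ := Option κ)
    (n := fun o => o.elim N n)
    (fun o => match o with
      | none => A
      | some k => ρ k) (fun o => match o with
      | none => hA
      | some k => hopen k)
  have hρ : ∀ k, ∀ u ∈ U, ρ k u = 1 := fun k => hρU (some k)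
  have hAU : ∀ u ∈ U, A u = 1 := hρU none
  have hfin : Finite (GK F ⧸ U) := Subgroup.quotient_finite_of_isOpen U hU
  choose σ hσ using exists_isFrob (F := F)
  obtain ⟨p0⟩ := prime0 (F := F)
  have hcorr := aut_corr w α hα A t ht hdec ρ τ B hB hB0 L hL U hU hρ hAU σ hσ
  obtain ⟨Y, hY⟩ := bddX t ht U ρ hρ τ σ
    (fun k ε => xs w τ L k ε - evA ρ A τ k) hcorr
  have h := gramC (normSys (F := F)) p0 Finset.univ t
    (fun k => RZ U ρ hρ σ k (τ k)) (b := b') (β := S) ht (fun k => (n k : ℝ))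
    (fun k v => RZ_bound U ρ hρ k (τ k) σ v) hS0 hsec (hd ρ τ)
    (fun k _ l _ => (has_hd U ρ hρ hU σ hσ τ k l).2)
    (fun k ε => xs w τ L k ε - evA ρ A τ k) (fun k _ => hcorr k) (fun k _ => hY k) C hη
  filter_upwards [h] with ε h1 c hc
  exact h1 c fun k _ => hc k

include hα hA ht hdec hopen hB hB0 hL in
theorem aut_disj {S : ℝ} (hS0 : 0 ≤ S)
    (hsec : ∀ δ : ℝ, 0 < δ → ∀ᶠ ε : ℝ in 𝓝[>] 0, (EP (nm F) ε fun v => ‖t v‖ ^ 2) / lam ε ≤ S + δ)
    (hirr : ∀ k, (ρ k).IsIrreducible)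
    (hne : ∀ k l, k ≠ l → τ k = τ l → IsEmpty ((ρ k).Equiv (ρ l))) {η : ℝ} (hη : 0 < η) :
    ∀ᶠ ε : ℝ in 𝓝[>] 0, ∑ k, (xs w τ L k ε - evA ρ A τ k) ^ 2 ≤ S + η := by
  classical
  obtain ⟨U, hUn, hU, hρU⟩ := exists_U (κ := Option κ)
    (n := fun o => o.elim N n)
    (fun o => match o with
      | none => A
      | some k => ρ k) (fun o => match o with
      | none => hA
      | some k => hopen k)
  have hρ : ∀ k, ∀ u ∈ U, ρ k u = 1 := fun k => hρU (some k)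
  have hAU : ∀ u ∈ U, A u = 1 := hρU none
  have hfin : Finite (GK F ⧸ U) := Subgroup.quotient_finite_of_isOpen U hU
  choose σ hσ using exists_isFrob (F := F)
  have hcorr := aut_corr w α hα A t ht hdec ρ τ B hB hB0 L hL U hU hρ hAU σ hσ
  obtain ⟨Y, hY⟩ := bddX t ht U ρ hρ τ σ
    (fun k ε => xs w τ L k ε - evA ρ A τ k) hcorr
  have h := disjoint_of_gram Finset.univ (hd ρ τ) (Real.sqrt S)
    (fun k ε => xs w τ L k ε - evA ρ A τ k)
    (fun k _ l _ hkl => hd_ne ρ τ (hirr k) (hirr l) (hne k l hkl))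
    (fun k _ => Or.inr (hd_self ρ τ (hirr k)).ge) (C0 := Y) (fun k _ => hY k)
    (fun C η' hη' => by
      filter_upwards [aut_gram w α hα A hA t ht hdec ρ hopen τ B hB hB0 L hL hS0 hsec C hη'] with
        ε h1 c hc
      rw [Real.sq_sqrt hS0]
      exact h1 c fun k => hc k (Finset.mem_univ k)) hη
  filter_upwards [h] with ε h1
  rw [Real.sq_sqrt hS0] at h1
  refine le_trans (le_of_eq (Finset.sum_congr rfl fun k _ => ?_)) h1
  rw [hd_self ρ τ (hirr k), div_one]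

include hα hA ht hdec hopen hB hB0 hL in
/-- **The strict inequality**, if the second moment is one -/
theorem aut_strict
    (hsec : ∀ δ : ℝ, 0 < δ → ∀ᶠ ε : ℝ in 𝓝[>] 0, (EP (nm F) ε fun v => ‖t v‖ ^ 2) / lam ε ≤ 1 + δ)
    {k : κ} (hk : (ρ k).IsIrreducible) (h3 : b' + 1 ≤ n k) :
    ∃ A' : ℝ, A' < 1 ∧ ∀ᶠ ε : ℝ in 𝓝[>] 0, |xs w τ L k ε - evA ρ A τ k| ≤ A' := by
  classical
  obtain ⟨U, hUn, hU, hρU⟩ := exists_U (κ := Option κ)
    (n := fun o => o.elim N n)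
    (fun o => match o with
      | none => A
      | some k => ρ k) (fun o => match o with
      | none => hA
      | some k => hopen k)
  have hρ : ∀ k, ∀ u ∈ U, ρ k u = 1 := fun k => hρU (some k)
  have hAU : ∀ u ∈ U, A u = 1 := hρU none
  have hfin : Finite (GK F ⧸ U) := Subgroup.quotient_finite_of_isOpen U hU
  choose σ hσ using exists_isFrob (F := F)
  have hcorr := aut_corr w α hα A t ht hdec ρ τ B hB hB0 L hL U hU hρ hAU σ hσ
  exact strictY (b := b') t ht U hU ρ hρ τ σ hσ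
    (fun k ε => xs w τ L k ε - evA ρ A τ k) hcorr hsec hk h3

end

section
variable {F : Type} [Field F] [NumberField F]
    {ι : Type*} [Fintype ι] {m : ι → ℕ} (β : ∀ i, HeightOneSpectrum (𝓞 F) → Fin (m i) → ℂ)
    (hβ : ∀ i, ∀ᶠ v in cofinite, ∀ j, ‖β i v j‖ = 1) (a : ι → ℝ)
    (hrs : ∀ i j, Tendsto (fun ε : ℝ =>
      (EP (nm F) ε fun v => (trc 0 (β i) v * conj (trc 0 (β j) v)).re) / lam ε) (𝓝[>] 0)
      (𝓝 (open scoped Classical in if i = j then 1 else 0)))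

/-- the trace of the automorphic part -/
noncomputable def tT (v : HeightOneSpectrum (𝓞 F)) : ℂ := ∑ i, (a i : ℂ) * trc 0 (β i) v

theorem norm_tT (v : HeightOneSpectrum (𝓞 F)) : ‖tT β a v‖ ≤ ∑ i, |a i| * m i := by
  unfold tT
  refine (norm_sum_le _ _).trans (Finset.sum_le_sum fun i _ => ?_)
  rw [norm_mul, Complex.norm_real, Real.norm_eq_abs]
  exact mul_le_mul_of_nonneg_left (norm_trc_le 0 (β i) v) (abs_nonneg _)

include hrs in
/-- the second moment of the automorphic part -/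
theorem sec_tT : Tendsto (fun ε : ℝ => (EP (nm F) ε fun v => ‖tT β a v‖ ^ 2) /
    lam ε) (𝓝[>] 0) (𝓝 (∑ i, a i ^ 2)) := by
  classical
  have h1 : Tendsto (fun ε : ℝ => ∑ i, ∑ j, a i * a j *
      ((EP (nm F) ε fun v => (trc 0 (β i) v * conj (trc 0 (β j) v)).re) / lam ε)) (𝓝[>] 0)
      (𝓝 (∑ i, ∑ j, a i * a j * (if i = j then 1 else 0))) :=
    tendsto_finsetSum _ fun i _ => tendsto_finsetSum _ fun j _ => (by
      have := (hrs i j).const_mul (a i * a j)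
      exact this)
  have e0 : ∑ i, ∑ j, a i * a j * (if i = j then (1 : ℝ) else 0) = ∑ i, a i ^ 2 := by
    refine Finset.sum_congr rfl fun i _ => ?_
    simp only [mul_ite, mul_one, mul_zero, Finset.sum_ite_eq, Finset.mem_univ, if_true]
    ring
  rw [e0] at h1
  refine h1.congr' ?_
  filter_upwards [self_mem_nhdsWithin] with ε h5
  have hε : (0 : ℝ) < ε := h5
  unfold tT
  rw [EP_comb normSys (fun i => trc 0 (β i)) (fun i => (m i : ℝ))
    (fun i => norm_trc_le 0 (β i)) a hε, Finset.sum_div]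
  refine Finset.sum_congr rfl fun i _ => ?_
  rw [Finset.sum_div]
  exact Finset.sum_congr rfl fun j _ => by rw [mul_div_assoc]

include hrs in
/-- the second moment with an unknown part of rank `u` -/
theorem sec_TU {U : HeightOneSpectrum (𝓞 F) → ℂ} {u : ℝ} (hU : ∀ v, ‖U v‖ ≤ u) {δ : ℝ}
    (hδ : 0 < δ) : ∀ᶠ ε : ℝ in 𝓝[>] 0, (EP (nm F) ε fun v => ‖tT β a v + U v‖ ^ 2) / lam ε ≤
      (Real.sqrt (∑ i, a i ^ 2) + u) ^ 2 + δ := by
  have hN := normSys (F := F)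
  obtain ⟨p0⟩ := prime0 (F := F)
  have hu0 : 0 ≤ u := (norm_nonneg _).trans (hU p0)
  set M : ℝ := ∑ i, a i ^ 2 with hM
  have hM0 : 0 ≤ M := Finset.sum_nonneg fun i _ => _root_.sq_nonneg _
  set s : ℝ := Real.sqrt M with hs
  have hs0 : 0 ≤ s := Real.sqrt_nonneg _
  have hss : s ^ 2 = M := Real.sq_sqrt hM0
  -- the parameter
  set e : ℝ := δ / (2 * (s + u + 1)) with he
  have he0 : 0 < e := by positivity
  set θ : ℝ := (u + e) / (s + e) with hθ
  have hθ0 : 0 < θ := by positivity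
  have q1 : (1 + θ) * M + (1 + θ⁻¹) * u ^ 2 ≤ (s + u) ^ 2 + δ / 2 := by
    have h1 : θ * M ≤ s * (u + e) := by
      rw [hθ, ← hss, div_mul_eq_mul_div, div_le_iff₀ (by positivity)]
      have : 0 ≤ s * (u + e) * e := by positivity
      nlinarith
    have h2 : θ⁻¹ * u ^ 2 ≤ u * (s + e) := by
      rw [hθ, inv_div, div_mul_eq_mul_div, div_le_iff₀ (by positivity)]
      have : 0 ≤ u * (s + e) * e := by positivity
      nlinarith
    have h3 : e * (s + u) ≤ δ / 2 := by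
      rw [he, div_mul_eq_mul_div, div_le_div_iff₀ (by positivity) (by norm_num)]
      nlinarith
    nlinarith
  set δ' : ℝ := (δ / 2) / ((1 + θ) + (1 + θ⁻¹) * u ^ 2 + 1) with hδ'
  have hδ'0 : 0 < δ' := by positivity
  have q2 : (1 + θ) * δ' + (1 + θ⁻¹) * u ^ 2 * δ' ≤ δ / 2 := by
    have h1 : δ' * ((1 + θ) + (1 + θ⁻¹) * u ^ 2 + 1) = δ / 2 :=
      div_mul_cancel₀ _ (by positivity)
    nlinarith
  filter_upwards [(sec_tT β a hrs).eventually_lt_const (by linarith : M < M + δ'),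
    (EP_one F).eventually_lt_const (by linarith : (1 : ℝ) < 1 + δ'),
    lam_tendsto.eventually_gt_atTop 0, self_mem_nhdsWithin] with ε h1 h2 h3 h4
  have hε : (0 : ℝ) < ε := h4
  have hTb : ∀ v, |‖tT β a v‖ ^ 2| ≤ (∑ i, |a i| * m i) ^ 2 := fun v => by
    rw [abs_of_nonneg (_root_.sq_nonneg _)]
    exact pow_le_pow_left₀ (norm_nonneg _) (norm_tT β a v) 2
  have key : (EP (nm F) ε fun v => ‖tT β a v + U v‖ ^ 2) ≤
      (1 + θ) * (EP (nm F) ε fun v => ‖tT β a v‖ ^ 2) +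
        (1 + θ⁻¹) * u ^ 2 * EP (nm F) ε fun _ => 1 := by
    have e1 : (1 + θ) * (EP (nm F) ε fun v => ‖tT β a v‖ ^ 2) +
        (1 + θ⁻¹) * u ^ 2 * (EP (nm F) ε fun _ => 1) =
        EP (nm F) ε fun v => (1 + θ) * ‖tT β a v‖ ^ 2 + (1 + θ⁻¹) * u ^ 2 * 1 := by
      rw [EP_add hN hε (B := (1 + θ) * (∑ i, |a i| * m i) ^ 2) (B' := (1 + θ⁻¹) * u ^ 2 * 1)
        (fun v => by
          rw [abs_mul, abs_of_pos (by positivity : (0 : ℝ) < 1 + θ)]
          exact mul_le_mul_of_nonneg_left (hTb v) (by positivity)) (fun v => by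
          rw [abs_of_nonneg (by positivity)]), EP_const_mul, EP_const_mul]
    rw [e1]
    refine Pool.Agent.W353.L1.EP_mono (B := ((∑ i, |a i| * m i) + u) ^ 2)
      (B' := (1 + θ) * (∑ i, |a i| * m i) ^ 2 + (1 + θ⁻¹) * u ^ 2 * 1) (fun v => ?_)
      (fun v => ?_) (fun v => ?_) hε
    · rw [abs_of_nonneg (_root_.sq_nonneg _)]
      exact pow_le_pow_left₀ (norm_nonneg _)
        ((norm_add_le _ _).trans (add_le_add (norm_tT β a v) (hU v))) 2
    · rw [abs_of_nonneg (by positivity)]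
      have := hTb v
      rw [abs_of_nonneg (_root_.sq_nonneg _)] at this
      exact add_le_add (mul_le_mul_of_nonneg_left this (by positivity)) le_rfl
    · have h5 : ‖tT β a v + U v‖ ≤ ‖tT β a v‖ + u :=
        (norm_add_le _ _).trans (add_le_add le_rfl (hU v))
      have h6 : ‖tT β a v + U v‖ ^ 2 ≤ (‖tT β a v‖ + u) ^ 2 :=
        pow_le_pow_left₀ (norm_nonneg _) h5 2
      have h7 : 2 * (‖tT β a v‖ * u) ≤ θ * ‖tT β a v‖ ^ 2 + θ⁻¹ * u ^ 2 := by
        have h8 : 0 ≤ θ⁻¹ * (θ * ‖tT β a v‖ - u) ^ 2 :=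
          mul_nonneg (inv_nonneg.2 hθ0.le) (_root_.sq_nonneg _)
        have h9 : θ⁻¹ * (θ * ‖tT β a v‖ - u) ^ 2 =
            θ * ‖tT β a v‖ ^ 2 - 2 * (‖tT β a v‖ * u) + θ⁻¹ * u ^ 2 := by
          field_simp
          ring
        linarith
      nlinarith
  have h5 : (EP (nm F) ε fun v => ‖tT β a v + U v‖ ^ 2) / lam ε ≤
      (1 + θ) * (M + δ') + (1 + θ⁻¹) * u ^ 2 * (1 + δ') := by
    rw [div_le_iff₀ h3]
    refine key.trans ?_
    rw [div_lt_iff₀ h3] at h1 h2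
    have g1 := mul_le_mul_of_nonneg_left h1.le (by positivity : 0 ≤ 1 + θ)
    have g2 := mul_le_mul_of_nonneg_left h2.le (by positivity : 0 ≤ (1 + θ⁻¹) * u ^ 2)
    calc _ ≤ (1 + θ) * ((M + δ') * lam ε) + (1 + θ⁻¹) * u ^ 2 * ((1 + δ') * lam ε) :=
          add_le_add g1 g2
      _ = _ := by ring
  linarith

end

section
variable {F : Type} [Field F] [NumberField F] {b : ℕ} (w : ℝ)
    (α : HeightOneSpectrum (𝓞 F) → Fin b → ℂ)
    (hα : ∀ᶠ v in cofinite, ∀ j, ‖α v j‖ = (nm F v : ℝ) ^ w)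
    {N : ℕ} (A : Representation ℂ (GK F) (Fin N → ℂ))
    {ι : Type*} [Fintype ι] {m : ι → ℕ} (β : ∀ i, HeightOneSpectrum (𝓞 F) → Fin (m i) → ℂ)
    (hβ : ∀ i, ∀ᶠ v in cofinite, ∀ j, ‖β i v j‖ = 1) (a : ι → ℝ)
    {u : ℕ} (ν : HeightOneSpectrum (𝓞 F) → Fin u → ℂ)
    (hν : ∀ᶠ v in cofinite, ∀ j, ‖ν v j‖ = 1)

include hα hβ hν in
theorem trc_dec (hdec : ∀ᶠ v in cofinite, ∀ σ : GK F, IsFrob v σ →
      ∑ j, α v j = (((nm F v : ℝ) ^ w : ℝ) : ℂ) * (A.character σ⁻¹ +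
        ∑ i, (a i : ℂ) * ∑ j, β i v j + ∑ j, ν v j))
    (σ : HeightOneSpectrum (𝓞 F) → GK F) (hσ : ∀ v, IsFrob v (σ v)) :
    ∀ᶠ v in cofinite, trc w α v = A.character (σ v)⁻¹ + (tT β a v + trc 0 ν v) := by
  filter_upwards [hα, eventually_all.2 hβ, hν, hdec] with v h1 h2 h2' h3
  have h0 : (0 : ℝ) < nm F v := by exact_mod_cast nm_pos v
  have e3 : trc 0 ν v = ∑ j, ν v j := by
    unfold trc
    rw [if_pos (fun j => by rw [h2' j, Real.rpow_zero]), Complex.ofReal_zero, neg_zero,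
      Complex.cpow_zero, mul_one]
  rw [e3]
  unfold trc tT
  rw [if_pos h1, h3 (σ v) (hσ v)]
  have e1 : ∀ i, trc 0 (β i) v = ∑ j, β i v j := by
    intro i
    unfold trc
    rw [if_pos (fun j => by rw [h2 i j, Real.rpow_zero]), Complex.ofReal_zero, neg_zero,
      Complex.cpow_zero, mul_one]
  have e2 : (((nm F v : ℝ) ^ w : ℝ) : ℂ) * ((nm F v : ℕ) : ℂ) ^ (-(w : ℂ)) = 1 := by
    rw [Complex.ofReal_cpow h0.le, Complex.ofReal_natCast, ← Complex.cpow_add _ _ (by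
      exact_mod_cast h0.ne'), add_neg_cancel, Complex.cpow_zero]
  simp only [e1]
  calc (((nm F v : ℝ) ^ w : ℝ) : ℂ) * (A.character (σ v)⁻¹ + ∑ i, (a i : ℂ) * ∑ j, β i v j +
        ∑ j, ν v j) * ((nm F v : ℕ) : ℂ) ^ (-(w : ℂ)) =
      ((((nm F v : ℝ) ^ w : ℝ) : ℂ) * ((nm F v : ℕ) : ℂ) ^ (-(w : ℂ))) *
        (A.character (σ v)⁻¹ + ∑ i, (a i : ℂ) * ∑ j, β i v j + ∑ j, ν v j) := by ring
    _ = _ := by rw [e2, one_mul, add_assoc]

end

end Pool.Agent.X288.CX
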