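import Pool.Agent.X288.CX.Bes
import Pool.Agent.X288.L2.Base

/-! The sizes of the L-functions over number fields as correlations (for the Bessel inequality). -/

set_option autoImplicit false
set_option linter.unusedSectionVars false
open Classical

namespace Pool.Agent.X288.CX

open Complex Filter Topology ComplexConjugate NumberField IsDedekindDomain Asymptotics
  Pool.Agent.W401.Cheb Pool.Agent.W540.BE Pool.Agent.W353.L1 Pool.Agent.W353.NF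
open Pool.Agent.W353.TP (HX sysH LL)
open Pool.Agent.W353.AB (Sy syE)
open Pool.Agent.TH322.BC
open Pool.Agent.TH322.BC.Edge (TwistOver MinimalModels LSeries size HasOrder
  size_twist size_base coe_ne twist)
open Pool.Agent.X288.L2 (EC Cls abs_TT_le P_eq Q_eq PQ_ne PP QQ chi_one')

theorem frob_exists (v : HeightOneSpectrum (𝓞 ℚ)) : ∃ σ : GK ℚ, IsFrob v σ := exists_isFrob ℚ v

section
variable {ι : Type} {a b : ι → ℤ} (hab : ∀ i, 4 * a i ^ 3 + 27 * b i ^ 2 ≠ 0)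
  {κ : Type} {F : κ → Type} [∀ k, Field (F k)] [∀ k, NumberField (F k)]
  [∀ k, Algebra ℚ (F k)] (D : ∀ k, 𝓞 (F k)) (hD : ∀ k, D k ≠ 0)
  (V : ι → ∀ k, HeightOneSpectrum (𝓞 (F k)) → WeierstrassCurve (𝓞 (F k)))
  (hV : ∀ i k, MinimalModels (twist ((EC ℚ (a i) (b i)).map (algebraMap ℚ (F k))) (D k : F k))
    (V i k))

include hab hD hV in
theorem ne_twist (i : ι) (k : κ) (τ : ℝ) :
    ∀ᶠ ε : ℝ in 𝓝[>] 0, LSeries (V i k) (3 / 2 + τ * Complex.I + ε) ≠ 0 :=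
  (size_twist one_ne_zero (P_eq (a i) (b i)) (Q_eq (a i) (b i)) (PQ_ne (hab i))
    ⟨D k, hD k, V i k, hV i k⟩ τ).1

include hab hD hV in
theorem szH_twist (σ : HeightOneSpectrum (𝓞 ℚ) → GK ℚ) (hσ : ∀ v, IsFrob v (σ v)) (i : ι) (k : κ)
    (τ : ℝ) : SzH (Pool.Agent.W353.NF.TT (syE (PP ℚ (a i)) (QQ ℚ (b i))))
      (fun v => (chi ℚ (D k : F k) (σ v) : ℝ) * cz τ v) (size (V i k) τ) :=
  size_chi _ (Pool.Agent.W353.NF.syE_real _ _) (hD k) (Pool.Agent.TH322.BC.Edge.syE_D _ _ _) σ hσ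
    (size_twist one_ne_zero (P_eq (a i) (b i)) (Q_eq (a i) (b i)) (PQ_ne (hab i))
      ⟨D k, hD k, V i k, hV i k⟩ τ).2

include hD in
theorem cls_twist {U : Subgroup (GK ℚ)}
    (hker : ∀ k, ∀ u ∈ U, act ℚ (F k) u = 1 ∧
      ∀ i : F k →ₐ[ℚ] AlgebraicClosure ℚ, ∀ s : AlgebraicClosure ℚ, s ^ 2 = i (D k) → u s = s)
    (k : κ) : Cls U fun g => (chi ℚ (D k : F k) g : ℝ) := by
  have hDk : (D k : F k) ≠ 0 := fun h' => hD k (RingOfIntegers.ext h')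
  exact ⟨fun σ u hu => by rw [chi_mul_ker hDk σ u (hker k u hu).1 (hker k u hu).2],
    fun σ ρ => by rw [chi_conj hDk], fun σ => by rw [chi_inv hDk]⟩

end

section
variable {a b : ℤ} (hab : 4 * a ^ 3 + 27 * b ^ 2 ≠ 0)
  {F : Type} [Field F] [NumberField F] [Algebra ℚ F]
  {V₀ : HeightOneSpectrum (𝓞 ℚ) → WeierstrassCurve (𝓞 ℚ)}
  (hV₀ : MinimalModels ((EC ℚ a b).map (algebraMap ℚ ℚ)) V₀)
  {V : HeightOneSpectrum (𝓞 F) → WeierstrassCurve (𝓞 F)}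
  (hV : MinimalModels ((EC ℚ a b).map (algebraMap ℚ F)) V)

include hab hV in
theorem ne_base (τ : ℝ) : ∀ᶠ ε : ℝ in 𝓝[>] 0, LSeries V (3 / 2 + τ * Complex.I + ε) ≠ 0 :=
  (size_base one_ne_zero (P_eq a b) (Q_eq a b) (PQ_ne hab) hV τ).1

include hab hV in
theorem szH_base (σ : HeightOneSpectrum (𝓞 ℚ) → GK ℚ) (hσ : ∀ v, IsFrob v (σ v)) (τ : ℝ) :
    SzH (Pool.Agent.W353.NF.TT (syE (PP ℚ a) (QQ ℚ b)))
      (fun v => (fixn ℚ F (σ v) : ℝ) * cz τ v) (size V τ) := by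
  have z1 : SzH (Pool.Agent.W353.NF.TT (syE (PP ℚ a) (QQ ℚ b)))
      (fun v => (chi ℚ (((1 : 𝓞 F) : F)) (σ v) : ℝ) * cz τ v) (size V τ) :=
    size_chi _ (Pool.Agent.W353.NF.syE_real _ _) one_ne_zero
      (Pool.Agent.TH322.BC.Edge.syE_D _ _ _) σ hσ
      (size_base one_ne_zero (P_eq a b) (Q_eq a b) (PQ_ne hab) hV τ).2
  refine z1.congr (fun v => ?_) fun ε => rfl
  rw [chi_one']
  push_cast
  rfl

include hab hV₀ hV in
theorem szH_diff (σ : HeightOneSpectrum (𝓞 ℚ) → GK ℚ) (hσ : ∀ v, IsFrob v (σ v)) (τ : ℝ) :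
    SzH (Pool.Agent.W353.NF.TT (syE (PP ℚ a) (QQ ℚ b)))
      (fun v => ((fixn ℚ F (σ v) : ℝ) - 1) * cz τ v)
      (fun ε => size V τ ε - size V₀ τ ε) := by
  have z1 := szH_base hab hV σ hσ τ
  have z0 := szH_base hab hV₀ σ hσ τ
  obtain ⟨M₁, hM₁, hM₁'⟩ : ∃ M : ℝ, 0 ≤ M ∧ ∀ g : GK ℚ, |(fixn ℚ F g : ℝ)| ≤ M :=
    ⟨_, Nat.cast_nonneg _, fun g => by
      have h1 := abs_chi_le (((1 : 𝓞 F) : F)) g
      rw [chi_one'] at h1
      push_cast at h1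
      exact h1⟩
  have hb1 : ∀ v, |(fixn ℚ F (σ v) : ℝ) * cz τ v| ≤ M₁ := by
    intro v
    rw [abs_mul]
    calc _ ≤ M₁ * 1 := mul_le_mul (hM₁' _) (abs_cz _ _) (abs_nonneg _) hM₁
      _ = _ := mul_one _
  have hb0 : ∀ v, |(-1 : ℝ) * ((fixn ℚ ℚ (σ v) : ℝ) * cz τ v)| ≤ 1 := by
    intro v
    have e : fixn ℚ ℚ (σ v) = 1 := Pool.Agent.X288.L2.fixn_self _
    rw [e, Nat.cast_one, one_mul, abs_mul, abs_neg, abs_one, one_mul]
    exact abs_cz _ _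
  refine (z1.add (z0.const_mul (-1)) (abs_TT_le a b) hb1 hb0).congr (fun v => ?_) fun ε => by ring
  have e : fixn ℚ ℚ (σ v) = 1 := Pool.Agent.X288.L2.fixn_self _
  rw [e]
  push_cast
  ring

end

section
variable (F : Type) [Field F] [NumberField F] [Algebra ℚ F]

theorem cls_fix : Cls (act ℚ F).ker fun g => (fixn ℚ F g : ℝ) :=
  ⟨fun g u hu => by
    have : fixn ℚ F (g * u) = fixn ℚ F g := fixn_mul_ker ℚ F g u hu
    rw [this], fun g ρ => by rw [fixn_conj], fun g => by rw [fixn_inv]⟩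

theorem cls_fix1 : Cls (act ℚ F).ker fun g => (fixn ℚ F g : ℝ) - 1 :=
  ⟨fun g u hu => by
    have : fixn ℚ F (g * u) = fixn ℚ F g := fixn_mul_ker ℚ F g u hu
    rw [this], fun g ρ => by rw [fixn_conj], fun g => by rw [fixn_inv]⟩

end

end Pool.Agent.X288.CX
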