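import Pool.Agent.X288.CX.Gram

/-! The bilinear inequality for a bounded function and two families with known Gram matrices. -/

set_option autoImplicit false

namespace Pool.Agent.X288.CX

open Filter Topology ComplexConjugate Pool.Agent.H341R2 Pool.Agent.W540.BE Pool.Agent.X288.AR

section
variable {P : Type*} {N : P → ℕ}

/-- sums weighted by a bounded function -/
theorem EP_abs_leG (hN : NormSys N) {φ ψ : P → ℝ} {B : ℝ} (hψ : ∀ v, |ψ v| ≤ B)
    (h : ∀ v, |φ v| ≤ ψ v) {ε : ℝ} (hε : 0 < ε) : |EP N ε φ| ≤ EP N ε ψ := by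
  have hs2 := summable_EP hN hε hψ
  unfold EP
  rw [← Real.norm_eq_abs]
  refine tsum_of_norm_bounded hs2.hasSum fun v => ?_
  rw [Real.norm_eq_abs, abs_mul, abs_of_nonneg (wP_nonneg ε v)]
  exact mul_le_mul_of_nonneg_right (h v) (wP_nonneg ε v)

/-- the mean square of a real combination -/
theorem EP_comb (hN : NormSys N) {ι : Type*} [Fintype ι] (s : ι → P → ℂ) (S : ι → ℝ)
    (hs : ∀ i p, ‖s i p‖ ≤ S i) (a : ι → ℝ) {ε : ℝ} (hε : 0 < ε) :
    (EP N ε fun p => ‖∑ i, (a i : ℂ) * s i p‖ ^ 2) =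
      ∑ i, ∑ j, a i * a j * EP N ε fun p => (s i p * conj (s j p)).re := by
  have e : (fun p => ‖∑ i, (a i : ℂ) * s i p‖ ^ 2) = fun p =>
      ∑ i, ∑ j, (a i * a j) * (s i p * conj (s j p)).re := by
    funext p
    have h1 : ((‖∑ i, (a i : ℂ) * s i p‖ ^ 2 : ℝ) : ℂ) =
        ∑ i, ∑ j, ((a i * a j : ℝ) : ℂ) * (s i p * conj (s j p)) := by
      rw [← Complex.normSq_eq_norm_sq, ← Complex.mul_conj, map_sum, Finset.sum_mul_sum]
      refine Finset.sum_congr rfl fun i _ => Finset.sum_congr rfl fun j _ => ?_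
      rw [map_mul, Complex.conj_ofReal]
      push_cast
      ring
    have h2 := congrArg Complex.re h1
    rw [Complex.ofReal_re, Complex.re_sum] at h2
    rw [h2]
    refine Finset.sum_congr rfl fun i _ => ?_
    rw [Complex.re_sum]
    exact Finset.sum_congr rfl fun j _ => Complex.re_ofReal_mul _ _
  have hb : ∀ i j p, |(a i * a j) * (s i p * conj (s j p)).re| ≤ |a i * a j| * (S i * S j) := by
    intro i j p
    rw [abs_mul]
    refine mul_le_mul_of_nonneg_left ((Complex.abs_re_le_norm _).trans ?_) (abs_nonneg _)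
    rw [norm_mul, RCLike.norm_conj]
    exact mul_le_mul (hs i p) (hs j p) (norm_nonneg _) ((norm_nonneg _).trans (hs i p))
  rw [e, EP_sum hN hε Finset.univ (fun i p => ∑ j, (a i * a j) * (s i p * conj (s j p)).re)
    (fun i => ∑ j, |a i * a j| * (S i * S j)) (fun i _ p =>
      (Finset.abs_sum_le_sum_abs _ _).trans (Finset.sum_le_sum fun j _ => hb i j p))]
  refine Finset.sum_congr rfl fun i _ => ?_
  rw [EP_sum hN hε Finset.univ (fun j p => (a i * a j) * (s i p * conj (s j p)).re)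
    (fun j => |a i * a j| * (S i * S j)) (fun j _ p => hb i j p)]
  exact Finset.sum_congr rfl fun j _ => EP_const_mul _ _

/-- Cauchy-Schwarz with a bounded factor -/
theorem EP_cs3 (hN : NormSys N) (p0 : P) {t x y : P → ℂ} {R X Y : ℝ} (ht : ∀ p, ‖t p‖ ≤ R)
    (hx : ∀ p, ‖x p‖ ≤ X) (hy : ∀ p, ‖y p‖ ≤ Y) {ε : ℝ} (hε : 0 < ε) :
    (EP N ε fun p => (t p * x p * y p).re) ^ 2 ≤
      R ^ 2 * (EP N ε fun p => ‖x p‖ ^ 2) * EP N ε fun p => ‖y p‖ ^ 2 := by
  have hR : 0 ≤ R := (norm_nonneg _).trans (ht p0)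
  have hX : 0 ≤ X := (norm_nonneg _).trans (hx p0)
  have hb : ∀ p, |(t p * x p * y p).re| ≤ R * (‖x p‖ * ‖y p‖) := by
    intro p
    refine (Complex.abs_re_le_norm _).trans ?_
    rw [norm_mul, norm_mul, mul_assoc]
    exact mul_le_mul_of_nonneg_right (ht p) (by positivity)
  have hxy : ∀ p, ‖x p‖ * ‖y p‖ ≤ X * Y := fun p =>
    mul_le_mul (hx p) (hy p) (norm_nonneg _) hX
  have h1 : |EP N ε fun p => (t p * x p * y p).re| ≤
      EP N ε fun p => R * (‖x p‖ * ‖y p‖) :=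
    EP_abs_leG hN (B := R * (X * Y)) (fun p => by
      rw [abs_of_nonneg (by positivity)]
      exact mul_le_mul_of_nonneg_left (hxy p) hR) hb hε
  rw [EP_const_mul] at h1
  have h2 := EP_cs hN (φ := fun p => ‖x p‖) (ψ := fun p => ‖y p‖) (b := X) (B := Y)
    (fun p => by rw [abs_norm]; exact hx p) (fun p => by rw [abs_norm]; exact hy p) p0 hε
  have h3 : 0 ≤ EP N ε fun p => ‖x p‖ * ‖y p‖ := EP_nonneg fun p => by positivity
  calc (EP N ε fun p => (t p * x p * y p).re) ^ 2 =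
      |EP N ε fun p => (t p * x p * y p).re| ^ 2 := (sq_abs _).symm
    _ ≤ (R * EP N ε fun p => ‖x p‖ * ‖y p‖) ^ 2 := pow_le_pow_left₀ (abs_nonneg _) h1 2
    _ = R ^ 2 * (EP N ε fun p => ‖x p‖ * ‖y p‖) ^ 2 := by ring
    _ ≤ R ^ 2 * ((EP N ε fun p => ‖x p‖ ^ 2) * EP N ε fun p => ‖y p‖ ^ 2) :=
        mul_le_mul_of_nonneg_left h2 (sq_nonneg _)
    _ = _ := by ring

/-- the trivial estimates for forms -/
theorem form_le {ι κ : Type*} [Fintype ι] [Fintype κ] {C δ : ℝ} {a : ι → ℝ} {c : κ → ℝ}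
    (ha : ∀ i, |a i| ≤ C) (hc : ∀ k, |c k| ≤ C) {g : ι → κ → ℝ} (hg : ∀ i k, |g i k| ≤ δ) :
    |∑ i, ∑ k, a i * c k * g i k| ≤ Fintype.card ι * Fintype.card κ * (C ^ 2 * δ) := by
  refine (Finset.abs_sum_le_sum_abs _ _).trans ?_
  have h1 : ∀ i ∈ (Finset.univ : Finset ι), |∑ k, a i * c k * g i k| ≤
      Fintype.card κ * (C ^ 2 * δ) := by
    intro i _
    refine (Finset.abs_sum_le_sum_abs _ _).trans ?_
    have h2 : ∀ k ∈ (Finset.univ : Finset κ), |a i * c k * g i k| ≤ C ^ 2 * δ := by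
      intro k _
      rw [abs_mul, abs_mul, sq]
      have hC : 0 ≤ C := (abs_nonneg _).trans (ha i)
      exact mul_le_mul (mul_le_mul (ha i) (hc k) (abs_nonneg _) hC) (hg i k) (abs_nonneg _)
        (mul_nonneg hC hC)
    refine (Finset.sum_le_card_nsmul _ _ _ h2).trans (le_of_eq ?_)
    rw [Finset.card_univ, nsmul_eq_mul]
  refine (Finset.sum_le_card_nsmul _ _ _ h1).trans (le_of_eq ?_)
  rw [Finset.card_univ, nsmul_eq_mul, mul_assoc]

/-- **The bilinear inequality.** -/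
theorem bilin (hN : NormSys N) (p0 : P) {ι κ : Type*} [Fintype ι] [Fintype κ]
    {t : P → ℂ} {R : ℝ} (ht : ∀ p, ‖t p‖ ≤ R) (s : ι → P → ℂ) (S : ι → ℝ)
    (hs : ∀ i p, ‖s i p‖ ≤ S i) (z : κ → P → ℂ) (Z : κ → ℝ) (hz : ∀ k p, ‖z k p‖ ≤ Z k)
    (h : ι → ι → ℝ) (hh : ∀ i j, Tendsto (fun ε : ℝ =>
      (EP N ε fun p => (s i p * conj (s j p)).re) / lam ε) (𝓝[>] 0) (𝓝 (h i j)))
    (g : κ → κ → ℝ) (hg : ∀ k l, Tendsto (fun ε : ℝ =>
      (EP N ε fun p => (z k p * conj (z l p)).re) / lam ε) (𝓝[>] 0) (𝓝 (g k l)))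
    (x : ι → κ → ℝ → ℝ) (hx : ∀ i k, Tendsto (fun ε : ℝ =>
      (EP N ε fun p => (t p * s i p * z k p).re) / lam ε - x i k ε) (𝓝[>] 0) (𝓝 0))
    {Y : ℝ} (hY : ∀ i k, ∀ᶠ ε : ℝ in 𝓝[>] 0, |x i k ε| ≤ Y)
    (C : ℝ) {η : ℝ} (hη : 0 < η) :
    ∀ᶠ ε : ℝ in 𝓝[>] 0, ∀ (a : ι → ℝ) (c : κ → ℝ), (∀ i, |a i| ≤ C) → (∀ k, |c k| ≤ C) →
      (∑ i, ∑ k, a i * c k * x i k ε) ^ 2 ≤
        R ^ 2 * (∑ i, ∑ j, a i * a j * h i j) * (∑ k, ∑ l, c k * c l * g k l) + η := by
  classical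
  set H : ℝ := ∑ i, ∑ j, |h i j| with hH
  set Gm : ℝ := ∑ k, ∑ l, |g k l| with hG
  have hH0 : 0 ≤ H := Finset.sum_nonneg fun i _ => Finset.sum_nonneg fun j _ => abs_nonneg _
  have hG0 : 0 ≤ Gm := Finset.sum_nonneg fun i _ => Finset.sum_nonneg fun j _ => abs_nonneg _
  have hHi : ∀ i j, |h i j| ≤ H := fun i j =>
    (Finset.single_le_sum (f := fun j => |h i j|) (fun _ _ => abs_nonneg _)
      (Finset.mem_univ j)).trans (Finset.single_le_sum (f := fun i => ∑ j, |h i j|)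
        (fun i _ => Finset.sum_nonneg fun j _ => abs_nonneg _) (Finset.mem_univ i))
  have hGi : ∀ i j, |g i j| ≤ Gm := fun i j =>
    (Finset.single_le_sum (f := fun j => |g i j|) (fun _ _ => abs_nonneg _)
      (Finset.mem_univ j)).trans (Finset.single_le_sum (f := fun i => ∑ j, |g i j|)
        (fun i _ => Finset.sum_nonneg fun j _ => abs_nonneg _) (Finset.mem_univ i))
  set n1 : ℝ := ((Fintype.card ι : ℕ) : ℝ) with hn1
  set n2 : ℝ := ((Fintype.card κ : ℕ) : ℝ) with hn2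
  have hn10 : 0 ≤ n1 := Nat.cast_nonneg _
  have hn20 : 0 ≤ n2 := Nat.cast_nonneg _
  set M1 : ℝ := n1 * n2 * (C ^ 2 * |Y|) with hM1
  set M2 : ℝ := n1 * n1 * (C ^ 2 * H) with hM2
  set M3 : ℝ := n2 * n2 * (C ^ 2 * Gm) with hM3
  have hM10 : 0 ≤ M1 := by positivity
  have hM20 : 0 ≤ M2 := by positivity
  have hM30 : 0 ≤ M3 := by positivity
  set e1 : ℝ := n1 * n1 * C ^ 2 with he1
  set e2 : ℝ := n2 * n2 * C ^ 2 with he2
  set e3 : ℝ := n1 * n2 * C ^ 2 with he3
  have he10 : 0 ≤ e1 := by positivity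
  have he20 : 0 ≤ e2 := by positivity
  have he30 : 0 ≤ e3 := by positivity
  set Big : ℝ := e3 * (2 * M1 + e3) + R ^ 2 * (e1 * (M3 + e2) + e2 * M2) + 1 with hBig
  have hBig0 : 0 < Big := by positivity
  set δ : ℝ := min 1 (η / Big) with hδ
  have hδ0 : 0 < δ := by positivity
  have hδ1 : δ ≤ 1 := min_le_left _ _
  have hδη : δ * Big ≤ η := by
    have : δ ≤ η / Big := min_le_right _ _
    rwa [le_div_iff₀ hBig0] at this
  have k1 : ∀ᶠ ε : ℝ in 𝓝[>] 0, ∀ i j,
      |(EP N ε fun p => (s i p * conj (s j p)).re) / lam ε - h i j| ≤ δ :=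
    eventually_all.2 fun i => eventually_all.2 fun j =>
      ((Metric.tendsto_nhds.1 (hh i j)) δ hδ0).mono fun ε hε => by
        rw [Real.dist_eq] at hε
        exact hε.le
  have k2 : ∀ᶠ ε : ℝ in 𝓝[>] 0, ∀ i j,
      |(EP N ε fun p => (z i p * conj (z j p)).re) / lam ε - g i j| ≤ δ :=
    eventually_all.2 fun i => eventually_all.2 fun j =>
      ((Metric.tendsto_nhds.1 (hg i j)) δ hδ0).mono fun ε hε => by
        rw [Real.dist_eq] at hε
        exact hε.le
  have k3 : ∀ᶠ ε : ℝ in 𝓝[>] 0, ∀ i k,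
      |(EP N ε fun p => (t p * s i p * z k p).re) / lam ε - x i k ε| ≤ δ :=
    eventually_all.2 fun i => eventually_all.2 fun j =>
      ((Metric.tendsto_nhds.1 (hx i j)) δ hδ0).mono fun ε hε => by
        rw [Real.dist_eq, sub_zero] at hε
        exact hε.le
  have k4 : ∀ᶠ ε : ℝ in 𝓝[>] 0, ∀ i k, |x i k ε| ≤ Y :=
    eventually_all.2 fun i => eventually_all.2 fun j => hY i j
  filter_upwards [k1, k2, k3, k4, lam_tendsto.eventually_gt_atTop 0, self_mem_nhdsWithin] with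
    ε h1 h2 h3 h4 h5 h6 a c ha hc
  have hε : (0 : ℝ) < ε := h6
  -- the three forms
  set A' : ℝ := (EP N ε fun p => ‖∑ i, (a i : ℂ) * s i p‖ ^ 2) / lam ε with hA'
  set G' : ℝ := (EP N ε fun p => ‖∑ k, (c k : ℂ) * z k p‖ ^ 2) / lam ε with hG'
  set X' : ℝ := (EP N ε fun p => (t p * (∑ i, (a i : ℂ) * s i p) *
    (∑ k, (c k : ℂ) * z k p)).re) / lam ε with hX'
  have hA0 : 0 ≤ A' := div_nonneg (EP_nonneg fun p => _root_.sq_nonneg _) h5.le
  have hG0' : 0 ≤ G' := div_nonneg (EP_nonneg fun p => _root_.sq_nonneg _) h5.le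
  have hAe : A' = ∑ i, ∑ j, a i * a j *
      ((EP N ε fun p => (s i p * conj (s j p)).re) / lam ε) := by
    rw [hA', EP_comb hN s S hs a hε, Finset.sum_div]
    refine Finset.sum_congr rfl fun i _ => ?_
    rw [Finset.sum_div]
    exact Finset.sum_congr rfl fun j _ => by rw [mul_div_assoc]
  have hGe : G' = ∑ i, ∑ j, c i * c j *
      ((EP N ε fun p => (z i p * conj (z j p)).re) / lam ε) := by
    rw [hG', EP_comb hN z Z hz c hε, Finset.sum_div]
    refine Finset.sum_congr rfl fun i _ => ?_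
    rw [Finset.sum_div]
    exact Finset.sum_congr rfl fun j _ => by rw [mul_div_assoc]
  have hR0 : 0 ≤ R := (norm_nonneg _).trans (ht p0)
  have htri : ∀ i k p, |a i * c k * (t p * s i p * z k p).re| ≤
      |a i * c k| * (R * S i * Z k) := by
    intro i k p
    rw [abs_mul]
    refine mul_le_mul_of_nonneg_left ((Complex.abs_re_le_norm _).trans ?_) (abs_nonneg _)
    rw [norm_mul, norm_mul]
    have q1 : 0 ≤ S i := (norm_nonneg _).trans (hs i p)
    exact mul_le_mul (mul_le_mul (ht p) (hs i p) (norm_nonneg _) hR0) (hz k p) (norm_nonneg _)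
      (mul_nonneg hR0 q1)
  have hXe : X' = ∑ i, ∑ k, a i * c k *
      ((EP N ε fun p => (t p * s i p * z k p).re) / lam ε) := by
    have e : (fun p => (t p * (∑ i, (a i : ℂ) * s i p) * (∑ k, (c k : ℂ) * z k p)).re) =
        fun p => ∑ i, ∑ k, a i * c k * (t p * s i p * z k p).re := by
      funext p
      rw [mul_assoc, Finset.sum_mul_sum, Finset.mul_sum, Complex.re_sum]
      refine Finset.sum_congr rfl fun i _ => ?_
      rw [Finset.mul_sum, Complex.re_sum]
      refine Finset.sum_congr rfl fun k _ => ?_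
      rw [← Complex.re_ofReal_mul]
      congr 1
      push_cast
      ring
    rw [hX', e, EP_sum hN hε Finset.univ
      (fun i p => ∑ k, a i * c k * (t p * s i p * z k p).re)
      (fun i => ∑ k, |a i * c k| * (R * S i * Z k)) (fun i _ p =>
        (Finset.abs_sum_le_sum_abs _ _).trans (Finset.sum_le_sum fun k _ => htri i k p)),
      Finset.sum_div]
    refine Finset.sum_congr rfl fun i _ => ?_
    rw [EP_sum hN hε Finset.univ (fun k p => a i * c k * (t p * s i p * z k p).re)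
      (fun k => |a i * c k| * (R * S i * Z k)) (fun k _ p => htri i k p), Finset.sum_div]
    refine Finset.sum_congr rfl fun k _ => ?_
    rw [EP_const_mul, mul_div_assoc]
  -- Cauchy-Schwarz
  have hcs : X' ^ 2 ≤ R ^ 2 * A' * G' := by
    have q1 := EP_cs3 hN p0 (t := t) (x := fun p => ∑ i, (a i : ℂ) * s i p)
      (y := fun p => ∑ k, (c k : ℂ) * z k p) (R := R) (X := ∑ i, |a i| * S i)
      (Y := ∑ k, |c k| * Z k) ht (fun p => (norm_sum_le _ _).trans
        (Finset.sum_le_sum fun i _ => by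
          rw [norm_mul, Complex.norm_real, Real.norm_eq_abs]
          exact mul_le_mul_of_nonneg_left (hs i p) (abs_nonneg _)))
      (fun p => (norm_sum_le _ _).trans (Finset.sum_le_sum fun k _ => by
          rw [norm_mul, Complex.norm_real, Real.norm_eq_abs]
          exact mul_le_mul_of_nonneg_left (hz k p) (abs_nonneg _))) hε
    have q2 : 0 < lam ε ^ 2 := by positivity
    have q3 : X' ^ 2 = (EP N ε fun p => (t p * (∑ i, (a i : ℂ) * s i p) *
        (∑ k, (c k : ℂ) * z k p)).re) ^ 2 / lam ε ^ 2 := by rw [hX', div_pow]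
    rw [q3, div_le_iff₀ q2]
    refine q1.trans (le_of_eq ?_)
    rw [hA', hG']
    field_simp
  -- the errors
  set A : ℝ := ∑ i, ∑ j, a i * a j * h i j with hA
  set G : ℝ := ∑ k, ∑ l, c k * c l * g k l with hGG
  set X : ℝ := ∑ i, ∑ k, a i * c k * x i k ε with hX
  have f1 : |A' - A| ≤ e1 * δ := by
    have q := form_le ha ha h1
    have e : ∑ i, ∑ j, a i * a j * ((EP N ε fun p => (s i p * conj (s j p)).re) / lam ε -
        h i j) = A' - A := by
      rw [hAe, hA, ← Finset.sum_sub_distrib]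
      refine Finset.sum_congr rfl fun i _ => ?_
      rw [← Finset.sum_sub_distrib]
      exact Finset.sum_congr rfl fun j _ => by ring
    rw [e] at q
    refine q.trans (le_of_eq ?_)
    rw [he1]
    ring
  have f2 : |G' - G| ≤ e2 * δ := by
    have q := form_le hc hc h2
    have e : ∑ i, ∑ j, c i * c j * ((EP N ε fun p => (z i p * conj (z j p)).re) / lam ε -
        g i j) = G' - G := by
      rw [hGe, hGG, ← Finset.sum_sub_distrib]
      refine Finset.sum_congr rfl fun i _ => ?_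
      rw [← Finset.sum_sub_distrib]
      exact Finset.sum_congr rfl fun j _ => by ring
    rw [e] at q
    refine q.trans (le_of_eq ?_)
    rw [he2]
    ring
  have f3 : |X' - X| ≤ e3 * δ := by
    have q := form_le ha hc h3
    have e : ∑ i, ∑ k, a i * c k * ((EP N ε fun p => (t p * s i p * z k p).re) / lam ε -
        x i k ε) = X' - X := by
      rw [hXe, hX, ← Finset.sum_sub_distrib]
      refine Finset.sum_congr rfl fun i _ => ?_
      rw [← Finset.sum_sub_distrib]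
      exact Finset.sum_congr rfl fun j _ => by ring
    rw [e] at q
    refine q.trans (le_of_eq ?_)
    rw [he3]
    ring
  have f4 : |X| ≤ M1 := by
    have q := form_le (δ := |Y|) ha hc (fun i k => (h4 i k).trans (le_abs_self Y))
    exact q
  have f5 : |A| ≤ M2 := form_le ha ha hHi
  have f6 : |G| ≤ M3 := form_le hc hc hGi
  have g1 := abs_le.1 f1
  have g2 := abs_le.1 f2
  have g3 := abs_le.1 f3
  have g5 := abs_le.1 f5
  have g6 := abs_le.1 f6
  -- A' ≤ A + e1 δ, G' ≤ G + e2 δ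
  have u1 : R ^ 2 * A' * G' ≤ R ^ 2 * (A + e1 * δ) * (G + e2 * δ) := by
    have q1 : 0 ≤ R ^ 2 := _root_.sq_nonneg _
    have q2 : A' ≤ A + e1 * δ := by linarith [g1.2]
    have q3 : G' ≤ G + e2 * δ := by linarith [g2.2]
    exact mul_le_mul (mul_le_mul_of_nonneg_left q2 q1) q3 hG0'
      (mul_nonneg q1 (hA0.trans q2))
  have u2 : R ^ 2 * (A + e1 * δ) * (G + e2 * δ) ≤
      R ^ 2 * A * G + δ * (R ^ 2 * (e1 * (M3 + e2) + e2 * M2)) := by
    have q1 : 0 ≤ R ^ 2 := _root_.sq_nonneg _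
    have q2 : A * (e2 * δ) ≤ M2 * (e2 * δ) :=
      mul_le_mul_of_nonneg_right g5.2 (mul_nonneg he20 hδ0.le)
    have q3 : (e1 * δ) * G ≤ (e1 * δ) * M3 :=
      mul_le_mul_of_nonneg_left g6.2 (mul_nonneg he10 hδ0.le)
    have q4 : (e1 * δ) * (e2 * δ) ≤ (e1 * δ) * e2 := by
      refine mul_le_mul_of_nonneg_left ?_ (mul_nonneg he10 hδ0.le)
      nlinarith
    have q5 : (A + e1 * δ) * (G + e2 * δ) ≤ A * G + δ * (e1 * (M3 + e2) + e2 * M2) := by
      nlinarith
    calc R ^ 2 * (A + e1 * δ) * (G + e2 * δ) = R ^ 2 * ((A + e1 * δ) * (G + e2 * δ)) := by ring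
      _ ≤ R ^ 2 * (A * G + δ * (e1 * (M3 + e2) + e2 * M2)) := mul_le_mul_of_nonneg_left q5 q1
      _ = _ := by ring
  have u3 : X ^ 2 ≤ X' ^ 2 + δ * (e3 * (2 * M1 + e3)) := by
    have q1 : |X' - X| ≤ e3 := f3.trans (by nlinarith)
    have q3 : X ^ 2 - X' ^ 2 = (X - X') * (2 * X + (X' - X)) := by ring
    have q4 : |X ^ 2 - X' ^ 2| ≤ e3 * δ * (2 * M1 + e3) := by
      rw [q3, abs_mul, abs_sub_comm X X']
      refine mul_le_mul f3 ?_ (abs_nonneg _) (mul_nonneg he30 hδ0.le)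
      refine (abs_add_le _ _).trans ?_
      rw [abs_mul, abs_two]
      linarith
    have q5 := (abs_le.1 q4).2
    linarith
  have u4 : δ * (e3 * (2 * M1 + e3)) + δ * (R ^ 2 * (e1 * (M3 + e2) + e2 * M2)) ≤ δ * Big := by
    rw [hBig]
    nlinarith
  linarith

end

end Pool.Agent.X288.CX
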