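import Pool.Agent.X288.CX.Mot

/-! Orders from sizes, and Euler factors in the form of determinants. -/

set_option autoImplicit false
set_option linter.unusedSectionVars false

namespace Pool.Agent.X288.CX

open Complex Filter Topology ComplexConjugate NumberField IsDedekindDomain Polynomial
open Pool.Agent.H921R2.TatePole (below deg nm_eq nm)

section
variable {κ : Type*} [Fintype κ] {x : κ → ℝ → ℝ} {m : κ → ℤ}
    (hx : ∀ k, Tendsto (x k) (𝓝[>] 0) (𝓝 (-(m k : ℝ))))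

include hx in
theorem gram_orders {G : (κ → ℝ) → ℝ}
    (h : ∀ C η : ℝ, 0 < η → ∀ᶠ ε : ℝ in 𝓝[>] 0, ∀ c : κ → ℝ, (∀ k, |c k| ≤ C) →
      (∑ k, c k * x k ε) ^ 2 ≤ G c + η) (c : κ → ℝ) :
    (∑ k, c k * m k) ^ 2 ≤ G c := by
  refine le_of_forall_pos_le_add fun η hη => ?_
  have hlim : Tendsto (fun ε : ℝ => (∑ k, c k * x k ε) ^ 2) (𝓝[>] 0)
      (𝓝 ((∑ k, c k * (-(m k : ℝ))) ^ 2)) :=
    (tendsto_finsetSum _ fun k _ => ((hx k).const_mul (c k))).pow 2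
  have e1 : (∑ k, c k * (-(m k : ℝ))) ^ 2 = (∑ k, c k * m k) ^ 2 := by
    have : ∑ k, c k * (-(m k : ℝ)) = -∑ k, c k * m k := by
      rw [← Finset.sum_neg_distrib]
      exact Finset.sum_congr rfl fun k _ => by ring
    rw [this, neg_sq]
  rw [e1] at hlim
  refine le_of_tendsto hlim ?_
  filter_upwards [h (∑ k, |c k|) η hη] with ε h4
  exact h4 c fun k => Finset.single_le_sum (f := fun k => |c k|) (fun k _ => abs_nonneg _)
    (Finset.mem_univ k)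

include hx in
theorem sq_orders {β : ℝ} (h : ∀ η : ℝ, 0 < η → ∀ᶠ ε : ℝ in 𝓝[>] 0, ∑ k, x k ε ^ 2 ≤ β + η) :
    ∑ k, (m k : ℝ) ^ 2 ≤ β := by
  refine le_of_forall_pos_le_add fun η hη => ?_
  have hlim : Tendsto (fun ε : ℝ => ∑ k, x k ε ^ 2) (𝓝[>] 0) (𝓝 (∑ k, (-(m k : ℝ)) ^ 2)) :=
    tendsto_finsetSum _ fun k _ => (hx k).pow 2
  simp only [neg_sq] at hlim
  exact le_of_tendsto hlim (h η hη)

omit [Fintype κ] in
include hx in
theorem abs_orders {k : κ} {A : ℝ} (h : ∀ᶠ ε : ℝ in 𝓝[>] 0, |x k ε| ≤ A) : |(m k : ℝ)| ≤ A := by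
  have h5 : |(-(m k : ℝ))| ≤ A := le_of_tendsto (hx k).abs h
  rwa [abs_neg] at h5

end

/-- the order of a meromorphic continuation -/
theorem order_exists {L Λ : ℂ → ℂ} {s₀ : ℂ} (hΛ : MeromorphicAt Λ s₀)
    (hL : ∀ᶠ s in 𝓝 s₀, s₀.re < s.re → Λ s = L s)
    (hne : ∀ᶠ ε : ℝ in 𝓝[>] 0, L (s₀ + ε) ≠ 0) :
    ∃ m : ℤ, meromorphicOrderAt Λ s₀ = m ∧
      Tendsto (fun ε : ℝ => Real.log ‖L (s₀ + ε)‖ / Real.log (1 / ε)) (𝓝[>] 0) (𝓝 (-(m : ℝ))) := by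
  have hev : ∀ᶠ ε : ℝ in 𝓝[>] 0, Λ (s₀ + ε) = L (s₀ + ε) := by
    have h4 := (Pool.Agent.H341R2.path_tendsto' s₀).eventually hL
    filter_upwards [h4, self_mem_nhdsWithin] with ε h5 h6
    have hε : (0 : ℝ) < ε := h6
    refine h5 ?_
    simp [hε]
  have hne' : ∀ᶠ ε : ℝ in 𝓝[>] 0, Λ (s₀ + ε) ≠ 0 := by
    filter_upwards [hev, hne] with ε h5 h6
    rw [h5]
    exact h6
  obtain ⟨m, hm1, hm2⟩ := W540.BE.order_of_size hΛ hne'
  refine ⟨m, hm1, hm2.congr' ?_⟩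
  filter_upwards [hev] with ε h5
  rw [h5]

/-- all primes of `ℚ` have degree one -/
theorem deg_QQ (v : HeightOneSpectrum (𝓞 ℚ)) : deg v = 1 := by
  obtain ⟨h1, h2, h3⟩ := nm_eq v
  have hdvd : v.asIdeal ∣ Ideal.span {(((below v : ℕ) : 𝓞 ℚ))} := by
    rw [Ideal.dvd_iff_le, Ideal.span_singleton_le_iff_mem]
    exact h3
  have h4 : Ideal.absNorm v.asIdeal ∣ Ideal.absNorm (Ideal.span {(((below v : ℕ) : 𝓞 ℚ))}) :=
    map_dvd Ideal.absNorm hdvd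
  rw [Ideal.absNorm_span_natCast, RingOfIntegers.rank, Module.finrank_self] at h4
  have h5 : (below v : ℕ) ^ deg v ∣ (below v : ℕ) ^ 1 := by
    rw [← h1]
    exact h4
  have h6 := (Nat.pow_dvd_pow_iff_le_right (below v).2.one_lt).1 h5
  omega

theorem below_QQ (v : HeightOneSpectrum (𝓞 ℚ)) : (below v : ℕ) = Ideal.absNorm v.asIdeal := by
  have h := (nm_eq v).1
  rw [deg_QQ v, pow_one] at h
  exact h.symm

/-- the product of two factors -/
theorem det_pair {n : ℕ} (A : Module.End ℂ (Fin n → ℂ)) (x y : ℂ) :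
    LinearMap.det (1 - x • A) * LinearMap.det (1 - y • A) =
      LinearMap.det (1 - (x + y) • A + (x * y) • A ^ 2) := by
  rw [← map_mul]
  congr 1
  rw [sub_mul, mul_sub, mul_sub, one_mul, one_mul, mul_one, smul_mul_smul_comm, add_smul, pow_two]
  abel

end Pool.Agent.X288.CX
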