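import Pool.Agent.X288.CX.Tate

/-! Artin twists of a motive with a known part: the inequalities for the rest. -/

set_option autoImplicit false
set_option linter.unusedSectionVars false

namespace Pool.Agent.X288.CX

open Complex Filter Topology ComplexConjugate NumberField IsDedekindDomain Polynomial
  Pool.Agent.W401.Cheb Pool.Agent.W540.BE Pool.Agent.W353.L1 Asymptotics
open Pool.Agent.H341R2 (lam lam_tendsto sysK)
open Pool.Agent.W353.TP (LL LL_tendsto lam0_sub lam0_isBigO)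
open Pool.Agent.X288.AR (RZ hd has_hd hd_self hd_ne exists_U prime0 EP_abs EP_cs)

section
variable {F : Type} [Field F] [NumberField F]
variable (U : Subgroup (GK F)) [U.Normal] [Finite (GK F ⧸ U)] {κ : Type*} {n : κ → ℕ}
    (ρ : ∀ k, Representation ℂ (GK F) (Fin (n k) → ℂ)) (hρ : ∀ k, ∀ u ∈ U, ρ k u = 1)

theorem avC_inv (k : κ) :
    avC U (chF U ρ hρ k).f = (Module.finrank ℂ (ρ k).invariants : ℂ) := by
  classical
  let _ : Fintype (GK F ⧸ U) := Fintype.ofFinite _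
  have hne : (Nat.card (GK F ⧸ U) : ℂ) ≠ 0 := by
    have : Nat.card (GK F ⧸ U) ≠ 0 := Nat.card_pos.ne'
    exact_mod_cast this
  let _ : Invertible (Nat.card (GK F ⧸ U) : ℂ) := invertibleOfNonzero hne
  have h1 := Representation.card_inv_mul_sum_char_eq_finrank (qrep U (ρ k) (hρ k))
  have h2 : (qrep U (ρ k) (hρ k)).invariants = (ρ k).invariants := by
    ext x
    constructor
    · intro h g
      exact h (QuotientGroup.mk g)
    · intro h g
      obtain ⟨g, rfl⟩ := QuotientGroup.mk_surjective g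
      exact h g
  rw [h2] at h1
  rw [← h1]
  unfold avC
  rw [finsum_eq_sum_of_fintype]
  congr 1
  rw [← Equiv.sum_comp (Equiv.inv (GK F ⧸ U))]
  refine Finset.sum_congr rfl fun q _ => ?_
  change (qrep U (ρ k) (hρ k)).character (q⁻¹)⁻¹ = _
  rw [inv_inv]

/-- the multiplicity of the trivial representation, at the height zero -/
noncomputable def ev0 {G : Type*} [Group G] {κ : Type*} {n : κ → ℕ}
    (ρ : ∀ k, Representation ℂ G (Fin (n k) → ℂ)) (τ : κ → ℝ) (k : κ) : ℝ :=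
  open scoped Classical in
  if τ k = 0 then (Module.finrank ℂ (ρ k).invariants : ℝ) else 0

theorem has_ev0 (hU : IsOpen (U : Set (GK F)))
    (σ : HeightOneSpectrum (𝓞 F) → GK F) (hσ : ∀ v, IsFrob v (σ v)) (τ : κ → ℝ) (k : κ) :
    Has (fun v => (RZ U ρ hρ σ k (τ k) v).re) (ev0 ρ τ k) := by
  classical
  refine ((chF U ρ hρ k).has hU σ hσ (τ k)).congr (fun v => rfl) ?_
  rw [avC_inv, Complex.natCast_re]
  unfold ev0
  split_ifs <;> rfl

end

section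
variable {F : Type} [Field F] [NumberField F] {b : ℕ} (w : ℝ)
    (α : HeightOneSpectrum (𝓞 F) → Fin b → ℂ)
    (hα : ∀ᶠ v in cofinite, ∀ j, ‖α v j‖ = (nm F v : ℝ) ^ w)
    (U : Subgroup (GK F)) [U.Normal] (hU : IsOpen (U : Set (GK F))) [Finite (GK F ⧸ U)]
    {κ : Type*} [Fintype κ] {n : κ → ℕ}
    (ρ : ∀ k, Representation ℂ (GK F) (Fin (n k) → ℂ))
    (hρ : ∀ k, ∀ u ∈ U, ρ k u = 1)
    (hopen : ∀ k, ∃ U : Subgroup (GK F), IsOpen (U : Set (GK F)) ∧ ∀ u ∈ U, ρ k u = 1)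
    (τ : κ → ℝ) (B : κ → HeightOneSpectrum (𝓞 F) → ℂ[X])
    (hB : ∀ k, ∀ᶠ v in cofinite, ∀ σ : GK F, IsFrob v σ → ∀ z : ℂ,
      (B k v).eval z = ∏ j, LinearMap.det (1 - (α v j * z) • ρ k σ⁻¹))
    (hB0 : ∀ k, ∀ v, (B k v).eval (((nm F v : ℕ) : ℂ) ^ (-(w + 1 + τ k * I : ℂ))) ≠ 0)
    (L : κ → ℂ → ℂ)
    (hL : ∀ k, ∀ s : ℂ, w + 1 < s.re →
      L k s = ∏' v, ((B k v).eval (((nm F v : ℕ) : ℂ) ^ (-s)))⁻¹)
    (t : HeightOneSpectrum (𝓞 F) → ℂ) {b' : ℝ} (ht : ∀ v, ‖t v‖ ≤ b') (R : ℝ)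
    (htt : ∀ᶠ v in cofinite, trc w α v = t v + R)

include hα hU hB hB0 hL ht htt in
theorem shift_corr (σ : HeightOneSpectrum (𝓞 F) → GK F) (hσ : ∀ v, IsFrob v (σ v)) (k : κ) :
    Tendsto (fun ε : ℝ => (EP (nm F) ε fun v => (t v * RZ U ρ hρ σ k (τ k) v).re) / lam ε -
      (xs w τ L k ε - R * ev0 ρ τ k)) (𝓝[>] 0) (𝓝 0) := by
  have h1 := xc_corr w α hα U ρ hρ τ B hB hB0 L hL σ hσ k
  obtain ⟨⟨B1, hB1⟩, h2⟩ := has_ev0 U ρ hρ hU σ hσ τ k
  have h2' := (h2.const_mul R).sub_const (R * ev0 ρ τ k)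
  rw [sub_self] at h2'
  set φ : HeightOneSpectrum (𝓞 F) → ℝ := fun v =>
    (t v * RZ U ρ hρ σ k (τ k) v).re + R * (RZ U ρ hρ σ k (τ k) v).re -
      (trc w α v * RZ U ρ hρ σ k (τ k) v).re with hφ
  have hfin : {v | φ v ≠ 0}.Finite := by
    refine (Filter.eventually_cofinite.1 htt).subset fun v hv => ?_
    rw [Set.mem_ofPred_eq] at hv ⊢
    intro h
    apply hv
    rw [hφ]
    simp only
    rw [h, add_mul, Complex.add_re, Complex.re_ofReal_mul, sub_self]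
  obtain ⟨C, hC⟩ := EP_fin hfin
  have h3 : Tendsto (fun ε : ℝ => EP (nm F) ε φ / lam ε) (𝓝[>] 0) (𝓝 0) := by
    refine squeeze_zero_norm' (a := fun ε => C / lam ε) ?_
      (tendsto_const_nhds.div_atTop lam_tendsto)
    filter_upwards [self_mem_nhdsWithin, lam_tendsto.eventually_gt_atTop 0] with ε h4 h5
    rw [Real.norm_eq_abs, abs_div, abs_of_pos h5]
    exact div_le_div_of_nonneg_right (hC ε h4) h5.le
  have h4 := (h3.add h1).sub h2'
  rw [add_zero, sub_zero] at h4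
  refine h4.congr' ?_
  filter_upwards [self_mem_nhdsWithin, lam_tendsto.eventually_gt_atTop 0] with ε h5 h6
  have hε : (0 : ℝ) < ε := h5
  have hN := normSys (F := F)
  have hb0 : ∀ v, |(t v * RZ U ρ hρ σ k (τ k) v).re| ≤ b' * n k :=
    mul_boundX t ht U ρ hρ σ k (τ k)
  have hb1 : ∀ v, |R * (RZ U ρ hρ σ k (τ k) v).re| ≤ |R| * B1 := fun v => by
    rw [abs_mul]
    exact mul_le_mul_of_nonneg_left (hB1 v) (abs_nonneg _)
  have hb2 : ∀ v, |(trc w α v * RZ U ρ hρ σ k (τ k) v).re| ≤ b * n k :=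
    mul_bound w α U ρ hρ k (τ k) σ
  have e1 : EP (nm F) ε φ = (EP (nm F) ε fun v => (t v * RZ U ρ hρ σ k (τ k) v).re) +
      R * (EP (nm F) ε fun v => (RZ U ρ hρ σ k (τ k) v).re) -
      EP (nm F) ε fun v => (trc w α v * RZ U ρ hρ σ k (τ k) v).re := by
    have e2 : φ = fun v => ((t v * RZ U ρ hρ σ k (τ k) v).re +
        R * (RZ U ρ hρ σ k (τ k) v).re) +
        (-1) * (trc w α v * RZ U ρ hρ σ k (τ k) v).re := by
      funext v
      rw [hφ]
      ring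
    rw [e2, EP_add hN hε (B := b' * n k + |R| * B1) (B' := b * n k) (fun v =>
        (abs_add_le _ _).trans (add_le_add (hb0 v) (hb1 v))) (fun v => by
        rw [abs_mul, abs_neg, abs_one, one_mul]
        exact hb2 v), EP_add hN hε hb0 hb1, EP_const_mul, EP_const_mul]
    ring
  rw [e1]
  field_simp
  ring

include hα hopen hB hB0 hL ht htt in
theorem shift_gram {β : ℝ} (hβ : 0 ≤ β)
    (hsec : ∀ δ : ℝ, 0 < δ → ∃ C : ℝ, ∀ᶠ ε : ℝ in 𝓝[>] 0,
      (EP (nm F) ε fun v => ‖t v‖ ^ 2) ≤ (β + δ) * LL ε + C)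
    (C : ℝ) {η : ℝ} (hη : 0 < η) :
    ∀ᶠ ε : ℝ in 𝓝[>] 0, ∀ c : κ → ℝ, (∀ k, |c k| ≤ C) →
      (∑ k, c k * (xs w τ L k ε - R * ev0 ρ τ k)) ^ 2 ≤
        β * (∑ k, ∑ l, c k * c l * hd ρ τ k l) + η := by
  obtain ⟨U, hUn, hU, hρ⟩ := exists_U ρ hopen
  have hfin : Finite (GK F ⧸ U) := Subgroup.quotient_finite_of_isOpen U hU
  choose σ hσ using exists_isFrob (F := F)
  set M : ℝ := ∑ k, ∑ l, C * C * |hd ρ τ k l| with hM
  have hM0 : 0 ≤ M := Finset.sum_nonneg fun k _ => Finset.sum_nonneg fun l _ =>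
    mul_nonneg (mul_self_nonneg C) (abs_nonneg _)
  set δ : ℝ := η / (2 * (M + 1)) with hδ
  have hδ0 : 0 < δ := by positivity
  have h := gramX t ht U hU ρ hρ τ σ hσ (fun k ε => xs w τ L k ε - R * ev0 ρ τ k)
    (shift_corr w α hα U hU ρ hρ τ B hB hB0 L hL t ht R htt σ hσ)
    (add_nonneg hβ hδ0.le) (hsec δ hδ0) C (η := η / 2) (by positivity)
  filter_upwards [h] with ε h1 c hc
  refine (h1 c hc).trans ?_
  have h2 : ∑ k, ∑ l, c k * c l * hd ρ τ k l ≤ M := by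
    refine Finset.sum_le_sum fun k _ => Finset.sum_le_sum fun l _ => ?_
    refine (le_abs_self _).trans ?_
    rw [abs_mul, abs_mul]
    refine mul_le_mul_of_nonneg_right ?_ (abs_nonneg _)
    exact mul_le_mul (hc k) (hc l) (abs_nonneg _) ((abs_nonneg _).trans (hc k))
  have h3 : δ * ∑ k, ∑ l, c k * c l * hd ρ τ k l ≤ η / 2 := by
    refine (mul_le_mul_of_nonneg_left h2 hδ0.le).trans ?_
    rw [hδ, div_mul_eq_mul_div, div_le_iff₀ (by positivity)]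
    nlinarith
  rw [add_mul]
  linarith

include hα hopen hB hB0 hL ht htt in
theorem shift_disj {β : ℝ} (hβ : 0 ≤ β)
    (hsec : ∀ δ : ℝ, 0 < δ → ∃ C : ℝ, ∀ᶠ ε : ℝ in 𝓝[>] 0,
      (EP (nm F) ε fun v => ‖t v‖ ^ 2) ≤ (β + δ) * LL ε + C)
    (hirr : ∀ k, (ρ k).IsIrreducible)
    (hne : ∀ k l, k ≠ l → τ k = τ l → IsEmpty ((ρ k).Equiv (ρ l))) {η : ℝ} (hη : 0 < η) :
    ∀ᶠ ε : ℝ in 𝓝[>] 0, ∑ k, (xs w τ L k ε - R * ev0 ρ τ k) ^ 2 ≤ β + η := by
  obtain ⟨U, hUn, hU, hρ⟩ := exists_U ρ hopen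
  have hfin : Finite (GK F ⧸ U) := Subgroup.quotient_finite_of_isOpen U hU
  choose σ hσ using exists_isFrob (F := F)
  have h := disjX t ht U hU ρ hρ τ σ hσ (fun k ε => xs w τ L k ε - R * ev0 ρ τ k)
    (shift_corr w α hα U hU ρ hρ τ B hB hB0 L hL t ht R htt σ hσ)
    (β := β + η / 2) (by positivity) (hsec (η / 2) (by positivity)) hirr hne (η := η / 2)
    (by positivity)
  filter_upwards [h] with ε h1
  linarith

end

end Pool.Agent.X288.CX
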