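import Pool.Agent.X288.CX.Bil
import Pool.Agent.X288.CX.Shift
import Pool.Agent.X288.CX.MotThm

/-! Tensor products of a motive with tempered cuspidal representations and Artin representations. -/

set_option autoImplicit false
set_option linter.unusedSectionVars false

namespace Pool.Agent.X288.CX

open Complex Filter Topology ComplexConjugate NumberField IsDedekindDomain Polynomial
  Pool.Agent.W401.Cheb Pool.Agent.W540.BE Pool.Agent.W353.L1 Asymptotics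
open Pool.Agent.H341R2 (lam lam_tendsto sysK)
open Pool.Agent.W353.TP (LL LL_tendsto lam0_sub lam0_isBigO)
open Pool.Agent.X288.AR (RZ hd has_hd hd_self hd_ne exists_U prime0 EP_abs EP_cs)

section
variable {F : Type} [Field F] [NumberField F] {R m : ℕ}

/-- the eigenvalues on a tensor product -/
noncomputable def tn (α : HeightOneSpectrum (𝓞 F) → Fin R → ℂ)
    (β : HeightOneSpectrum (𝓞 F) → Fin m → ℂ) (v : HeightOneSpectrum (𝓞 F))
    (j : Fin (R * m)) : ℂ :=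
  α v (finProdFinEquiv.symm j).1 * β v (finProdFinEquiv.symm j).2

variable {α : HeightOneSpectrum (𝓞 F) → Fin R → ℂ} {β : HeightOneSpectrum (𝓞 F) → Fin m → ℂ}
  {w : ℝ} (hα : ∀ᶠ v in cofinite, ∀ j, ‖α v j‖ = (nm F v : ℝ) ^ w)
  (hβ : ∀ᶠ v in cofinite, ∀ j, ‖β v j‖ = 1)

include hα hβ in
theorem norm_tn : ∀ᶠ v in cofinite, ∀ j, ‖tn α β v j‖ = (nm F v : ℝ) ^ w := by
  filter_upwards [hα, hβ] with v h1 h2 j
  unfold tn
  rw [norm_mul, h1, h2, mul_one]

include hα hβ in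
theorem trc_tn : ∀ᶠ v in cofinite, trc w (tn α β) v = trc w α v * trc 0 β v := by
  filter_upwards [hα, hβ, norm_tn hα hβ] with v h1 h2 h3
  unfold trc
  rw [if_pos h1, if_pos h3, if_pos (fun j => by rw [h2 j, Real.rpow_zero])]
  have e1 : ∑ j, tn α β v j = (∑ i, α v i) * ∑ j, β v j := by
    unfold tn
    rw [sum_fin (g := fun (i : Fin R) (j : Fin m) => α v i * β v j), Finset.sum_mul_sum]
  rw [e1, Complex.ofReal_zero, neg_zero, Complex.cpow_zero]
  ring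

include hβ in
theorem trc_conj : ∀ᶠ v in cofinite,
    trc 0 (fun v j => conj (β v j)) v = conj (trc 0 β v) := by
  filter_upwards [hβ] with v h2
  unfold trc
  rw [if_pos (fun j => by rw [RCLike.norm_conj, h2 j, Real.rpow_zero]),
    if_pos (fun j => by rw [h2 j, Real.rpow_zero]), Complex.ofReal_zero, neg_zero,
    Complex.cpow_zero, mul_one, mul_one, map_sum]

end

section
variable {F : Type} [Field F] [NumberField F]

/-- the same correlation for functions which agree at almost all primes -/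
theorem corr_congr {φ ψ : HeightOneSpectrum (𝓞 F) → ℝ} {b B : ℝ} (hφ : ∀ v, |φ v| ≤ b)
    (hψ : ∀ v, |ψ v| ≤ B) (h : ∀ᶠ v in cofinite, φ v = ψ v) :
    Tendsto (fun ε : ℝ => (EP (nm F) ε φ) / lam ε - (EP (nm F) ε ψ) / lam ε) (𝓝[>] 0) (𝓝 0) := by
  have hN := normSys (F := F)
  have hfin : {v | φ v + (-1) * ψ v ≠ 0}.Finite := by
    refine (Filter.eventually_cofinite.1 h).subset fun v hv => ?_
    rw [Set.mem_ofPred_eq] at hv ⊢
    intro h1
    apply hv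
    rw [h1]
    ring
  obtain ⟨C, hC⟩ := EP_fin hfin
  refine squeeze_zero_norm' (a := fun ε => C / lam ε) ?_
    (tendsto_const_nhds.div_atTop lam_tendsto)
  filter_upwards [self_mem_nhdsWithin, lam_tendsto.eventually_gt_atTop 0] with ε h4 h5
  have hε : (0 : ℝ) < ε := h4
  have h6 := hC ε hε
  rw [EP_add hN hε (B := b) (B' := B) hφ (fun v => by
    rw [abs_mul, abs_neg, abs_one, one_mul]
    exact hψ v), EP_const_mul] at h6
  rw [Real.norm_eq_abs, ← sub_div, abs_div, abs_of_pos h5]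
  refine div_le_div_of_nonneg_right ?_ h5.le
  have e : EP (nm F) ε φ - EP (nm F) ε ψ = EP (nm F) ε φ + -1 * EP (nm F) ε ψ := by ring
  rw [e]
  exact h6

theorem det_one_sub_smul_one (c : ℂ) :
    LinearMap.det (1 - c • (1 : (Fin 1 → ℂ) →ₗ[ℂ] (Fin 1 → ℂ))) = 1 - c := by
  have e : (1 - c • (1 : (Fin 1 → ℂ) →ₗ[ℂ] (Fin 1 → ℂ))) =
      (1 - c) • (1 : (Fin 1 → ℂ) →ₗ[ℂ] (Fin 1 → ℂ)) := by
    refine LinearMap.ext fun x => ?_
    simp only [LinearMap.sub_apply, LinearMap.smul_apply, Module.End.one_apply]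
    rw [sub_smul, one_smul]
  rw [e, LinearMap.det_smul, map_one, mul_one, Module.finrank_fin_fun, pow_one]

/-- **Rankin-Selberg**: the correlation of the traces from the order of the Euler product at one -/
theorem rs_corr {m m' : ℕ} {β : HeightOneSpectrum (𝓞 F) → Fin m → ℂ}
    {β' : HeightOneSpectrum (𝓞 F) → Fin m' → ℂ}
    (hβ : ∀ᶠ v in cofinite, ∀ j, ‖β v j‖ = 1) (hβ' : ∀ᶠ v in cofinite, ∀ j, ‖β' v j‖ = 1)
    (B : HeightOneSpectrum (𝓞 F) → ℂ[X])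
    (hB : ∀ᶠ v in cofinite, ∀ z : ℂ,
      (B v).eval z = ∏ i, ∏ j, (1 - β v i * conj (β' v j) * z))
    (hB0 : ∀ v, (B v).eval (((nm F v : ℕ) : ℂ) ^ (-(1 : ℂ))) ≠ 0)
    {Λ : ℂ → ℂ} (hΛ : MeromorphicAt Λ 1) (hL : ∀ᶠ s in 𝓝 (1 : ℂ), 1 < s.re →
      Λ s = ∏' v, ((B v).eval (((nm F v : ℕ) : ℂ) ^ (-s)))⁻¹)
    {r : ℤ} (hr : meromorphicOrderAt Λ 1 = r) :
    Tendsto (fun ε : ℝ => (EP (nm F) ε fun v => (trc 0 β v * conj (trc 0 β' v)).re) / lam ε)
      (𝓝[>] 0) (𝓝 (-(r : ℝ))) := by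
  set U : Subgroup (GK F) := ⊤ with hU
  have hfin : Finite (GK F ⧸ U) := by
    rw [hU]
    infer_instance
  set ρ : Representation ℂ (GK F) (Fin 1 → ℂ) := Representation.trivial ℂ (GK F) (Fin 1 → ℂ)
    with hρ
  have hρ1 : ∀ g, ρ g = 1 := fun g => rfl
  choose σ hσ using exists_isFrob (F := F)
  have hα0 : ∀ᶠ v in cofinite, ∀ j, ‖β v j‖ = (nm F v : ℝ) ^ (0 : ℝ) :=
    hβ.mono fun v h j => by rw [h j, Real.rpow_zero]
  have hβc : ∀ᶠ v in cofinite, ∀ j, ‖(fun v j => conj (β' v j)) v j‖ = 1 :=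
    hβ'.mono fun v h j => by
      simp only
      rw [RCLike.norm_conj, h j]
  have h1 := size_corrC (0 : ℝ) (tn β fun v j => conj (β' v j)) (norm_tn hα0 hβc) U ρ
    (fun u _ => hρ1 u) 0 B (by
      filter_upwards [hB] with v hv σ' _ z
      rw [hv]
      simp only [hρ1, det_one_sub_smul_one]
      unfold tn
      exact (prod_fin (g := fun (i : Fin m) (j : Fin m') =>
        (1 - β v i * conj (β' v j) * z))).symm) (by
      intro v
      have e : (-(((0 : ℝ) : ℂ) + 1 + ((0 : ℝ) : ℂ) * I) : ℂ) = -1 := by simp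
      rw [e]
      exact hB0 v) (fun s => ∏' v, ((B v).eval (((nm F v : ℕ) : ℂ) ^ (-s)))⁻¹)
    (fun s _ => rfl) σ hσ
  have e0 : (((0 : ℝ) : ℂ) + 1 + ((0 : ℝ) : ℂ) * I) = 1 := by simp
  rw [e0] at h1
  obtain ⟨r', hr', hlim⟩ := order_exists (L := fun s => ∏' v,
    ((B v).eval (((nm F v : ℕ) : ℂ) ^ (-s)))⁻¹) hΛ (by
      rw [Complex.one_re]
      exact hL) h1.1
  have hrr : r' = r := by
    rw [hr] at hr'
    exact_mod_cast hr'.symm
  subst hrr
  have h2 := h1.2.add hlim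
  rw [zero_add] at h2
  have hb1 : ∀ v, |(trc 0 (tn β fun v j => conj (β' v j)) v *
      (ρ.character (σ v)⁻¹ * zz 0 v)).re| ≤ (m * m' : ℕ) := by
    intro v
    refine (Complex.abs_re_le_norm _).trans ?_
    have e : ρ.character (σ v)⁻¹ = 1 := by
      unfold Representation.character
      rw [hρ1, LinearMap.trace_one, Module.finrank_fin_fun, Nat.cast_one]
    rw [norm_mul, norm_mul, norm_zz, e, norm_one, mul_one, mul_one]
    exact norm_trc_le _ _ v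
  have hb2 : ∀ v, |(trc 0 β v * conj (trc 0 β' v)).re| ≤ m * m' := by
    intro v
    refine (Complex.abs_re_le_norm _).trans ?_
    rw [norm_mul, RCLike.norm_conj]
    exact mul_le_mul (norm_trc_le _ _ v) (norm_trc_le _ _ v) (norm_nonneg _) (Nat.cast_nonneg _)
  have h3 := corr_congr hb2 hb1 (by
    filter_upwards [trc_tn hα0 hβc, trc_conj hβ'] with v h4 h5
    have e : ρ.character (σ v)⁻¹ = 1 := by
      unfold Representation.character
      rw [hρ1, LinearMap.trace_one, Module.finrank_fin_fun, Nat.cast_one]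
    have e2 : zz 0 v = 1 := by
      unfold zz
      simp
    rw [e, e2, mul_one, mul_one, h4, h5])
  have h4 := h3.add h2
  rw [zero_add] at h4
  refine h4.congr fun ε => ?_
  ring

end

section
variable {F : Type} [Field F] [NumberField F] {R : ℕ} (w : ℝ)
    (α : HeightOneSpectrum (𝓞 F) → Fin R → ℂ)
    (hα : ∀ᶠ v in cofinite, ∀ j, ‖α v j‖ = (nm F v : ℝ) ^ w)
    {ι : Type*} [Fintype ι] {m : ι → ℕ} (β : ∀ i, HeightOneSpectrum (𝓞 F) → Fin (m i) → ℂ)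
    (hβ : ∀ i, ∀ᶠ v in cofinite, ∀ j, ‖β i v j‖ = 1)
    (h : ι → ι → ℝ) (hrs : ∀ i j, Tendsto (fun ε : ℝ =>
      (EP (nm F) ε fun v => (trc 0 (β i) v * conj (trc 0 (β j) v)).re) / lam ε) (𝓝[>] 0)
      (𝓝 (h i j)))
    {κ : Type*} [Fintype κ] {n : κ → ℕ}
    (ρ : ∀ k, Representation ℂ (GK F) (Fin (n k) → ℂ))
    (hopen : ∀ k, ∃ U : Subgroup (GK F), IsOpen (U : Set (GK F)) ∧ ∀ u ∈ U, ρ k u = 1)
    (τ : κ → ℝ) (B : ι → κ → HeightOneSpectrum (𝓞 F) → ℂ[X])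
    (hB : ∀ i k, ∀ᶠ v in cofinite, ∀ σ : GK F, IsFrob v σ → ∀ z : ℂ,
      (B i k v).eval z = ∏ j, LinearMap.det (1 - (tn α (β i) v j * z) • ρ k σ⁻¹))
    (hB0 : ∀ i k, ∀ v, (B i k v).eval (((nm F v : ℕ) : ℂ) ^ (-(w + 1 + τ k * I : ℂ))) ≠ 0)
    (L : ι → κ → ℂ → ℂ)
    (hL : ∀ i k, ∀ s : ℂ, w + 1 < s.re →
      L i k s = ∏' v, ((B i k v).eval (((nm F v : ℕ) : ℂ) ^ (-s)))⁻¹)

include hα hβ hopen hB hB0 hL hrs in
/-- **The bilinear inequality.** -/
theorem cusp_bilin (C : ℝ) {η : ℝ} (hη : 0 < η) :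
    ∀ᶠ ε : ℝ in 𝓝[>] 0, ∀ (a : ι → ℝ) (c : κ → ℝ), (∀ i, |a i| ≤ C) → (∀ k, |c k| ≤ C) →
      (∑ i, ∑ k, a i * c k * xs w τ (L i) k ε) ^ 2 ≤
        (R : ℝ) ^ 2 * (∑ i, ∑ j, a i * a j * h i j) *
          (∑ k, ∑ l, c k * c l * hd ρ τ k l) + η := by
  classical
  obtain ⟨U, hUn, hU, hρ⟩ := exists_U ρ hopen
  have hfin : Finite (GK F ⧸ U) := Subgroup.quotient_finite_of_isOpen U hU
  choose σ hσ using exists_isFrob (F := F)
  obtain ⟨p0⟩ := prime0 (F := F)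
  have hnt : ∀ i, ∀ᶠ v in cofinite, ∀ j, ‖tn α (β i) v j‖ = (nm F v : ℝ) ^ w :=
    fun i => norm_tn hα (hβ i)
  have hbd : ∀ i, ∃ Y : ℝ, ∀ k, ∀ᶠ ε : ℝ in 𝓝[>] 0, |xs w τ (L i) k ε| ≤ Y := fun i =>
    xc_bdd w (tn α (β i)) (hnt i) U hU ρ hρ τ (B i) (hB i) (hB0 i) (L i) (hL i)
  choose Y hY using hbd
  refine bilin (normSys (F := F)) p0 (t := trc w α) (R := R) (norm_trc_le w α)
    (fun i => trc 0 (β i)) (fun i => (m i : ℝ)) (fun i => norm_trc_le 0 (β i))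
    (fun k => RZ U ρ hρ σ k (τ k)) (fun k => (n k : ℝ))
    (fun k v => RZ_bound U ρ hρ k (τ k) σ v) h hrs (hd ρ τ)
    (fun k l => (has_hd U ρ hρ hU σ hσ τ k l).2) (fun i k => xs w τ (L i) k) (fun i k => ?_)
    (Y := ∑ i, |Y i|) (fun i k => (hY i k).mono fun ε hε => hε.trans
      ((le_abs_self _).trans (Finset.single_le_sum (f := fun i => |Y i|)
        (fun _ _ => abs_nonneg _) (Finset.mem_univ i)))) C hη
  have h1 := xc_corr w (tn α (β i)) (hnt i) U ρ hρ τ (B i) (hB i) (hB0 i) (L i) (hL i) σ hσ k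
  have hb1 : ∀ v, |(trc w (tn α (β i)) v * RZ U ρ hρ σ k (τ k) v).re| ≤ (R * m i : ℕ) * n k :=
    mul_bound w (tn α (β i)) U ρ hρ k (τ k) σ
  have hb2 : ∀ v, |(trc w α v * trc 0 (β i) v * RZ U ρ hρ σ k (τ k) v).re| ≤
      R * m i * n k := by
    intro v
    refine (Complex.abs_re_le_norm _).trans ?_
    rw [norm_mul, norm_mul]
    exact mul_le_mul (mul_le_mul (norm_trc_le _ _ v) (norm_trc_le _ _ v) (norm_nonneg _)
      (Nat.cast_nonneg _)) (RZ_bound U ρ hρ k (τ k) σ v) (norm_nonneg _) (by positivity)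
  have h2 := corr_congr hb2 hb1 (by
    filter_upwards [trc_tn hα (hβ i)] with v h3
    rw [h3])
  have h4 := h2.add h1
  rw [add_zero] at h4
  refine h4.congr fun ε => ?_
  ring

end

end Pool.Agent.X288.CX
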