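import Pool.Agent.X288.CX.Cusp

/-! The strict inequality, and the consequences of the bilinear inequality. -/

set_option autoImplicit false
set_option linter.unusedSectionVars false

namespace Pool.Agent.X288.CX

open Complex Filter Topology ComplexConjugate NumberField IsDedekindDomain Polynomial
  Pool.Agent.W401.Cheb Pool.Agent.W540.BE Pool.Agent.W353.L1 Asymptotics
open Pool.Agent.H341R2 (lam lam_tendsto sysK)
open Pool.Agent.W353.TP (LL)
open Pool.Agent.X288.AR (RZ hd has_hd hd_self hd_ne exists_U prime0 EP_abs EP_cs)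

section
variable {F : Type} [Field F] [NumberField F] {b : ℝ}
    (t : HeightOneSpectrum (𝓞 F) → ℂ) (ht : ∀ v, ‖t v‖ ≤ b)
    (U : Subgroup (GK F)) [U.Normal] (hU : IsOpen (U : Set (GK F))) [Finite (GK F ⧸ U)]
    {κ : Type*} [Fintype κ] {n : κ → ℕ}
    (ρ : ∀ k, Representation ℂ (GK F) (Fin (n k) → ℂ)) (hρ : ∀ k, ∀ u ∈ U, ρ k u = 1)
    (τ : κ → ℝ) (σ : HeightOneSpectrum (𝓞 F) → GK F) (hσ : ∀ v, IsFrob v (σ v))
    (x : κ → ℝ → ℝ) (hx : ∀ k, Tendsto (fun ε : ℝ =>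
      (EP (nm F) ε fun v => (t v * RZ U ρ hρ σ k (τ k) v).re) / lam ε - x k ε) (𝓝[>] 0) (𝓝 0))

include ht hU hσ hx in
/-- **The strict inequality** for irreducible representations of large dimension. -/
theorem strictY
    (hsec : ∀ δ : ℝ, 0 < δ → ∀ᶠ ε : ℝ in 𝓝[>] 0, (EP (nm F) ε fun v => ‖t v‖ ^ 2) / lam ε ≤ 1 + δ)
    {k : κ} (hk : (ρ k).IsIrreducible) (h3 : b + 1 ≤ n k) :
    ∃ A : ℝ, A < 1 ∧ ∀ᶠ ε : ℝ in 𝓝[>] 0, |x k ε| ≤ A := by
  classical
  obtain ⟨δ, hδ, hsp⟩ := has_split U hU σ hσ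
  have hN := normSys (F := F)
  obtain ⟨p0⟩ := prime0 (F := F)
  have hb0 : 0 ≤ b := (norm_nonneg _).trans (ht p0)
  set z : HeightOneSpectrum (𝓞 F) → ℂ := RZ U ρ hρ σ k (τ k) with hz
  have hzb : ∀ v, ‖z v‖ ≤ n k := RZ_bound U ρ hρ k (τ k) σ
  have hz1 : ∀ v, σ v ∈ U → ‖z v‖ = n k := by
    intro v hv
    rw [hz]
    unfold RZ
    rw [norm_mul, norm_zz, mul_one]
    have e1 : (chF U ρ hρ k).f (QuotientGroup.mk (σ v)) = (ρ k).character (σ v)⁻¹ := rfl
    rw [e1]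
    have e2 : ρ k (σ v)⁻¹ = 1 := hρ k _ (U.inv_mem hv)
    unfold Representation.character
    rw [e2, LinearMap.trace_one, Module.finrank_fin_fun]
    simp
  have hzsq : Tendsto (fun ε : ℝ => (EP (nm F) ε fun v => ‖z v‖ ^ 2) / lam ε) (𝓝[>] 0) (𝓝 1) := by
    have h := (has_hd U ρ hρ hU σ hσ τ k k).2
    rw [hd_self ρ τ hk] at h
    refine h.congr fun ε => ?_
    congr 2
    funext v
    rw [Complex.mul_conj, Complex.ofReal_re, Complex.normSq_eq_norm_sq]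
  have hcorr := hx k
  refine ⟨1 - δ / 8, by linarith, ?_⟩
  filter_upwards [hsec (δ / 8) (by positivity),
    hzsq.eventually_lt_const (by linarith : (1 : ℝ) < 1 + δ / 8),
    hsp.eventually_const_lt (by linarith : δ - δ / 8 < δ),
    (Metric.tendsto_nhds.1 hcorr) (δ / 8) (by positivity),
    lam_tendsto.eventually_gt_atTop 0, self_mem_nhdsWithin] with ε h1 h2 h4 h5 h6 h7
  have hε : (0 : ℝ) < ε := h7
  rw [Real.dist_eq, sub_zero] at h5
  -- pointwise inequality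
  have hmb : ∀ v, |(t v * z v).re| ≤ b * n k := mul_boundX t ht U ρ hρ σ k (τ k)
  have hpt : ∀ v, |(t v * z v).re| + (1 / 2) * (if σ v ∈ U then (1 : ℝ) else 0) ≤
      (1 / 2) * ‖t v‖ ^ 2 + (1 / 2) * ‖z v‖ ^ 2 := by
    intro v
    have q1 : |(t v * z v).re| ≤ ‖t v‖ * ‖z v‖ := by
      rw [← norm_mul]
      exact Complex.abs_re_le_norm _
    split_ifs with hv
    · have q2 := hz1 v hv
      have q3 : 1 ≤ ‖z v‖ - ‖t v‖ := by
        rw [q2]
        have := ht v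
        linarith
      nlinarith [mul_self_nonneg (‖z v‖ - ‖t v‖ - 1)]
    · nlinarith [sq_nonneg (‖z v‖ - ‖t v‖)]
  have hbt : ∀ v, |‖t v‖ ^ 2| ≤ b ^ 2 := fun v => by
    rw [abs_of_nonneg (sq_nonneg _)]
    exact pow_le_pow_left₀ (norm_nonneg _) (ht v) 2
  have hbz : ∀ v, |‖z v‖ ^ 2| ≤ (n k : ℝ) ^ 2 := fun v => by
    rw [abs_of_nonneg (sq_nonneg _)]
    exact pow_le_pow_left₀ (norm_nonneg _) (hzb v) 2
  have hbi : ∀ v, |(if σ v ∈ U then (1 : ℝ) else 0)| ≤ 1 := fun v => by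
    split_ifs <;> simp
  have key : |EP (nm F) ε fun v => (t v * z v).re| + (1 / 2) * (EP (nm F) ε fun v =>
      if σ v ∈ U then (1 : ℝ) else 0) ≤
      (1 / 2) * (EP (nm F) ε fun v => ‖t v‖ ^ 2) + (1 / 2) * EP (nm F) ε fun v => ‖z v‖ ^ 2 := by
    have q1 : |EP (nm F) ε fun v => (t v * z v).re| ≤ EP (nm F) ε fun v => |(t v * z v).re| :=
      Pool.Agent.W353.L1.EP_abs_le (B := b * n k) (fun v => by
        rw [abs_abs]
        exact hmb v) (fun v => le_rfl) hε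
    have q2 : (EP (nm F) ε fun v => |(t v * z v).re| +
        (1 / 2) * (if σ v ∈ U then (1 : ℝ) else 0)) ≤
        EP (nm F) ε fun v => (1 / 2) * ‖t v‖ ^ 2 + (1 / 2) * ‖z v‖ ^ 2 := by
      refine Pool.Agent.W353.L1.EP_mono (B := b * n k + 1 / 2)
        (B' := 1 / 2 * b ^ 2 + 1 / 2 * (n k : ℝ) ^ 2)
        (fun v => ?_) (fun v => ?_) hpt hε
      · refine (abs_add_le _ _).trans (add_le_add ?_ ?_)
        · rw [abs_abs]
          exact hmb v
        · rw [abs_mul]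
          have := hbi v
          rw [abs_of_pos (by norm_num : (0 : ℝ) < 1 / 2)]
          linarith
      · refine (abs_add_le _ _).trans (add_le_add ?_ ?_)
        · rw [abs_mul, abs_of_pos (by norm_num : (0 : ℝ) < 1 / 2)]
          exact mul_le_mul_of_nonneg_left (hbt v) (by norm_num)
        · rw [abs_mul, abs_of_pos (by norm_num : (0 : ℝ) < 1 / 2)]
          exact mul_le_mul_of_nonneg_left (hbz v) (by norm_num)
    rw [EP_add hN hε (B := b * n k) (B' := 1 / 2) (fun v => by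
        rw [abs_abs]
        exact hmb v) (fun v => by
        rw [abs_mul, abs_of_pos (by norm_num : (0 : ℝ) < 1 / 2)]
        have := hbi v
        linarith), EP_add hN hε (B := 1 / 2 * b ^ 2) (B' := 1 / 2 * (n k : ℝ) ^ 2)
        (fun v => by
          rw [abs_mul, abs_of_pos (by norm_num : (0 : ℝ) < 1 / 2)]
          exact mul_le_mul_of_nonneg_left (hbt v) (by norm_num))
        (fun v => by
          rw [abs_mul, abs_of_pos (by norm_num : (0 : ℝ) < 1 / 2)]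
          exact mul_le_mul_of_nonneg_left (hbz v) (by norm_num)),
      EP_const_mul, EP_const_mul, EP_const_mul] at q2
    linarith
  set X := (EP (nm F) ε fun v => (t v * z v).re) / lam ε with hX
  have hXle : |X| ≤ 1 + δ / 8 - (1 / 2) * (δ - δ / 8) := by
    have q1 := div_le_div_of_nonneg_right key h6.le
    rw [add_div, add_div, ← abs_of_pos h6, ← abs_div, abs_of_pos h6, mul_div_assoc,
      mul_div_assoc, mul_div_assoc] at q1
    rw [hX]
    have q2 : (1 / 2 : ℝ) * ((EP (nm F) ε fun v => ‖t v‖ ^ 2) / lam ε) ≤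
        1 / 2 * (1 + δ / 8) := mul_le_mul_of_nonneg_left h1 (by norm_num)
    have q3 : (1 / 2 : ℝ) * ((EP (nm F) ε fun v => ‖z v‖ ^ 2) / lam ε) ≤
        1 / 2 * (1 + δ / 8) := mul_le_mul_of_nonneg_left h2.le (by norm_num)
    have q4 : (1 / 2 : ℝ) * (δ - δ / 8) ≤ 1 / 2 * ((EP (nm F) ε fun v =>
      if σ v ∈ U then (1 : ℝ) else 0) / lam ε) := mul_le_mul_of_nonneg_left h4.le (by norm_num)
    linarith
  have h8 : |x k ε| ≤ |X| + δ / 8 := by
    have h9 := abs_sub_abs_le_abs_sub (x k ε) X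
    rw [abs_sub_comm] at h9
    linarith
  linarith

end

section
variable {F : Type} [Field F] [NumberField F] {R : ℕ} (w : ℝ)
    (α : HeightOneSpectrum (𝓞 F) → Fin R → ℂ)
    (hα : ∀ᶠ v in cofinite, ∀ j, ‖α v j‖ = (nm F v : ℝ) ^ w)
    {m : ℕ} (β : HeightOneSpectrum (𝓞 F) → Fin m → ℂ)
    (hβ : ∀ᶠ v in cofinite, ∀ j, ‖β v j‖ = 1)
    (hrs : Tendsto (fun ε : ℝ =>
      (EP (nm F) ε fun v => (trc 0 β v * conj (trc 0 β v)).re) / lam ε) (𝓝[>] 0) (𝓝 1))
    {κ : Type*} [Fintype κ] {n : κ → ℕ}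
    (ρ : ∀ k, Representation ℂ (GK F) (Fin (n k) → ℂ))
    (hopen : ∀ k, ∃ U : Subgroup (GK F), IsOpen (U : Set (GK F)) ∧ ∀ u ∈ U, ρ k u = 1)
    (τ : κ → ℝ) (B : κ → HeightOneSpectrum (𝓞 F) → ℂ[X])
    (hB : ∀ k, ∀ᶠ v in cofinite, ∀ σ : GK F, IsFrob v σ → ∀ z : ℂ,
      (B k v).eval z = ∏ j, LinearMap.det (1 - (tn α β v j * z) • ρ k σ⁻¹))
    (hB0 : ∀ k, ∀ v, (B k v).eval (((nm F v : ℕ) : ℂ) ^ (-(w + 1 + τ k * I : ℂ))) ≠ 0)
    (L : κ → ℂ → ℂ)
    (hL : ∀ k, ∀ s : ℂ, w + 1 < s.re →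
      L k s = ∏' v, ((B k v).eval (((nm F v : ℕ) : ℂ) ^ (-s)))⁻¹)

include hα hβ hopen hB hB0 hL hrs in
/-- **The strict inequality** for representations of large dimension -/
theorem cusp_strict (hR : 0 < R) {k : κ} (hk : (ρ k).IsIrreducible) (h3 : m < n k) :
    ∃ A : ℝ, A < R ∧ ∀ᶠ ε : ℝ in 𝓝[>] 0, |xs w τ L k ε| ≤ A := by
  classical
  obtain ⟨U, hUn, hU, hρ⟩ := exists_U ρ hopen
  have hfin : Finite (GK F ⧸ U) := Subgroup.quotient_finite_of_isOpen U hU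
  choose σ hσ using exists_isFrob (F := F)
  have hR0 : (0 : ℝ) < R := by exact_mod_cast hR
  have hRc : ((R : ℝ) : ℂ) ≠ 0 := by exact_mod_cast hR0.ne'
  have hnt : ∀ᶠ v in cofinite, ∀ j, ‖tn α β v j‖ = (nm F v : ℝ) ^ w := norm_tn hα hβ
  set t : HeightOneSpectrum (𝓞 F) → ℂ := fun v =>
    (((R : ℝ)⁻¹ : ℝ) : ℂ) * (trc w α v * trc 0 β v) with ht
  have htb : ∀ v, ‖t v‖ ≤ m := by
    intro v
    rw [ht]
    simp only
    rw [norm_mul, norm_mul, Complex.norm_real, Real.norm_eq_abs, abs_inv, abs_of_pos hR0]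
    have h1 : ‖trc w α v‖ * ‖trc 0 β v‖ ≤ R * m :=
      mul_le_mul (norm_trc_le _ _ v) (norm_trc_le _ _ v) (norm_nonneg _) hR0.le
    calc (R : ℝ)⁻¹ * (‖trc w α v‖ * ‖trc 0 β v‖) ≤ (R : ℝ)⁻¹ * (R * m) :=
          mul_le_mul_of_nonneg_left h1 (by positivity)
      _ = m := by rw [inv_mul_cancel_left₀ hR0.ne']
  have hcorr : ∀ l, Tendsto (fun ε : ℝ => (EP (nm F) ε fun v =>
      (t v * RZ U ρ hρ σ l (τ l) v).re) / lam ε - xs w τ L l ε / R) (𝓝[>] 0) (𝓝 0) := by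
    intro l
    have h1 := xc_corr w (tn α β) hnt U ρ hρ τ B hB hB0 L hL σ hσ l
    have hb1 : ∀ v, |(trc w (tn α β) v * RZ U ρ hρ σ l (τ l) v).re| ≤ (R * m : ℕ) * n l :=
      mul_bound w (tn α β) U ρ hρ l (τ l) σ
    have hb2 : ∀ v, |(trc w α v * trc 0 β v * RZ U ρ hρ σ l (τ l) v).re| ≤
        R * m * n l := by
      intro v
      refine (Complex.abs_re_le_norm _).trans ?_
      rw [norm_mul, norm_mul]
      exact mul_le_mul (mul_le_mul (norm_trc_le _ _ v) (norm_trc_le _ _ v) (norm_nonneg _)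
        (Nat.cast_nonneg _)) (RZ_bound U ρ hρ l (τ l) σ v) (norm_nonneg _) (by positivity)
    have h2 := corr_congr hb2 hb1 (by
      filter_upwards [trc_tn hα hβ] with v h3
      rw [h3])
    have h4 := (h2.add h1).const_mul (R : ℝ)⁻¹
    rw [add_zero, mul_zero] at h4
    refine h4.congr fun ε => ?_
    have e : (fun v => (t v * RZ U ρ hρ σ l (τ l) v).re) = fun v =>
        (R : ℝ)⁻¹ * (trc w α v * trc 0 β v * RZ U ρ hρ σ l (τ l) v).re := by
      funext v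
      rw [← Complex.re_ofReal_mul, ht]
      congr 1
      ring
    rw [e, EP_const_mul]
    field_simp
    ring
  have hsec : ∀ δ : ℝ, 0 < δ → ∀ᶠ ε : ℝ in 𝓝[>] 0,
      (EP (nm F) ε fun v => ‖t v‖ ^ 2) / lam ε ≤ 1 + δ := by
    intro δ hδ
    filter_upwards [hrs.eventually_lt_const (by linarith : (1 : ℝ) < 1 + δ),
      lam_tendsto.eventually_gt_atTop 0, self_mem_nhdsWithin] with ε h1 h2 h3
    have hε : (0 : ℝ) < ε := h3
    refine le_trans ?_ h1.le
    refine div_le_div_of_nonneg_right ?_ h2.le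
    refine Pool.Agent.W353.L1.EP_mono (B := (m : ℝ) ^ 2) (B' := (m : ℝ) ^ 2) (fun v => ?_)
      (fun v => ?_) (fun v => ?_) hε
    · rw [abs_of_nonneg (_root_.sq_nonneg _)]
      exact pow_le_pow_left₀ (norm_nonneg _) (htb v) 2
    · rw [Complex.mul_conj, Complex.ofReal_re, Complex.normSq_eq_norm_sq,
        abs_of_nonneg (_root_.sq_nonneg _)]
      exact pow_le_pow_left₀ (norm_nonneg _) (norm_trc_le _ _ v) 2
    · rw [Complex.mul_conj, Complex.ofReal_re, Complex.normSq_eq_norm_sq, ht]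
      refine pow_le_pow_left₀ (norm_nonneg _) ?_ 2
      simp only
      rw [norm_mul, norm_mul, Complex.norm_real, Real.norm_eq_abs, abs_inv, abs_of_pos hR0]
      have h4 : ‖trc w α v‖ * ‖trc 0 β v‖ ≤ R * ‖trc 0 β v‖ :=
        mul_le_mul_of_nonneg_right (norm_trc_le _ _ v) (norm_nonneg _)
      calc (R : ℝ)⁻¹ * (‖trc w α v‖ * ‖trc 0 β v‖) ≤ (R : ℝ)⁻¹ * (R * ‖trc 0 β v‖) :=
            mul_le_mul_of_nonneg_left h4 (by positivity)
        _ = ‖trc 0 β v‖ := by rw [inv_mul_cancel_left₀ hR0.ne']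
  obtain ⟨A, hA, h⟩ := strictY t htb U hU ρ hρ τ σ hσ (fun l ε => xs w τ L l ε / R) hcorr hsec
    hk (by exact_mod_cast h3)
  refine ⟨R * A, by nlinarith, h.mono fun ε hε => ?_⟩
  rw [abs_div, abs_of_pos hR0, div_le_iff₀ hR0] at hε
  linarith

end

/-- rows and columns of the matrix of the sizes -/
theorem bil_rows {ι κ : Type*} [Fintype ι] [Fintype κ] {R Y : ℝ} (hR : 0 ≤ R)
    {x : ι → κ → ℝ → ℝ} (hY : ∀ i k, ∀ᶠ ε : ℝ in 𝓝[>] 0, |x i k ε| ≤ Y)
    {A : (ι → ℝ) → ℝ} (hA : ∀ a, A a = ∑ i, a i ^ 2) {G : (κ → ℝ) → ℝ}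
    (hG : ∀ c, G c = ∑ k, c k ^ 2)
    (h : ∀ C η : ℝ, 0 < η → ∀ᶠ ε : ℝ in 𝓝[>] 0, ∀ (a : ι → ℝ) (c : κ → ℝ), (∀ i, |a i| ≤ C) →
      (∀ k, |c k| ≤ C) → (∑ i, ∑ k, a i * c k * x i k ε) ^ 2 ≤ R ^ 2 * A a * G c + η)
    {η : ℝ} (hη : 0 < η) :
    ∀ᶠ ε : ℝ in 𝓝[>] 0, (∀ i, ∑ k, x i k ε ^ 2 ≤ R ^ 2 + η) ∧
      (∀ k, ∑ i, x i k ε ^ 2 ≤ R ^ 2 + η) := by
  classical
  have hY' : ∀ᶠ ε : ℝ in 𝓝[>] 0, ∀ i k, |x i k ε| ≤ Y :=
    eventually_all.2 fun i => eventually_all.2 fun k => hY i k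
  filter_upwards [hY', h (max 1 |Y|) (η ^ 2) (by positivity)] with ε h1 h2
  have key : ∀ S : ℝ, 0 ≤ S → S ^ 2 ≤ R ^ 2 * S + η ^ 2 → S ≤ R ^ 2 + η := by
    intro S hS hq
    by_contra hcon
    push Not at hcon
    nlinarith [_root_.sq_nonneg R]
  have hm : ∀ i k, |x i k ε| ≤ max 1 |Y| := fun i k =>
    (h1 i k).trans ((le_abs_self _).trans (le_max_right _ _))
  constructor
  · intro i
    refine key _ (Finset.sum_nonneg fun k _ => _root_.sq_nonneg _) ?_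
    have h3 := h2 (Pi.single i 1) (fun k => x i k ε) (fun j => by
      by_cases hj : j = i
      · subst hj
        rw [Pi.single_eq_same, abs_one]
        exact le_max_left _ _
      · rw [Pi.single_eq_of_ne hj, abs_zero]
        exact le_trans zero_le_one (le_max_left _ _)) (fun k => hm i k)
    have e1 : ∑ j, ∑ k, (Pi.single i (1 : ℝ) : ι → ℝ) j * x i k ε * x j k ε =
        ∑ k, x i k ε ^ 2 := by
      rw [Finset.sum_eq_single i (fun j _ hj => by
        simp only [Pi.single_eq_of_ne hj, zero_mul, Finset.sum_const_zero])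
        (fun hj => absurd (Finset.mem_univ i) hj)]
      refine Finset.sum_congr rfl fun k _ => ?_
      rw [Pi.single_eq_same]
      ring
    have e2 : A (Pi.single i 1) = 1 := by
      rw [hA, Finset.sum_eq_single i (fun j _ hj => by
        rw [Pi.single_eq_of_ne hj]; norm_num)
        (fun hj => absurd (Finset.mem_univ i) hj), Pi.single_eq_same]
      norm_num
    rw [e1, e2, hG, mul_one] at h3
    exact h3
  · intro k
    refine key _ (Finset.sum_nonneg fun k _ => _root_.sq_nonneg _) ?_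
    have h3 := h2 (fun i => x i k ε) (Pi.single k 1) (fun i => hm i k) (fun j => by
      by_cases hj : j = k
      · subst hj
        rw [Pi.single_eq_same, abs_one]
        exact le_max_left _ _
      · rw [Pi.single_eq_of_ne hj, abs_zero]
        exact le_trans zero_le_one (le_max_left _ _))
    have e1 : ∑ i, ∑ j, x i k ε * (Pi.single k (1 : ℝ) : κ → ℝ) j * x i j ε =
        ∑ i, x i k ε ^ 2 := by
      refine Finset.sum_congr rfl fun i _ => ?_
      rw [Finset.sum_eq_single k (fun j _ hj => by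
        rw [Pi.single_eq_of_ne hj]; ring)
        (fun hj => absurd (Finset.mem_univ k) hj), Pi.single_eq_same]
      ring
    have e2 : G (Pi.single k 1) = 1 := by
      rw [hG, Finset.sum_eq_single k (fun j _ hj => by
        rw [Pi.single_eq_of_ne hj]; norm_num)
        (fun hj => absurd (Finset.mem_univ k) hj), Pi.single_eq_same]
      norm_num
    rw [e1, e2, hA, mul_one] at h3
    exact h3

/-- the form of pairwise inequivalent irreducible representations -/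
theorem hd_sum {F : Type} [Field F] [NumberField F] {κ : Type*} [Fintype κ] {n : κ → ℕ}
    (ρ : ∀ k, Representation ℂ (GK F) (Fin (n k) → ℂ)) (τ : κ → ℝ)
    (hirr : ∀ k, (ρ k).IsIrreducible)
    (hne : ∀ k l, k ≠ l → τ k = τ l → IsEmpty ((ρ k).Equiv (ρ l))) (c : κ → ℝ) :
    ∑ k, ∑ l, c k * c l * hd ρ τ k l = ∑ k, c k ^ 2 := by
  classical
  refine Finset.sum_congr rfl fun k _ => ?_
  rw [Finset.sum_eq_single k (fun l _ hl => by
    rw [hd_ne ρ τ (hirr k) (hirr l) (hne k l (Ne.symm hl)), mul_zero])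
    (fun hk => absurd (Finset.mem_univ k) hk), hd_self ρ τ (hirr k)]
  ring

theorem bil_orders {ι κ : Type*} [Fintype ι] [Fintype κ] {x : ι → κ → ℝ → ℝ} {m : ι → κ → ℤ}
    (hx : ∀ i k, Tendsto (x i k) (𝓝[>] 0) (𝓝 (-(m i k : ℝ))))
    {Q : (ι → ℝ) → (κ → ℝ) → ℝ}
    (h : ∀ C η : ℝ, 0 < η → ∀ᶠ ε : ℝ in 𝓝[>] 0, ∀ (a : ι → ℝ) (c : κ → ℝ), (∀ i, |a i| ≤ C) →
      (∀ k, |c k| ≤ C) → (∑ i, ∑ k, a i * c k * x i k ε) ^ 2 ≤ Q a c + η)
    (a : ι → ℝ) (c : κ → ℝ) : (∑ i, ∑ k, a i * c k * m i k) ^ 2 ≤ Q a c := by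
  refine le_of_forall_pos_le_add fun η hη => ?_
  have hlim : Tendsto (fun ε : ℝ => (∑ i, ∑ k, a i * c k * x i k ε) ^ 2) (𝓝[>] 0)
      (𝓝 ((∑ i, ∑ k, a i * c k * (-(m i k : ℝ))) ^ 2)) :=
    (tendsto_finsetSum _ fun i _ => tendsto_finsetSum _ fun k _ =>
      ((hx i k).const_mul (a i * c k))).pow 2
  have e1 : (∑ i, ∑ k, a i * c k * (-(m i k : ℝ))) ^ 2 =
      (∑ i, ∑ k, a i * c k * m i k) ^ 2 := by
    have : ∑ i, ∑ k, a i * c k * (-(m i k : ℝ)) = -∑ i, ∑ k, a i * c k * m i k := by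
      rw [← Finset.sum_neg_distrib]
      refine Finset.sum_congr rfl fun i _ => ?_
      rw [← Finset.sum_neg_distrib]
      exact Finset.sum_congr rfl fun k _ => by ring
    rw [this, neg_sq]
  rw [e1] at hlim
  refine le_of_tendsto hlim ?_
  filter_upwards [h (∑ i, |a i| + ∑ k, |c k|) η hη] with ε h4
  have q1 : 0 ≤ ∑ i, |a i| := Finset.sum_nonneg fun i _ => abs_nonneg _
  have q2 : 0 ≤ ∑ k, |c k| := Finset.sum_nonneg fun i _ => abs_nonneg _
  refine h4 a c (fun i => ?_) fun k => ?_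
  · have := Finset.single_le_sum (f := fun i => |a i|) (fun i _ => abs_nonneg _)
      (Finset.mem_univ i)
    linarith
  · have := Finset.single_le_sum (f := fun k => |c k|) (fun k _ => abs_nonneg _)
      (Finset.mem_univ k)
    linarith

end Pool.Agent.X288.CX
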