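import Pool.Agent.X288.AR.Gram

/-! The Gram inequality for complex traces. -/

set_option autoImplicit false

namespace Pool.Agent.X288.CX

open Filter Topology ComplexConjugate Pool.Agent.H341R2 Pool.Agent.W540.BE Pool.Agent.X288.AR

section

variable {P : Type*} {N : P → ℕ}

/-- doubled primes -/
theorem normSys2 (hN : NormSys N) : NormSys fun x : P × Bool => N x.1 where
  two_le x := hN.two_le x.1
  summable r hr := by
    have h := hN.summable r hr
    have h1 : Summable fun x : Bool × P => (N x.2 : ℝ) ^ r := by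
      refine (summable_prod_of_nonneg fun x => by positivity).2 ⟨fun _ => h, ?_⟩
      exact Summable.of_finite
    exact (Equiv.prodComm P Bool).summable_iff.2 h1 |>.congr fun x => rfl

theorem EP2 (hN : NormSys N) {ε : ℝ} (hε : 0 < ε) {φ : P × Bool → ℝ} {B : ℝ}
    (hφ : ∀ x, |φ x| ≤ B) :
    EP (fun x : P × Bool => N x.1) ε φ = EP N ε fun p => φ (p, false) + φ (p, true) := by
  have hs := summable_EP (normSys2 hN) hε hφ
  have hs1 : Summable fun p => φ (p, false) * (N p : ℝ) ^ (-(1 + ε)) :=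
    summable_EP hN hε fun p => hφ _
  have hs2 : Summable fun p => φ (p, true) * (N p : ℝ) ^ (-(1 + ε)) :=
    summable_EP hN hε fun p => hφ _
  unfold EP
  rw [hs.tsum_prod]
  refine tsum_congr fun p => ?_
  rw [tsum_fintype, Fintype.sum_bool]
  ring

/-- **The Gram inequality** for complex traces. -/
theorem gramC (hN : NormSys N) (p0 : P) {κ : Type*} (K : Finset κ) (t : P → ℂ)
    (v : κ → P → ℂ) {b β : ℝ} (ht : ∀ p, ‖t p‖ ≤ b) (B : κ → ℝ) (hv : ∀ k p, ‖v k p‖ ≤ B k)
    (hβ : 0 ≤ β) (hsec : ∀ δ : ℝ, 0 < δ →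
      ∀ᶠ ε : ℝ in 𝓝[>] 0, (EP N ε fun p => ‖t p‖ ^ 2) / lam ε ≤ β + δ)
    (g : κ → κ → ℝ) (hg : ∀ k ∈ K, ∀ l ∈ K,
      Tendsto (fun ε : ℝ => (EP N ε fun p => (v k p * conj (v l p)).re) / lam ε) (𝓝[>] 0)
        (𝓝 (g k l)))
    (x : κ → ℝ → ℝ) (hx : ∀ k ∈ K, Tendsto (fun ε : ℝ =>
      (EP N ε fun p => (t p * v k p).re) / lam ε - x k ε) (𝓝[>] 0) (𝓝 0))
    {Y : ℝ} (hY : ∀ k ∈ K, ∀ᶠ ε : ℝ in 𝓝[>] 0, |x k ε| ≤ Y)
    (C : ℝ) {η : ℝ} (hη : 0 < η) :
    ∀ᶠ ε : ℝ in 𝓝[>] 0, ∀ c : κ → ℝ, (∀ k ∈ K, |c k| ≤ C) →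
      (∑ k ∈ K, c k * x k ε) ^ 2 ≤ β * (∑ k ∈ K, ∑ l ∈ K, (c k * c l) * g k l) + η := by
  have hb0 : 0 ≤ b := (norm_nonneg _).trans (ht p0)
  have hB0 : ∀ k, 0 ≤ B k := fun k => (norm_nonneg _).trans (hv k p0)
  set t' : P × Bool → ℝ := fun x => if x.2 then -(t x.1).im else (t x.1).re with ht'
  set v' : κ → P × Bool → ℝ := fun k x => if x.2 then (v k x.1).im else (v k x.1).re with hv'
  have htb : ∀ x, |t' x| ≤ b := by
    intro x
    rw [ht']
    simp only
    split_ifs
    · rw [abs_neg]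
      exact (Complex.abs_im_le_norm _).trans (ht _)
    · exact (Complex.abs_re_le_norm _).trans (ht _)
  have hvb : ∀ k x, |v' k x| ≤ B k := by
    intro k x
    rw [hv']
    simp only
    split_ifs
    · exact (Complex.abs_im_le_norm _).trans (hv _ _)
    · exact (Complex.abs_re_le_norm _).trans (hv _ _)
  refine gramQ (normSys2 hN) (p0, false) K t' v' htb B hvb hβ ?_ g ?_ x ?_ hY C hη
  · intro δ hδ
    filter_upwards [hsec δ hδ, self_mem_nhdsWithin] with ε h1 h2
    have hε : (0 : ℝ) < ε := h2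
    rw [EP2 hN hε (B := b ^ 2) fun x => by
      rw [abs_pow]
      exact pow_le_pow_left₀ (abs_nonneg _) (htb x) 2]
    have e : (fun p => t' (p, false) ^ 2 + t' (p, true) ^ 2) = fun p => ‖t p‖ ^ 2 := by
      funext p
      rw [← Complex.normSq_eq_norm_sq, Complex.normSq_apply, ht']
      simp
      ring
    rw [e]
    exact h1
  · intro k hk l hl
    refine (hg k hk l hl).congr' ?_
    filter_upwards [self_mem_nhdsWithin] with ε h2
    have hε : (0 : ℝ) < ε := h2
    rw [EP2 hN hε (B := B k * B l) fun x => by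
      rw [abs_mul]
      exact mul_le_mul (hvb k x) (hvb l x) (abs_nonneg _) (hB0 k)]
    have e : (fun p => v' k (p, false) * v' l (p, false) + v' k (p, true) * v' l (p, true)) =
        fun p => (v k p * conj (v l p)).re := by
      funext p
      rw [Complex.mul_re, Complex.conj_re, Complex.conj_im, hv']
      simp
    rw [e]
  · intro k hk
    refine (hx k hk).congr' ?_
    filter_upwards [self_mem_nhdsWithin] with ε h2
    have hε : (0 : ℝ) < ε := h2
    rw [EP2 hN hε (B := b * B k) fun x => by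
      rw [abs_mul]
      exact mul_le_mul (htb x) (hvb k x) (abs_nonneg _) hb0]
    have e : (fun p => t' (p, false) * v' k (p, false) + t' (p, true) * v' k (p, true)) =
        fun p => (t p * v k p).re := by
      funext p
      rw [Complex.mul_re, ht', hv']
      simp
      ring
    rw [e]

end

end Pool.Agent.X288.CX
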