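import Pool.Agent.W353.L1.Core
import Pool.Agent.X288.AR.Main

/-! The size of the Euler products of the twists, for complex traces (after `W353.L1.size_corr`). -/

set_option autoImplicit false

namespace Pool.Agent.X288.CX

open Complex Filter Topology ComplexConjugate Pool.Agent.H341R2 NumberField IsDedekindDomain
  Pool.Agent.W401.Cheb Pool.Agent.W540.BE Pool.Agent.W353.L1 Polynomial

section
variable {F : Type} [Field F] [NumberField F] {b : ℕ}

open Classical in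
/-- the normalised trace of Frobenius -/
noncomputable def trc (w : ℝ) (α : HeightOneSpectrum (𝓞 F) → Fin b → ℂ)
    (v : HeightOneSpectrum (𝓞 F)) : ℂ :=
  if (∀ j, ‖α v j‖ = (nm F v : ℝ) ^ w) then
    (∑ j, α v j) * ((nm F v : ℕ) : ℂ) ^ (-(w : ℂ)) else 0

theorem norm_cpow_nm (v : HeightOneSpectrum (𝓞 F)) (w : ℝ) :
    ‖((nm F v : ℕ) : ℂ) ^ (-(w : ℂ))‖ = (nm F v : ℝ) ^ (-w) := by
  rw [Complex.norm_natCast_cpow_of_pos (nm_pos v), ← Complex.ofReal_neg, Complex.ofReal_re]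

theorem norm_trc_le (w : ℝ) (α : HeightOneSpectrum (𝓞 F) → Fin b → ℂ)
    (v : HeightOneSpectrum (𝓞 F)) : ‖trc w α v‖ ≤ b := by
  unfold trc
  split_ifs with h
  · rw [norm_mul, norm_cpow_nm]
    have h0 : (0 : ℝ) < nm F v := by exact_mod_cast nm_pos v
    have h1 : ‖∑ j, α v j‖ ≤ b * (nm F v : ℝ) ^ w := by
      refine (norm_sum_le _ _).trans ?_
      rw [Finset.sum_congr rfl fun j _ => h j, Finset.sum_const, Finset.card_univ,
        Fintype.card_fin, nsmul_eq_mul]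
    calc ‖∑ j, α v j‖ * (nm F v : ℝ) ^ (-w)
        ≤ b * (nm F v : ℝ) ^ w * (nm F v : ℝ) ^ (-w) :=
          mul_le_mul_of_nonneg_right h1 (by positivity)
      _ = b := by rw [mul_assoc, ← Real.rpow_add h0, add_neg_cancel, Real.rpow_zero, mul_one]
  · rw [norm_zero]
    positivity

/-- The size of the Euler product of a twist. -/
theorem size_corrC (w : ℝ) (α : HeightOneSpectrum (𝓞 F) → Fin b → ℂ)
    (hα : ∀ᶠ v in cofinite, ∀ j, ‖α v j‖ = (nm F v : ℝ) ^ w)
    (U : Subgroup (GK F)) [U.Normal] [Finite (GK F ⧸ U)]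
    {n : ℕ} (ρ : Representation ℂ (GK F) (Fin n → ℂ)) (hρ : ∀ u ∈ U, ρ u = 1)
    (τ : ℝ) (B : HeightOneSpectrum (𝓞 F) → ℂ[X])
    (hB : ∀ᶠ v in cofinite, ∀ σ : GK F, IsFrob v σ → ∀ z : ℂ,
      (B v).eval z = ∏ j, LinearMap.det (1 - (α v j * z) • ρ σ⁻¹))
    (hB0 : ∀ v, (B v).eval (((nm F v : ℕ) : ℂ) ^ (-(w + 1 + τ * I : ℂ))) ≠ 0)
    (L : ℂ → ℂ)
    (hL : ∀ s : ℂ, w + 1 < s.re → L s = ∏' v, ((B v).eval (((nm F v : ℕ) : ℂ) ^ (-s)))⁻¹)
    (σ : HeightOneSpectrum (𝓞 F) → GK F) (hσ : ∀ v, IsFrob v (σ v)) :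
    (∀ᶠ ε : ℝ in 𝓝[>] 0, L (w + 1 + τ * I + ε) ≠ 0) ∧
    Tendsto (fun ε : ℝ => (EP (nm F) ε fun v => (trc w α v *
        (ρ.character (σ v)⁻¹ * zz τ v)).re) / lam ε -
        Real.log ‖L (w + 1 + τ * I + ε)‖ / Real.log (1 / ε)) (𝓝[>] 0) (𝓝 0) := by
  classical
  have hN : NormSys (nm F) := normSys
  set y : HeightOneSpectrum (𝓞 F) → ℂ := fun v => trc w α v *
    (ρ.character (σ v)⁻¹ * zz τ v) with hy
  have hyb : ∀ v, ‖y v‖ ≤ b * n := by
    intro v
    rw [hy]
    simp only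
    rw [norm_mul, norm_mul, norm_zz, mul_one]
    exact mul_le_mul (norm_trc_le w α v) (norm_char_le U ρ hρ _) (norm_nonneg _) (by positivity)
  set Good : HeightOneSpectrum (𝓞 F) → Prop := fun v => (∀ j, ‖α v j‖ = (nm F v : ℝ) ^ w) ∧
    ∀ σ : GK F, IsFrob v σ → ∀ z : ℂ,
      (B v).eval z = ∏ j, LinearMap.det (1 - (α v j * z) • ρ σ⁻¹) with hGood
  have hfin : {v | ¬ Good v}.Finite := by
    have := hα.and hB
    rwa [Filter.eventually_cofinite] at this
  have hGex : ∀ (ε : ℝ) (v : HeightOneSpectrum (𝓞 F)), ∃ G : ℂ, 0 < ε → Good v →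
      cexp G = ((B v).eval (((nm F v : ℕ) : ℂ) ^ (-(w + 1 + τ * I + ε : ℂ))))⁻¹ ∧
      ‖G - y v * ((nm F v : ℝ) ^ (-(1 + ε)) : ℝ)‖ ≤ (b * n : ℝ) * (nm F v : ℝ) ^ (-2 : ℝ) := by
    intro ε v
    by_cases h : 0 < ε ∧ Good v
    · obtain ⟨G, hG1, hG2⟩ := local_factor w (nm F v) (two_le_nm v) (α v) h.2.1
        (ρ (σ v)⁻¹) (m := Nat.card (GK F ⧸ U)) Nat.card_pos
        (rho_pow U ρ hρ _) τ ε h.1
      refine ⟨G, fun _ _ => ⟨?_, ?_⟩⟩
      · rw [hG1, h.2.2 (σ v) (hσ v)]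
      · have h2 : y v = (∑ j, α v j) * ((nm F v : ℕ) : ℂ) ^ (-(w : ℂ)) *
            (((nm F v : ℕ) : ℂ) ^ (-(τ * I)) * ρ.character (σ v)⁻¹) := by
          rw [hy]
          simp only
          unfold trc
          rw [if_pos h.2.1]
          unfold zz
          ring
        rw [h2]
        exact hG2
    · exact ⟨0, fun h1 h2 => absurd ⟨h1, h2⟩ h⟩
  choose G hG using hGex
  set a : HeightOneSpectrum (𝓞 F) → ℂ := fun v => if Good v then y v else 0 with ha
  have hab : ∀ v, ‖a v‖ ≤ b * n := by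
    intro v
    rw [ha]
    simp only
    split_ifs
    · exact hyb v
    · rw [norm_zero]; positivity
  have ha0 : ∀ v, ¬ Good v → a v = 0 := by
    intro v hv
    rw [ha]
    simp only
    rw [if_neg hv]
  obtain ⟨C', hC'⟩ := sizeP hN (Good := Good) hfin B (w + 1 + τ * I)
    (fun v _ => hB0 v) a hab ha0 G (C := (b * n : ℝ))
    (by
      intro ε hε v hv
      have h1 : a v = y v := by
        rw [ha]
        simp only
        rw [if_pos hv]
      rw [h1]
      exact (hG ε v hε hv).2)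
    (L := fun ε => L (w + 1 + τ * I + ε))
    (by
      intro ε hε
      rw [hL _ (by simp [hε])]
      refine tprod_congr fun v => ?_
      split_ifs with hv
      · rw [(hG ε v hε hv).1]
      · rfl)
  set r : HeightOneSpectrum (𝓞 F) → ℝ := fun v => (y v).re - (a v).re with hr
  have hr0 : ∀ v, v ∉ hfin.toFinset → r v = 0 := by
    intro v hv
    rw [Set.Finite.mem_toFinset, Set.mem_ofPred_eq, not_not] at hv
    rw [hr, ha]
    simp only
    rw [if_pos hv, sub_self]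
  have hrb : ∀ v, |r v| ≤ 2 * (b * n) := by
    intro v
    rw [hr]
    simp only
    have h1 : |(y v).re| ≤ b * n := (Complex.abs_re_le_norm _).trans (hyb v)
    have h2 : |(a v).re| ≤ b * n := (Complex.abs_re_le_norm _).trans (hab v)
    rw [abs_le] at *
    constructor <;> linarith [h1.1, h1.2, h2.1, h2.2]
  have hsplit : ∀ ε : ℝ, 0 < ε → (EP (nm F) ε fun v => (y v).re) =
      (EP (nm F) ε fun v => (a v).re) + EP (nm F) ε r := by
    intro ε hε
    rw [← EP_add hN hε (B := b * n) (B' := 2 * (b * n))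
      (fun v => (Complex.abs_re_le_norm _).trans (hab v)) hrb]
    congr 1
    funext v
    rw [hr]
    ring
  have hmain : ∀ᶠ ε : ℝ in 𝓝[>] 0, L (w + 1 + τ * I + ε) ≠ 0 ∧
      |(EP (nm F) ε fun v => (y v).re) - Real.log ‖L (w + 1 + τ * I + ε)‖| ≤
        C' + hfin.toFinset.card * (2 * (b * n)) := by
    filter_upwards [hC', self_mem_nhdsWithin] with ε h1 h2
    have hε : (0 : ℝ) < ε := h2
    refine ⟨h1.1, ?_⟩
    rw [hsplit ε hε]
    have h4 := EP_finsupp hN hfin.toFinset r hr0 _ hrb hε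
    have h5 : (EP (nm F) ε fun v => (a v).re) + EP (nm F) ε r -
        Real.log ‖L (w + 1 + τ * I + ε)‖ =
        ((EP (nm F) ε fun v => (a v).re) - Real.log ‖L (w + 1 + τ * I + ε)‖) +
          EP (nm F) ε r := by ring
    rw [h5]
    exact (abs_add_le _ _).trans (add_le_add h1.2 h4)
  have hEP1 : ∀ᶠ ε : ℝ in 𝓝[>] 0, (EP (nm F) ε fun _ => 1) ≤ 2 * lam ε := by
    filter_upwards [(EP_one F).eventually_lt_const (by norm_num : (1 : ℝ) < 2),
      lam_tendsto.eventually_gt_atTop 0] with ε h1 h2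
    rw [div_lt_iff₀ h2] at h1
    exact h1.le
  have hylam : ∀ᶠ ε : ℝ in 𝓝[>] 0,
      |EP (nm F) ε fun v => (y v).re| ≤ (2 * (b * n) : ℝ) * lam ε := by
    filter_upwards [hEP1, self_mem_nhdsWithin] with ε h1 h2
    have hε : (0 : ℝ) < ε := h2
    have hb1 : ∀ v, |(y v).re| ≤ b * n := fun v => (Complex.abs_re_le_norm _).trans (hyb v)
    have h3 : |EP (nm F) ε fun v => (y v).re| ≤ (b * n : ℝ) * EP (nm F) ε fun _ => 1 := by
      rw [abs_le]
      constructor
      · have h7 := EP_le hN hε (φ := fun v => (-1) * (y v).re) (B := b * n)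
          (fun v => by rw [abs_mul, abs_neg, abs_one, one_mul]; exact hb1 v) (b := b * n)
          (fun v => by have := (abs_le.1 (hb1 v)).1; linarith)
        rw [EP_const_mul] at h7
        linarith
      · exact EP_le hN hε hb1 fun v => (le_abs_self _).trans (hb1 v)
    refine h3.trans ?_
    calc (b * n : ℝ) * EP (nm F) ε (fun _ => 1) ≤ (b * n : ℝ) * (2 * lam ε) :=
          mul_le_mul_of_nonneg_left h1 (by positivity)
      _ = _ := by ring
  exact ⟨hmain.mono fun _ h => h.1, size_compare hylam (hmain.mono fun _ h => h.2)⟩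

end

end Pool.Agent.X288.CX
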