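import Pool.Agent.X288.CX.Gram
import Pool.Agent.X288.CX.Size
import Pool.Agent.X288.AR.Thm
import Pool.Agent.W353.L1.Equi

/-! Artin twists on the edge, complex traces: the Gram inequality and the strict inequality. -/

set_option autoImplicit false
set_option linter.unusedSectionVars false

namespace Pool.Agent.X288.CX

open Complex Filter Topology ComplexConjugate NumberField IsDedekindDomain Polynomial
  Pool.Agent.W401.Cheb Pool.Agent.W540.BE Pool.Agent.W353.L1 Asymptotics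
open Pool.Agent.H341R2 (lam lam_tendsto sysK)
open Pool.Agent.W353.NF (EP_eq)
open Pool.Agent.W353.TP (LL)
open Pool.Agent.X288.AR (RZ hd has_hd hd_self hd_ne exists_U prime0 EP_abs EP_cs)

section
variable {F : Type} [Field F] [NumberField F]

/-- the second moment on the scale `lam` -/
theorem sec_lamC {t : HeightOneSpectrum (𝓞 F) → ℂ} {β : ℝ}
    (h : ∃ C : ℝ, ∀ᶠ ε : ℝ in 𝓝[>] 0, (EP (nm F) ε fun v => ‖t v‖ ^ 2) ≤ β * LL ε + C)
    {δ : ℝ} (hδ : 0 < δ) :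
    ∀ᶠ ε : ℝ in 𝓝[>] 0, (EP (nm F) ε fun v => ‖t v‖ ^ 2) / lam ε ≤ β + δ :=
  Pool.Agent.X288.AR.sec_lam (t := fun v => ‖t v‖) h hδ

end

section
variable {F : Type} [Field F] [NumberField F] {b : ℕ} (w : ℝ)
    (α : HeightOneSpectrum (𝓞 F) → Fin b → ℂ)
    (hα : ∀ᶠ v in cofinite, ∀ j, ‖α v j‖ = (nm F v : ℝ) ^ w)
    (U : Subgroup (GK F)) [U.Normal] (hU : IsOpen (U : Set (GK F))) [Finite (GK F ⧸ U)]
    {κ : Type*} {n : κ → ℕ}
    (ρ : ∀ k, Representation ℂ (GK F) (Fin (n k) → ℂ)) (hρ : ∀ k, ∀ u ∈ U, ρ k u = 1)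
    (τ : κ → ℝ) (B : κ → HeightOneSpectrum (𝓞 F) → ℂ[X])
    (hB : ∀ k, ∀ᶠ v in cofinite, ∀ σ : GK F, IsFrob v σ → ∀ z : ℂ,
      (B k v).eval z = ∏ j, LinearMap.det (1 - (α v j * z) • ρ k σ⁻¹))
    (hB0 : ∀ k, ∀ v, (B k v).eval (((nm F v : ℕ) : ℂ) ^ (-(w + 1 + τ k * I : ℂ))) ≠ 0)
    (L : κ → ℂ → ℂ)
    (hL : ∀ k, ∀ s : ℂ, w + 1 < s.re →
      L k s = ∏' v, ((B k v).eval (((nm F v : ℕ) : ℂ) ^ (-s)))⁻¹)

theorem RZ_bound (k : κ) (t : ℝ) (σ : HeightOneSpectrum (𝓞 F) → GK F)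
    (v : HeightOneSpectrum (𝓞 F)) : ‖RZ U ρ hρ σ k t v‖ ≤ n k := by
  unfold RZ
  rw [norm_mul, norm_zz, mul_one]
  exact norm_char_le U (ρ k) (hρ k) _

include hα hB hB0 hL in
/-- the sizes are the correlations of the traces with the characters -/
theorem xc_corr (σ : HeightOneSpectrum (𝓞 F) → GK F) (hσ : ∀ v, IsFrob v (σ v)) (k : κ) :
    Tendsto (fun ε : ℝ => (EP (nm F) ε fun v => (trc w α v * RZ U ρ hρ σ k (τ k) v).re) / lam ε -
      xs w τ L k ε) (𝓝[>] 0) (𝓝 0) :=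
  (size_corrC w α hα U (ρ k) (hρ k) (τ k) (B k) (hB k) (hB0 k) (L k) (hL k) σ hσ).2

theorem mul_bound (k : κ) (t : ℝ) (σ : HeightOneSpectrum (𝓞 F) → GK F)
    (v : HeightOneSpectrum (𝓞 F)) :
    |(trc w α v * RZ U ρ hρ σ k t v).re| ≤ b * n k := by
  refine (Complex.abs_re_le_norm _).trans ?_
  rw [norm_mul]
  exact mul_le_mul (norm_trc_le w α v) (RZ_bound U ρ hρ k t σ v) (norm_nonneg _)
    (Nat.cast_nonneg _)

include hα hU hρ hB hB0 hL in
/-- the sizes are bounded -/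
theorem xc_bdd [Fintype κ] : ∃ Y : ℝ, ∀ k, ∀ᶠ ε : ℝ in 𝓝[>] 0, |xs w τ L k ε| ≤ Y := by
  choose σ hσ using exists_isFrob (F := F)
  refine ⟨∑ k, (2 * (b * n k : ℝ) + 1), fun k => ?_⟩
  have h1 := xc_corr w α hα U ρ hρ τ B hB hB0 L hL σ hσ k
  have h2 := (Metric.tendsto_nhds.1 h1) 1 one_pos
  have h3 := EP_abs (F := F) (φ := fun v => (trc w α v * RZ U ρ hρ σ k (τ k) v).re)
    (b := b * n k) (mul_bound w α U ρ hρ k (τ k) σ)
  filter_upwards [h2, h3] with ε h4 h5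
  rw [Real.dist_eq, sub_zero] at h4
  have h6 := abs_sub_abs_le_abs_sub (xs w τ L k ε)
    ((EP (nm F) ε fun v => (trc w α v * RZ U ρ hρ σ k (τ k) v).re) / lam ε)
  rw [abs_sub_comm] at h6
  have h7 : (2 * (b * n k : ℝ) + 1) ≤ ∑ k, (2 * (b * n k : ℝ) + 1) :=
    Finset.single_le_sum (f := fun k => (2 * (b * n k : ℝ) + 1)) (fun k _ => by positivity)
      (Finset.mem_univ k)
  linarith

include hα hU hρ hB hB0 hL in
/-- **The Gram inequality**, with a bound for the second moment. -/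
theorem gram_mainC [Fintype κ] {β : ℝ} (hβ : 0 ≤ β)
    (hsec : ∃ C : ℝ, ∀ᶠ ε : ℝ in 𝓝[>] 0, (EP (nm F) ε fun v => ‖trc w α v‖ ^ 2) ≤ β * LL ε + C)
    (C : ℝ) {η : ℝ} (hη : 0 < η) :
    ∀ᶠ ε : ℝ in 𝓝[>] 0, ∀ c : κ → ℝ, (∀ k, |c k| ≤ C) →
      (∑ k, c k * xs w τ L k ε) ^ 2 ≤ β * (∑ k, ∑ l, c k * c l * hd ρ τ k l) + η := by
  choose σ hσ using exists_isFrob (F := F)
  obtain ⟨p0⟩ := prime0 (F := F)
  obtain ⟨Y, hY⟩ := xc_bdd w α hα U hU ρ hρ τ B hB hB0 L hL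
  have h := gramC (normSys (F := F)) p0 Finset.univ (trc w α)
    (fun k => RZ U ρ hρ σ k (τ k)) (b := b) (β := β) (norm_trc_le w α) (fun k => (n k : ℝ))
    (fun k v => RZ_bound U ρ hρ k (τ k) σ v) hβ (fun δ hδ => sec_lamC hsec hδ) (hd ρ τ)
    (fun k _ l _ => (has_hd U ρ hρ hU σ hσ τ k l).2) (xs w τ L)
    (fun k _ => xc_corr w α hα U ρ hρ τ B hB hB0 L hL σ hσ k) (fun k _ => hY k) C hη
  filter_upwards [h] with ε h1 c hc
  exact h1 c fun k _ => hc k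

end

section
variable {F : Type} [Field F] [NumberField F]

/-- the density of the primes which split completely, on the scale `lam` -/
theorem has_split (U : Subgroup (GK F)) [U.Normal] (hU : IsOpen (U : Set (GK F)))
    [Finite (GK F ⧸ U)] (σ : HeightOneSpectrum (𝓞 F) → GK F) (hσ : ∀ v, IsFrob v (σ v)) :
    ∃ δ : ℝ, 0 < δ ∧ Tendsto (fun ε : ℝ => (EP (nm F) ε fun v =>
      open scoped Classical in if σ v ∈ U then (1 : ℝ) else 0) / lam ε) (𝓝[>] 0) (𝓝 δ) := by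
  classical
  let _ : Fintype (GK F ⧸ U) := Fintype.ofFinite _
  have h := equi_zero U hU (fun q => if q = 1 then (1 : ℂ) else 0) (fun a x => by
    have : x * a * x⁻¹ = 1 ↔ a = 1 := by
      constructor
      · intro h
        have h1 : a = x⁻¹ * (x * a * x⁻¹) * x := by group
        rw [h1, h]
        group
      · rintro rfl
        group
    simp only [this]) σ hσ
  refine ⟨avR U fun q => |(if q = 1 then (1 : ℂ) else 0).re|, ?_, h.congr fun ε => ?_⟩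
  · unfold avR
    rw [finsum_eq_sum_of_fintype]
    refine mul_pos ?_ ?_
    · have : 0 < Nat.card (GK F ⧸ U) := Nat.card_pos
      positivity
    · refine Finset.sum_pos' (fun q _ => abs_nonneg _) ⟨1, Finset.mem_univ _, ?_⟩
      simp
  · congr 2
    funext v
    have h2 : zz 0 v = 1 := by
      unfold zz
      simp
    rw [h2, mul_one]
    have h3 : ((QuotientGroup.mk (σ v) : GK F ⧸ U) = 1) ↔ σ v ∈ U := QuotientGroup.eq_one_iff _
    by_cases h4 : σ v ∈ U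
    · rw [if_pos (h3.2 h4), if_pos h4]
      simp
    · rw [if_neg (fun h => h4 (h3.1 h)), if_neg h4]
      simp

end

section
variable {F : Type} [Field F] [NumberField F] {b : ℕ} (w : ℝ)
    (α : HeightOneSpectrum (𝓞 F) → Fin b → ℂ)
    (hα : ∀ᶠ v in cofinite, ∀ j, ‖α v j‖ = (nm F v : ℝ) ^ w)
    {κ : Type*} [Fintype κ] {n : κ → ℕ}
    (ρ : ∀ k, Representation ℂ (GK F) (Fin (n k) → ℂ))
    (hopen : ∀ k, ∃ U : Subgroup (GK F), IsOpen (U : Set (GK F)) ∧ ∀ u ∈ U, ρ k u = 1)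
    (τ : κ → ℝ) (B : κ → HeightOneSpectrum (𝓞 F) → ℂ[X])
    (hB : ∀ k, ∀ᶠ v in cofinite, ∀ σ : GK F, IsFrob v σ → ∀ z : ℂ,
      (B k v).eval z = ∏ j, LinearMap.det (1 - (α v j * z) • ρ k σ⁻¹))
    (hB0 : ∀ k, ∀ v, (B k v).eval (((nm F v : ℕ) : ℂ) ^ (-(w + 1 + τ k * I : ℂ))) ≠ 0)
    (L : κ → ℂ → ℂ)
    (hL : ∀ k, ∀ s : ℂ, w + 1 < s.re →
      L k s = ∏' v, ((B k v).eval (((nm F v : ℕ) : ℂ) ^ (-s)))⁻¹)

include hα hopen hB hB0 hL in
theorem neC (k : κ) : ∀ᶠ ε : ℝ in 𝓝[>] 0, L k (w + 1 + τ k * I + ε) ≠ 0 := by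
  obtain ⟨U, hUn, hU, hρ⟩ := exists_U ρ hopen
  have hfin : Finite (GK F ⧸ U) := Subgroup.quotient_finite_of_isOpen U hU
  choose σ hσ using exists_isFrob (F := F)
  exact (size_corrC w α hα U (ρ k) (hρ k) (τ k) (B k) (hB k) (hB0 k) (L k) (hL k) σ hσ).1

include hα hopen hB hB0 hL in
theorem gram_allC {β : ℝ} (hβ : 0 ≤ β)
    (hsec : ∃ C : ℝ, ∀ᶠ ε : ℝ in 𝓝[>] 0, (EP (nm F) ε fun v => ‖trc w α v‖ ^ 2) ≤ β * LL ε + C)
    (C : ℝ) {η : ℝ} (hη : 0 < η) :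
    ∀ᶠ ε : ℝ in 𝓝[>] 0, ∀ c : κ → ℝ, (∀ k, |c k| ≤ C) →
      (∑ k, c k * xs w τ L k ε) ^ 2 ≤ β * (∑ k, ∑ l, c k * c l * hd ρ τ k l) + η := by
  obtain ⟨U, hUn, hU, hρ⟩ := exists_U ρ hopen
  have hfin : Finite (GK F ⧸ U) := Subgroup.quotient_finite_of_isOpen U hU
  exact gram_mainC w α hα U hU ρ hρ τ B hB hB0 L hL hβ hsec C hη

include hα hopen hB hB0 hL in
theorem disj_allC {β : ℝ} (hβ : 0 ≤ β)
    (hsec : ∃ C : ℝ, ∀ᶠ ε : ℝ in 𝓝[>] 0, (EP (nm F) ε fun v => ‖trc w α v‖ ^ 2) ≤ β * LL ε + C)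
    (hirr : ∀ k, (ρ k).IsIrreducible)
    (hne : ∀ k l, k ≠ l → τ k = τ l → IsEmpty ((ρ k).Equiv (ρ l))) {η : ℝ} (hη : 0 < η) :
    ∀ᶠ ε : ℝ in 𝓝[>] 0, ∑ k, xs w τ L k ε ^ 2 ≤ β + η := by
  classical
  obtain ⟨U, hUn, hU, hρ⟩ := exists_U ρ hopen
  have hfin : Finite (GK F ⧸ U) := Subgroup.quotient_finite_of_isOpen U hU
  obtain ⟨Y, hY⟩ := xc_bdd w α hα U hU ρ hρ τ B hB hB0 L hL
  have h := disjoint_of_gram Finset.univ (hd ρ τ) (Real.sqrt β) (xs w τ L)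
    (fun k _ l _ hkl => hd_ne ρ τ (hirr k) (hirr l) (hne k l hkl))
    (fun k _ => Or.inr (hd_self ρ τ (hirr k)).ge) (C0 := Y) (fun k _ => hY k)
    (fun C η' hη' => by
      filter_upwards [gram_allC w α hα ρ hopen τ B hB hB0 L hL hβ hsec C hη'] with ε h1 c hc
      rw [Real.sq_sqrt hβ]
      exact h1 c fun k => hc k (Finset.mem_univ k)) hη
  filter_upwards [h] with ε h1
  rw [Real.sq_sqrt hβ] at h1
  refine le_trans (le_of_eq (Finset.sum_congr rfl fun k _ => ?_)) h1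
  rw [hd_self ρ τ (hirr k), div_one]

include hα hopen hB hB0 hL in
/-- **The strict inequality** for irreducible representations of dimension larger than the number
of eigenvalues. -/
theorem strictC
    (hsec : ∃ C : ℝ, ∀ᶠ ε : ℝ in 𝓝[>] 0, (EP (nm F) ε fun v => ‖trc w α v‖ ^ 2) ≤ 1 * LL ε + C)
    {k : κ} (hk : (ρ k).IsIrreducible) (h3 : b < n k) :
    ∃ A : ℝ, A < 1 ∧ ∀ᶠ ε : ℝ in 𝓝[>] 0, |xs w τ L k ε| ≤ A := by
  classical
  obtain ⟨U, hUn, hU, hρ⟩ := exists_U ρ hopen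
  have hfin : Finite (GK F ⧸ U) := Subgroup.quotient_finite_of_isOpen U hU
  choose σ hσ using exists_isFrob (F := F)
  obtain ⟨δ, hδ, hsp⟩ := has_split U hU σ hσ
  have hN := normSys (F := F)
  set t : HeightOneSpectrum (𝓞 F) → ℂ := trc w α with ht
  set z : HeightOneSpectrum (𝓞 F) → ℂ := RZ U ρ hρ σ k (τ k) with hz
  have htb : ∀ v, ‖t v‖ ≤ b := norm_trc_le w α
  have hzb : ∀ v, ‖z v‖ ≤ n k := RZ_bound U ρ hρ k (τ k) σ
  have hz1 : ∀ v, σ v ∈ U → ‖z v‖ = n k := by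
    intro v hv
    rw [hz]
    unfold RZ
    rw [norm_mul, norm_zz, mul_one]
    have e1 : (chF U ρ hρ k).f (QuotientGroup.mk (σ v)) = (ρ k).character (σ v)⁻¹ := rfl
    rw [e1]
    have e2 : ρ k (σ v)⁻¹ = 1 := hρ k _ (U.inv_mem hv)
    unfold Representation.character
    rw [e2, LinearMap.trace_one, Module.finrank_fin_fun]
    simp
  have hzsq : Tendsto (fun ε : ℝ => (EP (nm F) ε fun v => ‖z v‖ ^ 2) / lam ε) (𝓝[>] 0) (𝓝 1) := by
    have h := (has_hd U ρ hρ hU σ hσ τ k k).2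
    rw [hd_self ρ τ hk] at h
    refine h.congr fun ε => ?_
    congr 2
    funext v
    rw [Complex.mul_conj, Complex.ofReal_re, Complex.normSq_eq_norm_sq]
  have hcorr := xc_corr w α hα U ρ hρ τ B hB hB0 L hL σ hσ k
  refine ⟨1 - δ / 8, by linarith, ?_⟩
  filter_upwards [sec_lamC hsec (δ := δ / 8) (by positivity),
    hzsq.eventually_lt_const (by linarith : (1 : ℝ) < 1 + δ / 8),
    hsp.eventually_const_lt (by linarith : δ - δ / 8 < δ),
    (Metric.tendsto_nhds.1 hcorr) (δ / 8) (by positivity),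
    lam_tendsto.eventually_gt_atTop 0, self_mem_nhdsWithin] with ε h1 h2 h4 h5 h6 h7
  have hε : (0 : ℝ) < ε := h7
  rw [Real.dist_eq, sub_zero] at h5
  -- pointwise inequality
  have hb0 : (0 : ℝ) ≤ b := Nat.cast_nonneg _
  have hbn : (b : ℝ) + 1 ≤ n k := by exact_mod_cast h3
  have hpt : ∀ v, |(t v * z v).re| + (1 / 2) * (if σ v ∈ U then (1 : ℝ) else 0) ≤
      (1 / 2) * ‖t v‖ ^ 2 + (1 / 2) * ‖z v‖ ^ 2 := by
    intro v
    have q1 : |(t v * z v).re| ≤ ‖t v‖ * ‖z v‖ := by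
      rw [← norm_mul]
      exact Complex.abs_re_le_norm _
    split_ifs with hv
    · have q2 := hz1 v hv
      have q3 : 1 ≤ ‖z v‖ - ‖t v‖ := by
        rw [q2]
        have := htb v
        linarith
      nlinarith [mul_self_nonneg (‖z v‖ - ‖t v‖ - 1)]
    · nlinarith [sq_nonneg (‖z v‖ - ‖t v‖)]
  have hs1 : Summable fun v => |(t v * z v).re| * (nm F v : ℝ) ^ (-(1 + ε)) :=
    summable_EP hN hε (B := b * n k) fun v => by
      rw [abs_abs]
      exact mul_bound w α U ρ hρ k (τ k) σ v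
  have hbt : ∀ v, |‖t v‖ ^ 2| ≤ (b : ℝ) ^ 2 := fun v => by
    rw [abs_of_nonneg (sq_nonneg _)]
    exact pow_le_pow_left₀ (norm_nonneg _) (htb v) 2
  have hbz : ∀ v, |‖z v‖ ^ 2| ≤ (n k : ℝ) ^ 2 := fun v => by
    rw [abs_of_nonneg (sq_nonneg _)]
    exact pow_le_pow_left₀ (norm_nonneg _) (hzb v) 2
  have hbi : ∀ v, |(if σ v ∈ U then (1 : ℝ) else 0)| ≤ 1 := fun v => by
    split_ifs <;> simp
  have key : |EP (nm F) ε fun v => (t v * z v).re| + (1 / 2) * (EP (nm F) ε fun v =>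
      if σ v ∈ U then (1 : ℝ) else 0) ≤
      (1 / 2) * (EP (nm F) ε fun v => ‖t v‖ ^ 2) + (1 / 2) * EP (nm F) ε fun v => ‖z v‖ ^ 2 := by
    have q1 : |EP (nm F) ε fun v => (t v * z v).re| ≤ EP (nm F) ε fun v => |(t v * z v).re| :=
      Pool.Agent.W353.L1.EP_abs_le (B := b * n k) (fun v => by
        rw [abs_abs]
        exact mul_bound w α U ρ hρ k (τ k) σ v) (fun v => le_rfl) hε
    have q2 : (EP (nm F) ε fun v => |(t v * z v).re| +
        (1 / 2) * (if σ v ∈ U then (1 : ℝ) else 0)) ≤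
        EP (nm F) ε fun v => (1 / 2) * ‖t v‖ ^ 2 + (1 / 2) * ‖z v‖ ^ 2 := by
      refine Pool.Agent.W353.L1.EP_mono (B := b * n k + 1 / 2)
        (B' := 1 / 2 * (b : ℝ) ^ 2 + 1 / 2 * (n k : ℝ) ^ 2)
        (fun v => ?_) (fun v => ?_) hpt hε
      · refine (abs_add_le _ _).trans (add_le_add ?_ ?_)
        · rw [abs_abs]
          exact mul_bound w α U ρ hρ k (τ k) σ v
        · rw [abs_mul]
          have := hbi v
          rw [abs_of_pos (by norm_num : (0 : ℝ) < 1 / 2)]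
          linarith
      · refine (abs_add_le _ _).trans (add_le_add ?_ ?_)
        · rw [abs_mul, abs_of_pos (by norm_num : (0 : ℝ) < 1 / 2)]
          exact mul_le_mul_of_nonneg_left (hbt v) (by norm_num)
        · rw [abs_mul, abs_of_pos (by norm_num : (0 : ℝ) < 1 / 2)]
          exact mul_le_mul_of_nonneg_left (hbz v) (by norm_num)
    rw [EP_add hN hε (B := b * n k) (B' := 1 / 2) (fun v => by
        rw [abs_abs]
        exact mul_bound w α U ρ hρ k (τ k) σ v) (fun v => by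
        rw [abs_mul, abs_of_pos (by norm_num : (0 : ℝ) < 1 / 2)]
        have := hbi v
        linarith), EP_add hN hε (B := 1 / 2 * (b : ℝ) ^ 2) (B' := 1 / 2 * (n k : ℝ) ^ 2)
        (fun v => by
          rw [abs_mul, abs_of_pos (by norm_num : (0 : ℝ) < 1 / 2)]
          exact mul_le_mul_of_nonneg_left (hbt v) (by norm_num))
        (fun v => by
          rw [abs_mul, abs_of_pos (by norm_num : (0 : ℝ) < 1 / 2)]
          exact mul_le_mul_of_nonneg_left (hbz v) (by norm_num)),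
      EP_const_mul, EP_const_mul, EP_const_mul] at q2
    linarith
  set X := (EP (nm F) ε fun v => (t v * z v).re) / lam ε with hX
  have hXle : |X| ≤ 1 + δ / 8 - (1 / 2) * (δ - δ / 8) := by
    have q1 := div_le_div_of_nonneg_right key h6.le
    rw [add_div, add_div, ← abs_of_pos h6, ← abs_div, abs_of_pos h6, mul_div_assoc,
      mul_div_assoc, mul_div_assoc] at q1
    rw [hX]
    have q2 : (1 / 2 : ℝ) * ((EP (nm F) ε fun v => ‖t v‖ ^ 2) / lam ε) ≤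
        1 / 2 * (1 + δ / 8) := mul_le_mul_of_nonneg_left h1 (by norm_num)
    have q3 : (1 / 2 : ℝ) * ((EP (nm F) ε fun v => ‖z v‖ ^ 2) / lam ε) ≤
        1 / 2 * (1 + δ / 8) := mul_le_mul_of_nonneg_left h2.le (by norm_num)
    have q4 : (1 / 2 : ℝ) * (δ - δ / 8) ≤ 1 / 2 * ((EP (nm F) ε fun v =>
      if σ v ∈ U then (1 : ℝ) else 0) / lam ε) := mul_le_mul_of_nonneg_left h4.le (by norm_num)
    linarith
  have h8 : |xs w τ L k ε| ≤ |X| + δ / 8 := by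
    have h9 := abs_sub_abs_le_abs_sub (xs w τ L k ε) X
    rw [abs_sub_comm] at h9
    linarith
  linarith

end

end Pool.Agent.X288.CX
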