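import Pool.Agent.X288.CX.Newf

/-! The second moment over a number field. -/

set_option autoImplicit false

namespace Pool.Agent.X288.CX

open Complex Filter Topology ComplexConjugate NumberField IsDedekindDomain Asymptotics
  Pool.Agent.W401.Cheb Pool.Agent.W540.BE Pool.Agent.W353.L1 Pool.Agent.W353.NF
open Pool.Agent.W353.TP (HX sysH LL LL_tendsto E_H EH_eq card_hom_le bdd_isLittleO lam0_sub)
open Pool.Agent.H341R2 (lam lam_tendsto sysK)
open Pool.Agent.H921R2.TatePole (kerPrime)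
open MatrixGroups CongruenceSubgroup

section
set_option linter.unusedSectionVars false
variable {F : Type} [Field F] [NumberField F]

/-- the second moment over `F`, for functions which are bounded by `R s_p` at almost all
primes of degree one -/
theorem EP_secG {s : Nat.Primes → ℝ} {b3 R : ℝ} (hs0 : ∀ p, 0 ≤ s p) {b2 : ℝ}
    (hs2 : ∀ p, s p ≤ b2) (hR : 0 ≤ R)
    (hsec : ∃ C : ℝ, ∀ᶠ ε : ℝ in 𝓝[>] 0, Pool.Agent.H341R2.E ε s ≤ Real.log (1 / ε) + C)
    {φ : HeightOneSpectrum (𝓞 F) → ℝ} (h0 : ∀ v, 0 ≤ φ v) (h4 : ∀ v, φ v ≤ b3) (M : ℕ)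
    (hM : ∀ p : Nat.Primes, M < (p : ℕ) → ∀ u : 𝓞 F →+* ZMod (p : ℕ),
      φ (kerPrime p u).1.1 ≤ R * s p) :
    ∃ C : ℝ, ∀ᶠ ε : ℝ in 𝓝[>] 0, EP (nm F) ε φ ≤ R * Module.finrank ℚ F * LL ε + C := by
  classical
  obtain ⟨p0⟩ := Pool.Agent.X288.AR.prime0 (F := F)
  have hb3 : 0 ≤ b3 := (h0 p0).trans (h4 p0)
  obtain ⟨C, hC⟩ := hsec
  set D : ℝ := (Module.finrank ℚ F : ℝ) with hD
  have hD0 : 0 ≤ D := Nat.cast_nonneg _
  have hfin : {p : Nat.Primes | (p : ℕ) ≤ M}.Finite :=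
    (Set.finite_Iic M).preimage (Subtype.val_injective.injOn)
  set S : Finset Nat.Primes := hfin.toFinset with hS
  have hφb : ∀ v, |φ v| ≤ b3 := fun v => by
    rw [abs_of_nonneg (h0 v)]
    exact h4 v
  refine ⟨R * D * C + S.card * (D * b3) + b3 * Module.finrank ℚ F *
    Pool.Agent.H921R2.TatePole.C0, ?_⟩
  filter_upwards [hC, self_mem_nhdsWithin] with ε h1 h2
  have hε : (0 : ℝ) < ε := h2
  have h3 := E_H hφb hε
  have h3' := (abs_le.1 h3).2
  rw [EH_eq hε (fun x => hφb _)] at h3'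
  have htb : ∀ p : Nat.Primes, |s p| ≤ b2 := by
    intro p
    rw [abs_of_nonneg (hs0 p)]
    exact hs2 p
  have hs2' := Pool.Agent.Y722.EP.summable_E (φ := s) htb hε
  have hub : ∀ p : Nat.Primes, ∑ u : 𝓞 F →+* ZMod (p : ℕ), φ (kerPrime p u).1.1 ≤ D * b3 := by
    intro p
    refine (Finset.sum_le_card_nsmul _ _ b3 fun u _ => h4 _).trans ?_
    rw [nsmul_eq_mul, Finset.card_univ]
    refine mul_le_mul_of_nonneg_right ?_ hb3
    rw [hD]
    exact_mod_cast card_hom_le (K := F) p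
  have hu0 : ∀ p : Nat.Primes, 0 ≤ ∑ u : 𝓞 F →+* ZMod (p : ℕ), φ (kerPrime p u).1.1 :=
    fun p => Finset.sum_nonneg fun u _ => h0 _
  have hs1 := Pool.Agent.Y722.EP.summable_E (B := D * b3)
    (φ := fun p : Nat.Primes => ∑ u : 𝓞 F →+* ZMod (p : ℕ), φ (kerPrime p u).1.1) (fun p => by
      rw [abs_of_nonneg (hu0 p)]; exact hub p) hε
  have hle : ∀ p : Nat.Primes, (∑ u : 𝓞 F →+* ZMod (p : ℕ), φ (kerPrime p u).1.1) *
      ((p : ℕ) : ℝ) ^ (-(1 + ε)) ≤
      (R * D) * (s p * ((p : ℕ) : ℝ) ^ (-(1 + ε))) + (if p ∈ S then D * b3 else 0) := by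
    intro p
    have hw0 : 0 ≤ ((p : ℕ) : ℝ) ^ (-(1 + ε)) := by positivity
    have hw1 : ((p : ℕ) : ℝ) ^ (-(1 + ε)) ≤ 1 :=
      Real.rpow_le_one_of_one_le_of_nonpos (by exact_mod_cast p.2.one_le) (by linarith)
    have hsp := hs0 p
    by_cases hp : p ∈ S
    · rw [if_pos hp]
      have q1 : (∑ u : 𝓞 F →+* ZMod (p : ℕ), φ (kerPrime p u).1.1) *
          ((p : ℕ) : ℝ) ^ (-(1 + ε)) ≤ D * b3 := by
        calc _ ≤ (D * b3) * 1 := mul_le_mul (hub p) hw1 hw0 (by positivity)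
          _ = D * b3 := mul_one _
      have q2 : 0 ≤ (R * D) * (s p * ((p : ℕ) : ℝ) ^ (-(1 + ε))) := by positivity
      linarith
    · rw [if_neg hp, add_zero, ← mul_assoc]
      refine mul_le_mul_of_nonneg_right ?_ hw0
      have hp' : M < (p : ℕ) := by
        by_contra h
        apply hp
        rw [hS, Set.Finite.mem_toFinset]
        exact not_lt.1 h
      refine (Finset.sum_le_card_nsmul _ _ (R * s p) fun u _ => hM p hp' u).trans ?_
      rw [nsmul_eq_mul, Finset.card_univ]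
      have q3 : (Fintype.card (𝓞 F →+* ZMod (p : ℕ)) : ℝ) ≤ D := by
        rw [hD]
        exact_mod_cast card_hom_le (K := F) p
      calc (Fintype.card (𝓞 F →+* ZMod (p : ℕ)) : ℝ) * (R * s p) ≤ D * (R * s p) :=
            mul_le_mul_of_nonneg_right q3 (mul_nonneg hR hsp)
        _ = R * D * s p := by ring
  have hs3 : Summable fun p : Nat.Primes => if p ∈ S then D * b3 else 0 :=
    summable_of_ne_finset_zero (s := S) fun p hp => if_neg hp
  unfold Pool.Agent.H341R2.E at h1 h3'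
  have h4' := hs1.tsum_le_tsum hle ((hs2'.mul_left (R * D)).add hs3)
  rw [(hs2'.mul_left (R * D)).tsum_add hs3, tsum_mul_left,
      tsum_eq_sum (s := S) fun p hp => if_neg hp,
      Finset.sum_congr rfl fun p hp => if_pos hp, Finset.sum_const, nsmul_eq_mul] at h4'
  have h5 := mul_le_mul_of_nonneg_left h1 (mul_nonneg hR hD0)
  have e5 : LL ε = Real.log (1 / ε) := rfl
  rw [e5, EP_eq]
  have e6 : R * D * (Real.log (1 / ε) + C) = R * D * Real.log (1 / ε) + R * D * C := by ring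
  rw [e6] at h5
  have h7 := h4'.trans (add_le_add h5 (le_refl ((S.card : ℝ) * (D * b3))))
  have h8 := (sub_le_iff_le_add.1 h3').trans (add_le_add_right h7 _)
  refine h8.trans (le_of_eq ?_)
  ring

end

section
variable {N : ℕ} [NeZero N] {k : ℤ} {ψ : DirichletCharacter ℂ N}
  {f : CuspForm (Gamma1 N : Subgroup (GL (Fin 2) ℝ)) k}

/-- the second moment over the rationals, truncated -/
theorem E_newf (hk : 1 ≤ k) (hf : Newf N k ψ f) (b2 : ℝ) : ∃ C : ℝ, ∀ᶠ ε : ℝ in 𝓝[>] 0,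
    Pool.Agent.H341R2.E ε (fun p => min (‖W388.lamC f p‖ ^ 2) b2) ≤ Real.log (1 / ε) + C := by
  obtain ⟨C, hC⟩ := sec_primes hk hf
  by_cases hb : 0 ≤ b2
  · refine ⟨C, ?_⟩
    filter_upwards [self_mem_nhdsWithin, Ioc_mem_nhdsGT (zero_lt_one' ℝ)] with ε h1 h2
    have hε : (0 : ℝ) < ε := h1
    obtain ⟨hs, hle⟩ := hC ε hε h2.2
    refine le_trans ?_ hle
    unfold Pool.Agent.H341R2.E
    refine Summable.tsum_le_tsum (fun p => ?_) ?_ hs
    · exact mul_le_mul_of_nonneg_right (min_le_left _ _) (by positivity)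
    · exact Pool.Agent.Y722.EP.summable_E (B := b2) (φ := fun p : Nat.Primes =>
        min (‖W388.lamC f p‖ ^ 2) b2) (fun p => by
        rw [abs_of_nonneg (le_min (sq_nonneg _) hb)]
        exact min_le_right _ _) hε
  · push Not at hb
    refine ⟨0, ?_⟩
    filter_upwards [self_mem_nhdsWithin, Ioc_mem_nhdsGT (zero_lt_one' ℝ)] with ε h1 h2
    have hε : (0 : ℝ) < ε := h1
    have h3 : 0 ≤ Real.log (1 / ε) := Real.log_nonneg (by
      rw [le_div_iff₀ hε, one_mul]; exact h2.2)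
    have h4 : Pool.Agent.H341R2.E ε (fun p => min (‖W388.lamC f p‖ ^ 2) b2) ≤ 0 := by
      unfold Pool.Agent.H341R2.E
      refine tsum_nonpos fun p => ?_
      exact mul_nonpos_of_nonpos_of_nonneg ((min_le_right _ _).trans hb.le) (by positivity)
    linarith

end

end Pool.Agent.X288.CX
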