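import Pool.Agent.X288.CX.Abs
import Pool.Agent.X288.CX.Sec
import Pool.Agent.X288.L2.Edge

/-! Tensor products of a motive over a number field with a newform, and all Artin twists. -/

set_option autoImplicit false
set_option linter.unusedSectionVars false

namespace Pool.Agent.X288.CX

open Complex Filter Topology ComplexConjugate NumberField IsDedekindDomain Polynomial
  Pool.Agent.W401.Cheb Pool.Agent.W540.BE Pool.Agent.W353.L1 Asymptotics
open Pool.Agent.H341R2 (lam lam_tendsto sysK)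
open Pool.Agent.H921R2.TatePole (kerPrime below deg nm_eq two_le_nm)
open Pool.Agent.W353.TP (LL)
open Pool.Agent.X288.AR (RZ hd has_hd hd_self hd_ne exists_U prime0 EP_abs EP_cs)
open MatrixGroups CongruenceSubgroup
open UpperHalfPlane hiding I

/-- numbers with given sum and product -/
theorem satake {lam ψ : ℂ} (hψ : ‖ψ‖ = 1) (hc : conj lam = conj ψ * lam) (hl : ‖lam‖ ≤ 2) :
    ∃ x y : ℂ, x + y = lam ∧ x * y = ψ ∧ ‖x‖ = 1 ∧ ‖y‖ = 1 := by
  obtain ⟨θ, hθ⟩ : ∃ θ : ℂ, ψ = θ ^ 2 := by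
    obtain ⟨θ, hθ⟩ := IsAlgClosed.exists_pow_nat_eq ψ (n := 2) (by norm_num)
    exact ⟨θ, hθ.symm⟩
  have hθ1 : ‖θ‖ = 1 := by
    have h1 : ‖θ‖ ^ 2 = 1 := by rw [← norm_pow, ← hθ, hψ]
    nlinarith [norm_nonneg θ]
  have hθc : θ * conj θ = 1 := by
    rw [Complex.mul_conj, Complex.normSq_eq_norm_sq, hθ1]
    norm_num
  set μ : ℂ := lam * conj θ with hμ
  have hμc : conj μ = μ := by
    rw [hμ, map_mul, Complex.conj_conj, hc, hθ, map_pow]
    calc (conj θ) ^ 2 * lam * θ = lam * conj θ * (θ * conj θ) := by ring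
      _ = _ := by rw [hθc, mul_one]
  obtain ⟨m, hm⟩ := Complex.conj_eq_iff_real.1 hμc
  have hm2 : |m| ≤ 2 := by
    have h1 : ‖μ‖ ≤ 2 := by
      rw [hμ, norm_mul, RCLike.norm_conj, hθ1, mul_one]
      exact hl
    rw [hm, Complex.norm_real] at h1
    exact h1
  have hlam : lam = θ * m := by
    rw [← hm, hμ]
    calc lam = lam * (θ * conj θ) := by rw [hθc, mul_one]
      _ = _ := by ring
  set φ := Real.arccos (m / 2) with hφ
  have hcos : Real.cos φ = m / 2 := by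
    rw [hφ, Real.cos_arccos]
    · linarith [(abs_le.1 hm2).1]
    · linarith [(abs_le.1 hm2).2]
  have hn : ∀ x : ℝ, ‖cexp (x * I)‖ = 1 := Complex.norm_exp_ofReal_mul_I
  refine ⟨θ * cexp (φ * I), θ * cexp (-(φ * I)), ?_, ?_, ?_, ?_⟩
  · rw [← mul_add, hlam]
    congr 1
    have h1 : cexp (φ * I) + cexp (-(φ * I)) = 2 * Complex.cos φ := by
      rw [Complex.cos, neg_mul]
      ring
    rw [h1, ← Complex.ofReal_cos, hcos]
    push_cast
    ring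
  · rw [hθ, show θ * cexp (φ * I) * (θ * cexp (-(φ * I))) =
      θ ^ 2 * (cexp (φ * I) * cexp (-(φ * I))) by ring, ← Complex.exp_add]
    simp
  · rw [norm_mul, hθ1, hn, one_mul]
  · rw [norm_mul, hθ1, one_mul]
    have := hn (-φ)
    rw [← this]
    congr 2
    push_cast
    ring

section
variable {N : ℕ} {k : ℤ} {ψ : DirichletCharacter ℂ N}
  {f : CuspForm (Gamma1 N : Subgroup (GL (Fin 2) ℝ)) k}

/-- the Satake parameters of the newform -/
theorem exists_sat [NeZero N] (hf : Newf N k ψ f)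
    (hbd : ∀ p : ℕ, p.Prime → ¬ p ∣ N → ‖W388.lamC f p‖ ≤ 2) :
    ∃ β : ℕ → Fin 2 → ℂ, ∀ p : ℕ, p.Prime → ¬ p ∣ N →
      (β p 0 + β p 1 = (qExpansion 1 f).coeff p ∧
        β p 0 * β p 1 = ψ (p : ZMod N) * (p : ℂ) ^ (k - 1)) ∧
      ∀ j, ‖β p j‖ = (p : ℝ) ^ (((k : ℝ) - 1) / 2) := by
  have h : ∀ p : ℕ, ∃ β : Fin 2 → ℂ, p.Prime → ¬ p ∣ N →
      (β 0 + β 1 = (qExpansion 1 f).coeff p ∧ β 0 * β 1 = ψ (p : ZMod N) * (p : ℂ) ^ (k - 1)) ∧
      ∀ j, ‖β j‖ = (p : ℝ) ^ (((k : ℝ) - 1) / 2) := by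
    intro p
    by_cases hp : p.Prime ∧ ¬ p ∣ N
    · obtain ⟨hp1, hpN⟩ := hp
      have hp0 : (0 : ℝ) < p := by exact_mod_cast hp1.pos
      have hψ : ‖ψ (p : ZMod N)‖ = 1 := by
        have hu : IsUnit (p : ZMod N) := (ZMod.isUnit_prime_iff_not_dvd hp1).2 hpN
        obtain ⟨u, hu⟩ := hu
        rw [← hu]
        exact ψ.unit_norm_eq_one u
      obtain ⟨x, y, h1, h2, h3, h4⟩ := satake hψ (lam_conj hf p hp1 hpN) (hbd p hp1 hpN)
      set P : ℝ := (p : ℝ) ^ (((k : ℝ) - 1) / 2) with hP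
      have hP0 : 0 < P := Real.rpow_pos_of_pos hp0 _
      have hPc : (P : ℂ) ≠ 0 := by exact_mod_cast hP0.ne'
      have hP2 : P ^ 2 = (p : ℝ) ^ (k - 1) := by
        rw [hP, ← Real.rpow_natCast, ← Real.rpow_mul hp0.le, ← Real.rpow_intCast]
        congr 1
        push_cast
        ring
      have hP2c : (P : ℂ) ^ 2 = (p : ℂ) ^ (k - 1) := by
        rw [← Complex.ofReal_pow, hP2]
        push_cast
        rfl
      refine ⟨![x * P, y * P], fun _ _ => ⟨⟨?_, ?_⟩, ?_⟩⟩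
      · simp only [Matrix.cons_val_zero, Matrix.cons_val_one]
        rw [← add_mul, h1]
        unfold W388.lamC
        rw [← hP, div_mul_cancel₀ _ hPc]
      · simp only [Matrix.cons_val_zero, Matrix.cons_val_one]
        rw [← hP2c, ← h2]
        ring
      · intro j
        fin_cases j
        · change ‖x * (P : ℂ)‖ = P
          rw [norm_mul, h3, one_mul, Complex.norm_real, Real.norm_eq_abs, abs_of_pos hP0]
        · change ‖y * (P : ℂ)‖ = P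
          rw [norm_mul, h4, one_mul, Complex.norm_real, Real.norm_eq_abs, abs_of_pos hP0]
    · exact ⟨fun _ => 0, fun h1 h2 => absurd ⟨h1, h2⟩ hp⟩
  choose β hβ using h
  exact ⟨β, hβ⟩

end

section
variable {F : Type} [Field F] [NumberField F] {R : ℕ}

/-- the eigenvalues on the tensor product -/
noncomputable def tw (α : HeightOneSpectrum (𝓞 F) → Fin R → ℂ) (β : ℕ → Fin 2 → ℂ)
    (v : HeightOneSpectrum (𝓞 F)) (j : Fin (R * 2)) : ℂ :=
  α v (finProdFinEquiv.symm j).1 * (β (below v : ℕ) (finProdFinEquiv.symm j).2) ^ deg v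

theorem prod_tw {M : Type*} [CommMonoid M] (g : Fin R → Fin 2 → M) :
    ∏ j : Fin (R * 2), g (finProdFinEquiv.symm j).1 (finProdFinEquiv.symm j).2 =
      ∏ i, (g i 0 * g i 1) := by
  rw [← Equiv.prod_comp (finProdFinEquiv (m := R) (n := 2))]
  simp only [Equiv.symm_apply_apply]
  rw [Fintype.prod_prod_type]
  exact Finset.prod_congr rfl fun i _ => Fin.prod_univ_two _

theorem sum_tw {M : Type*} [AddCommMonoid M] (g : Fin R → Fin 2 → M) :
    ∑ j : Fin (R * 2), g (finProdFinEquiv.symm j).1 (finProdFinEquiv.symm j).2 =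
      ∑ i, (g i 0 + g i 1) := by
  rw [← Equiv.sum_comp (finProdFinEquiv (m := R) (n := 2))]
  simp only [Equiv.symm_apply_apply]
  rw [Fintype.sum_prod_type]
  exact Finset.sum_congr rfl fun i _ => Fin.sum_univ_two _

variable {N : ℕ} [NeZero N] {k : ℤ} {ψ : DirichletCharacter ℂ N}
  {f : CuspForm (Gamma1 N : Subgroup (GL (Fin 2) ℝ)) k}
  {w : ℝ} {α : HeightOneSpectrum (𝓞 F) → Fin R → ℂ} {β : ℕ → Fin 2 → ℂ}

/-- almost all primes do not divide the level -/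
theorem ev_level : ∀ᶠ v : HeightOneSpectrum (𝓞 F) in cofinite, ¬ (below v : ℕ) ∣ N := by
  have hN : ((N : ℕ) : 𝓞 F) ≠ 0 := by exact_mod_cast (NeZero.ne N)
  have h := Pool.Agent.W540.BE.finite_mem_prime hN
  rw [Filter.eventually_cofinite]
  refine h.subset fun v hv => ?_
  simp only [Set.mem_ofPred_eq, not_not] at hv ⊢
  have h1 : ((below v : ℕ) : 𝓞 F) ∈ v.asIdeal := by
    have h2 : (((Ideal.absNorm v.asIdeal : ℕ)) : 𝓞 F) ∈ v.asIdeal := Ideal.absNorm_mem _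
    have h3 : Ideal.absNorm v.asIdeal = (below v : ℕ) ^ deg v := (nm_eq v).1
    rw [h3, Nat.cast_pow] at h2
    exact v.isPrime.mem_of_pow_mem _ h2
  obtain ⟨c, hc⟩ := hv
  rw [hc, Nat.cast_mul]
  exact v.asIdeal.mul_mem_right _ h1

theorem nm_rpow (v : HeightOneSpectrum (𝓞 F)) (x : ℝ) :
    (((below v : ℕ) : ℝ) ^ x) ^ deg v = (nm F v : ℝ) ^ x := by
  have h : (nm F v : ℝ) = ((below v : ℕ) : ℝ) ^ deg v := by
    have := (nm_eq v).1
    have e : nm F v = (below v : ℕ) ^ deg v := this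
    rw [e, Nat.cast_pow]
  have hp : (0 : ℝ) ≤ ((below v : ℕ) : ℝ) := Nat.cast_nonneg _
  rw [h, ← Real.rpow_natCast, ← Real.rpow_natCast, ← Real.rpow_mul hp, ← Real.rpow_mul hp, mul_comm]

theorem norm_tw (hα : ∀ᶠ v in cofinite, ∀ j, ‖α v j‖ = (nm F v : ℝ) ^ w)
    (hβ : ∀ p : ℕ, p.Prime → ¬ p ∣ N → ∀ j, ‖β p j‖ = (p : ℝ) ^ (((k : ℝ) - 1) / 2)) :
    ∀ᶠ v in cofinite, ∀ j, ‖tw α β v j‖ = (nm F v : ℝ) ^ (w + ((k : ℝ) - 1) / 2) := by
  filter_upwards [hα, ev_level (F := F) (N := N)] with v h1 h2 j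
  unfold tw
  rw [norm_mul, h1, norm_pow, hβ _ (below v).2 h2, nm_rpow,
    ← Real.rpow_add (by exact_mod_cast nm_pos v)]

/-- **the second moment** of the traces on the tensor product -/
theorem sec_tw (hk : 1 ≤ k) (hf : Newf N k ψ f)
    (hβ : ∀ p : ℕ, p.Prime → ¬ p ∣ N → β p 0 + β p 1 = (qExpansion 1 f).coeff p ∧
      ∀ j, ‖β p j‖ = (p : ℝ) ^ (((k : ℝ) - 1) / 2))
    (hbd : ∀ p : ℕ, p.Prime → ¬ p ∣ N → ‖W388.lamC f p‖ ≤ 2) :
    ∃ C : ℝ, ∀ᶠ ε : ℝ in 𝓝[>] 0,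
      (EP (nm F) ε fun v => ‖trc (w + ((k : ℝ) - 1) / 2) (tw α β) v‖ ^ 2) ≤
        ((R : ℝ) ^ 2 * Module.finrank ℚ F) * LL ε + C := by
  refine EP_secG (s := fun p => min (‖W388.lamC f p‖ ^ 2) 4)
    (b3 := ((R * 2 : ℕ) : ℝ) ^ 2) (R := (R : ℝ) ^ 2)
    (fun p => le_min (sq_nonneg _) (by norm_num)) (b2 := 4) (fun p => min_le_right _ _)
    (sq_nonneg _) (E_newf hk hf 4) (fun v => sq_nonneg _)
    (fun v => pow_le_pow_left₀ (norm_nonneg _) (norm_trc_le _ _ v) 2) N (fun p hp u => ?_)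
  have hpN : ¬ (p : ℕ) ∣ N := fun h => by
    have := Nat.le_of_dvd (Nat.pos_of_ne_zero (NeZero.ne N)) h
    omega
  have hp0 : (0 : ℝ) < ((p : ℕ) : ℝ) := by exact_mod_cast p.2.pos
  set v := (kerPrime p u).1.1 with hv
  have hnm : nm F v = (p : ℕ) := Pool.Agent.H341R2.nm_kerPrime p u
  have hbel : (below v : ℕ) = (p : ℕ) := by
    have := (kerPrime p u).1.2
    rw [hv, this]
  have hdeg : deg v = 1 := (kerPrime p u).2
  obtain ⟨hβs, hβn⟩ := hβ p p.2 hpN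
  have hl := hbd p p.2 hpN
  have hmin : min (‖W388.lamC f p‖ ^ 2) 4 = ‖W388.lamC f p‖ ^ 2 := by
    refine min_eq_left ?_
    calc ‖W388.lamC f p‖ ^ 2 ≤ 2 ^ 2 := pow_le_pow_left₀ (norm_nonneg _) hl 2
      _ = 4 := by norm_num
  rw [hmin, ← mul_pow]
  refine pow_le_pow_left₀ (norm_nonneg _) ?_ 2
  unfold trc
  split_ifs with h
  · have hαn : ∀ i, ‖α v i‖ = (nm F v : ℝ) ^ w := by
      intro i
      have h1 := h (finProdFinEquiv (i, (0 : Fin 2)))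
      unfold tw at h1
      rw [Equiv.symm_apply_apply, hdeg, pow_one, hbel, norm_mul, hβn, hnm,
        Real.rpow_add hp0] at h1
      have h2 : (0 : ℝ) < ((p : ℕ) : ℝ) ^ (((k : ℝ) - 1) / 2) := Real.rpow_pos_of_pos hp0 _
      rw [hnm]
      exact mul_right_cancel₀ h2.ne' h1
    have hsum : ∑ j, tw α β v j = (∑ i, α v i) * (qExpansion 1 f).coeff (p : ℕ) := by
      unfold tw
      rw [sum_tw (g := fun i l => α v i * (β (below v : ℕ) l) ^ deg v), Finset.sum_mul]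
      refine Finset.sum_congr rfl fun i _ => ?_
      rw [hdeg, hbel, pow_one, pow_one, ← mul_add, hβs]
    rw [hsum, norm_mul, norm_mul, norm_cpow_nm, hnm]
    have e1 : ((p : ℕ) : ℝ) ^ (-(w + ((k : ℝ) - 1) / 2)) =
        ((p : ℕ) : ℝ) ^ (-w) * (((p : ℕ) : ℝ) ^ (((k : ℝ) - 1) / 2))⁻¹ := by
      rw [← Real.rpow_neg hp0.le, ← Real.rpow_add hp0]
      congr 1
      ring
    rw [e1]
    have e2 : ‖W388.lamC f p‖ = ‖(qExpansion 1 f).coeff (p : ℕ)‖ *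
        (((p : ℕ) : ℝ) ^ (((k : ℝ) - 1) / 2))⁻¹ := by
      unfold W388.lamC
      rw [norm_div, Complex.norm_real, Real.norm_eq_abs,
        abs_of_pos (Real.rpow_pos_of_pos hp0 _), div_eq_mul_inv]
    rw [e2]
    have e3 : ‖∑ i, α v i‖ * ((p : ℕ) : ℝ) ^ (-w) ≤ R := by
      have h1 : ‖∑ i, α v i‖ ≤ R * ((p : ℕ) : ℝ) ^ w := by
        refine (norm_sum_le _ _).trans ?_
        rw [Finset.sum_congr rfl fun j _ => hαn j, Finset.sum_const, Finset.card_univ,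
          Fintype.card_fin, nsmul_eq_mul, hnm]
      calc ‖∑ i, α v i‖ * ((p : ℕ) : ℝ) ^ (-w)
          ≤ R * ((p : ℕ) : ℝ) ^ w * ((p : ℕ) : ℝ) ^ (-w) :=
            mul_le_mul_of_nonneg_right h1 (by positivity)
        _ = R := by rw [mul_assoc, ← Real.rpow_add hp0, add_neg_cancel, Real.rpow_zero, mul_one]
    calc ‖∑ i, α v i‖ * ‖(qExpansion 1 f).coeff (p : ℕ)‖ *
        (((p : ℕ) : ℝ) ^ (-w) * (((p : ℕ) : ℝ) ^ (((k : ℝ) - 1) / 2))⁻¹) =
        (‖∑ i, α v i‖ * ((p : ℕ) : ℝ) ^ (-w)) * (‖(qExpansion 1 f).coeff (p : ℕ)‖ *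
        (((p : ℕ) : ℝ) ^ (((k : ℝ) - 1) / 2))⁻¹) := by ring
      _ ≤ R * (‖(qExpansion 1 f).coeff (p : ℕ)‖ *
        (((p : ℕ) : ℝ) ^ (((k : ℝ) - 1) / 2))⁻¹) :=
          mul_le_mul_of_nonneg_right e3 (by positivity)
  · rw [norm_zero]
    positivity

end

section
variable {F : Type} [Field F] [NumberField F] {b : ℕ} (w : ℝ)
    (α : HeightOneSpectrum (𝓞 F) → Fin b → ℂ)
    (hα : ∀ᶠ v in cofinite, ∀ j, ‖α v j‖ = (nm F v : ℝ) ^ w)
    {κ : Type*} [Fintype κ] {n : κ → ℕ}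
    (ρ : ∀ k, Representation ℂ (GK F) (Fin (n k) → ℂ))
    (hopen : ∀ k, ∃ U : Subgroup (GK F), IsOpen (U : Set (GK F)) ∧ ∀ u ∈ U, ρ k u = 1)
    (τ : κ → ℝ) (B : κ → HeightOneSpectrum (𝓞 F) → ℂ[X])
    (hB : ∀ k, ∀ᶠ v in cofinite, ∀ σ : GK F, IsFrob v σ → ∀ z : ℂ,
      (B k v).eval z = ∏ j, LinearMap.det (1 - (α v j * z) • ρ k σ⁻¹))
    (hB0 : ∀ k, ∀ v, (B k v).eval (((nm F v : ℕ) : ℂ) ^ (-(w + 1 + τ k * I : ℂ))) ≠ 0)
    (L : κ → ℂ → ℂ)
    (hL : ∀ k, ∀ s : ℂ, w + 1 < s.re →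
      L k s = ∏' v, ((B k v).eval (((nm F v : ℕ) : ℂ) ^ (-s)))⁻¹)

include hα hopen hB hB0 hL in
/-- **The strict inequality**, scaled: the second moment is at most `γ²`, and the dimension is at least
`b / γ + 1` -/
theorem strict_scaled {γ : ℝ} (hγ : 0 < γ)
    (hsec : ∃ C : ℝ, ∀ᶠ ε : ℝ in 𝓝[>] 0,
      (EP (nm F) ε fun v => ‖trc w α v‖ ^ 2) ≤ γ ^ 2 * LL ε + C)
    {k : κ} (hk : (ρ k).IsIrreducible) (h3 : (b : ℝ) / γ + 1 ≤ n k) :
    ∃ A : ℝ, A < γ ∧ ∀ᶠ ε : ℝ in 𝓝[>] 0, |xs w τ L k ε| ≤ A := by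
  obtain ⟨U, hUn, hU, hρ⟩ := exists_U ρ hopen
  have hfin : Finite (GK F ⧸ U) := Subgroup.quotient_finite_of_isOpen U hU
  choose σ hσ using exists_isFrob (F := F)
  have hγc : ((γ : ℝ) : ℂ) ≠ 0 := by exact_mod_cast hγ.ne'
  have hcorr : ∀ l, Tendsto (fun ε : ℝ => (EP (nm F) ε fun v =>
      (((γ : ℂ)⁻¹ * trc w α v) * RZ U ρ hρ σ l (τ l) v).re) / lam ε - xs w τ L l ε / γ)
      (𝓝[>] 0) (𝓝 0) := by
    intro l
    have h1 := (xc_corr w α hα U ρ hρ τ B hB hB0 L hL σ hσ l).const_mul γ⁻¹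
    rw [mul_zero] at h1
    refine h1.congr fun ε => ?_
    have e : (fun v => (((γ : ℂ)⁻¹ * trc w α v) * RZ U ρ hρ σ l (τ l) v).re) = fun v =>
        γ⁻¹ * (trc w α v * RZ U ρ hρ σ l (τ l) v).re := by
      funext v
      rw [← Complex.re_ofReal_mul]
      congr 1
      push_cast
      ring
    rw [e, EP_const_mul]
    field_simp
  obtain ⟨A, hA, h⟩ := strictX (b := b / γ) (fun v => (γ : ℂ)⁻¹ * trc w α v) (fun v => by
      rw [norm_mul, norm_inv, Complex.norm_real, Real.norm_eq_abs, abs_of_pos hγ,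
        inv_mul_eq_div]
      exact div_le_div_of_nonneg_right (norm_trc_le w α v) hγ.le) U hU ρ hρ τ σ hσ
    (fun l ε => xs w τ L l ε / γ) hcorr (by
      obtain ⟨C, hC⟩ := hsec
      refine ⟨(γ ^ 2)⁻¹ * C, hC.mono fun ε hε => ?_⟩
      have e : (fun v => ‖(γ : ℂ)⁻¹ * trc w α v‖ ^ 2) = fun v =>
          (γ ^ 2)⁻¹ * ‖trc w α v‖ ^ 2 := by
        funext v
        rw [norm_mul, norm_inv, Complex.norm_real, Real.norm_eq_abs, abs_of_pos hγ, mul_pow,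
          inv_pow]
      rw [e, EP_const_mul]
      have h1 := mul_le_mul_of_nonneg_left hε (by positivity : (0 : ℝ) ≤ (γ ^ 2)⁻¹)
      refine h1.trans (le_of_eq ?_)
      field_simp) hk h3
  refine ⟨γ * A, by nlinarith, h.mono fun ε hε => ?_⟩
  rw [abs_div, abs_of_pos hγ, div_le_iff₀ hγ] at hε
  linarith

end

end Pool.Agent.X288.CX
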