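import Pool.Agent.W388.TC.FinalC
import Pool.Agent.X288.CX.Main
import Pool.Agent.X288.AR.Sec

/-! The second moment of the coefficients of a newform (of any weight, level and nebentypus). -/

set_option autoImplicit false

namespace Pool.Agent.X288.CX

open Complex Filter Topology MatrixGroups CongruenceSubgroup UpperHalfPlane

/-- normalised eigenforms of all Hecke operators, with nebentypus `ψ` -/
structure Newf (N : ℕ) (k : ℤ) (ψ : DirichletCharacter ℂ N)
    (f : CuspForm (Gamma1 N : Subgroup (GL (Fin 2) ℝ)) k) : Prop where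
  neb : W388.HasNeb N k ψ f
  one : (qExpansion 1 f).coeff 1 = 1
  mul : ∀ m n : ℕ, Nat.Coprime m n → (qExpansion 1 f).coeff (m * n) =
    (qExpansion 1 f).coeff m * (qExpansion 1 f).coeff n
  pow : ∀ p j : ℕ, p.Prime → (qExpansion 1 f).coeff (p ^ (j + 2)) =
    (qExpansion 1 f).coeff p * (qExpansion 1 f).coeff (p ^ (j + 1)) -
      ψ (p : ZMod N) * (p : ℂ) ^ (k - 1) * (qExpansion 1 f).coeff (p ^ j)
  conj : ∀ p : ℕ, p.Prime → ¬ p ∣ N → (starRingEnd ℂ) ((qExpansion 1 f).coeff p) =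
    (starRingEnd ℂ) (ψ (p : ZMod N)) * (qExpansion 1 f).coeff p

section
variable {N : ℕ} [NeZero N] {k : ℤ} {ψ : DirichletCharacter ℂ N}
  {f : CuspForm (Gamma1 N : Subgroup (GL (Fin 2) ℝ)) k}

omit [NeZero N] in
theorem lam_mul (hf : Newf N k ψ f) (m n : ℕ) (h : Nat.Coprime m n) :
    W388.lamC f (m * n) = W388.lamC f m * W388.lamC f n := by
  unfold W388.lamC
  rw [hf.mul m n h, Nat.cast_mul, Real.mul_rpow (by positivity) (by positivity), Complex.ofReal_mul,
    mul_div_mul_comm]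

omit [NeZero N] in
theorem lam_pow (hf : Newf N k ψ f) (p j : ℕ) (hp : p.Prime) :
    W388.lamC f (p ^ (j + 2)) = W388.lamC f p * W388.lamC f (p ^ (j + 1)) -
      ψ (p : ZMod N) * W388.lamC f (p ^ j) := by
  have hp0 : (0 : ℝ) < p := by exact_mod_cast hp.pos
  set x : ℝ := ((k : ℝ) - 1) / 2 with hx
  set P : ℝ := (p : ℝ) ^ x with hP
  have hPp : 0 < P := Real.rpow_pos_of_pos hp0 _
  have hPc : (P : ℂ) ≠ 0 := by exact_mod_cast hPp.ne'
  have hpow : ∀ i : ℕ, ((p ^ i : ℕ) : ℝ) ^ x = P ^ i := by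
    intro i
    rw [hP, Nat.cast_pow, ← Real.rpow_natCast, ← Real.rpow_natCast, ← Real.rpow_mul hp0.le,
      ← Real.rpow_mul hp0.le, mul_comm]
  have hP2 : P ^ 2 = (p : ℝ) ^ (k - 1) := by
    rw [hP, ← Real.rpow_natCast, ← Real.rpow_mul hp0.le, hx, ← Real.rpow_intCast]
    congr 1
    push_cast
    ring
  have hP2c : (P : ℂ) ^ 2 = (p : ℂ) ^ (k - 1) := by
    rw [← Complex.ofReal_pow, hP2]
    push_cast
    rfl
  have h1 : ∀ i : ℕ, W388.lamC f (p ^ i) = (qExpansion 1 f).coeff (p ^ i) / (P : ℂ) ^ i := by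
    intro i
    unfold W388.lamC
    rw [← hx, hpow, Complex.ofReal_pow]
  have h4 : W388.lamC f p = (qExpansion 1 f).coeff p / (P : ℂ) := rfl
  rw [h1, h1, h1, h4, hf.pow p j hp, ← hP2c]
  field_simp
  ring

omit [NeZero N] in
theorem lam_conj (hf : Newf N k ψ f) (p : ℕ) (hp : p.Prime) (hpN : ¬ p ∣ N) :
    (starRingEnd ℂ) (W388.lamC f p) = (starRingEnd ℂ) (ψ (p : ZMod N)) * W388.lamC f p := by
  unfold W388.lamC
  rw [map_div₀, Complex.conj_ofReal, hf.conj p hp hpN, mul_div_assoc]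

/-- **Rankin and Selberg**: the second moment over the primes -/
theorem sec_primes (hk : 1 ≤ k) (hf : Newf N k ψ f) : ∃ C : ℝ, ∀ ε : ℝ, 0 < ε → ε ≤ 1 →
    Summable (fun p : Nat.Primes => ‖W388.lamC f p‖ ^ 2 * ((p : ℕ) : ℝ) ^ (-(1 + ε))) ∧
    ∑' p : Nat.Primes, ‖W388.lamC f p‖ ^ 2 * ((p : ℕ) : ℝ) ^ (-(1 + ε)) ≤
      Real.log (1 / ε) + C := by
  have hN : 0 < N := Nat.pos_of_ne_zero (NeZero.ne N)
  have hone : W388.lamC f 1 = 1 := by
    unfold W388.lamC
    rw [hf.one]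
    simp
  obtain ⟨θ, lam, hθ, hθ1, hθ2, hH, hlam⟩ := W388.reduce ψ (W388.lamC f) (W388.lamC_zero f) hone
    (lam_mul hf) (lam_pow hf) (lam_conj hf)
  have h2 : ∀ n : ℕ, ‖W388.lamC f n‖ ^ 2 = lam n ^ 2 := by
    intro n
    rw [hlam n]
    rcases eq_or_ne n 0 with rfl | hn
    · rw [hθ.zero, hH.zero]; simp
    · rw [norm_mul, hθ1 n hn, one_mul, Complex.norm_real, Real.norm_eq_abs, sq_abs]
  have hR : W388.RSLim lam := by
    have h1 := W388.p_rsC N k hk ψ f hf.neb hf.one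
    unfold W388.RSLim at h1 ⊢
    simp only [h2] at h1
    exact h1
  obtain ⟨-, hsum, C, hC⟩ := W388.p_sel N hN lam hH hR
  refine ⟨C, fun ε hε hε1 => ?_⟩
  set T : ℕ → ℝ := fun n => ArithmeticFunction.vonMangoldt n / Real.log n * W388.cS N lam n ^ 2 *
    (n : ℝ) ^ (-(1 + ε)) with hT
  have hlog2 : 0 < Real.log 2 := Real.log_pos (by norm_num)
  have hT0 : ∀ n, 0 ≤ T n := by
    intro n
    rw [hT]
    have h3 : 0 ≤ Real.log (n : ℝ) := Real.log_natCast_nonneg n
    have h4 : 0 ≤ ArithmeticFunction.vonMangoldt n := ArithmeticFunction.vonMangoldt_nonneg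
    positivity
  have hTs : Summable T := by
    refine Summable.of_nonneg_of_le hT0 (fun n => ?_) ((hsum ε hε).mul_left (1 / Real.log 2))
    rw [hT]
    have h4 : 0 ≤ ArithmeticFunction.vonMangoldt n := ArithmeticFunction.vonMangoldt_nonneg
    have h5 : ArithmeticFunction.vonMangoldt n / Real.log n ≤
        1 / Real.log 2 * ArithmeticFunction.vonMangoldt n := by
      rcases lt_or_ge n 2 with hn | hn
      · interval_cases n <;> simp
      · have h6 : Real.log 2 ≤ Real.log n := Real.log_le_log (by norm_num) (by exact_mod_cast hn)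
        rw [one_div_mul_eq_div]
        exact div_le_div_of_nonneg_left h4 hlog2 h6
    calc ArithmeticFunction.vonMangoldt n / Real.log n * W388.cS N lam n ^ 2 *
          (n : ℝ) ^ (-(1 + ε)) ≤ (1 / Real.log 2 * ArithmeticFunction.vonMangoldt n) *
          W388.cS N lam n ^ 2 * (n : ℝ) ^ (-(1 + ε)) := by gcongr
      _ = _ := by ring
  have hTp : ∀ p : Nat.Primes, T p = ‖W388.lamC f p‖ ^ 2 * ((p : ℕ) : ℝ) ^ (-(1 + ε)) := by
    intro p
    have hp := p.2
    rw [hT]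
    simp only
    have h3 : Real.log ((p : ℕ) : ℝ) ≠ 0 := (Real.log_pos (by exact_mod_cast hp.one_lt)).ne'
    rw [ArithmeticFunction.vonMangoldt_apply_prime hp, div_self h3, one_mul, h2]
    congr 2
    unfold W388.cS
    rw [if_neg, sub_zero]
    rw [hp.minFac_eq]
    rintro ⟨h4, -⟩
    have h5 := Nat.le_of_dvd hp.pos h4
    nlinarith [hp.two_le]
  have hinj : Function.Injective (fun p : Nat.Primes => (p : ℕ)) := Subtype.val_injective
  have hTc : Summable (T ∘ fun p : Nat.Primes => (p : ℕ)) := hTs.comp_injective hinj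
  constructor
  · exact hTc.congr fun p => hTp p
  · calc ∑' p : Nat.Primes, ‖W388.lamC f p‖ ^ 2 * ((p : ℕ) : ℝ) ^ (-(1 + ε))
        = ∑' p : Nat.Primes, T p := tsum_congr fun p => (hTp p).symm
      _ ≤ ∑' n, T n := tsum_comp_le_tsum_of_inj hTs hT0 hinj
      _ ≤ Real.log (1 / ε) + C := hC ε hε hε1

end

end Pool.Agent.X288.CX
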