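import Pool.Agent.X288.CX.Sec
import Pool.Agent.TH322.BC.Main

/-! The size of the Euler product of an arbitrary elliptic curve over a number field. -/

set_option autoImplicit false

namespace Pool.Agent.X288.CX

open Complex Filter Topology ComplexConjugate NumberField IsDedekindDomain Pool.Agent.H341R2
  Asymptotics
open Pool.Agent.H921R2.TatePole (nm two_le_nm kerPrime nm_eq below deg)
open Pool.Agent.W353.TP (LL HX sysH E_H EH_eq card_hom_le)
open Pool.Agent.TH322.BC.Edge (MinimalModels LSeries size HasOrder)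
open Pool.Agent.W353.AB (quad_log)

section
variable {F : Type} [Field F] [NumberField F]

open Classical in
/-- the normalised trace at the good primes which do not divide `6` -/
noncomputable def nt (V : HeightOneSpectrum (𝓞 F) → WeierstrassCurve (𝓞 F))
    (v : HeightOneSpectrum (𝓞 F)) : ℝ :=
  if (6 : 𝓞 F) ∉ v.asIdeal ∧ (V v).Δ ∉ v.asIdeal then (EC.trc V v : ℝ) * (Real.sqrt (nm v))⁻¹ else 0

theorem trc_hasse (V : HeightOneSpectrum (𝓞 F) → WeierstrassCurve (𝓞 F))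
    {v : HeightOneSpectrum (𝓞 F)} (h6 : (6 : 𝓞 F) ∉ v.asIdeal) (hΔ : (V v).Δ ∉ v.asIdeal) :
    |(EC.trc V v : ℝ)| ≤ 2 * Real.sqrt (nm v) := by
  have h := Pool.Agent.W540.BE.hasse_v (V v) v h6 hΔ
  have e : Pool.Agent.W540.BE.trv (V v) v = EC.trc V v := by
    unfold Pool.Agent.W540.BE.trv EC.trc
    have : (Ideal.absNorm v.asIdeal : ℤ) + 1 -
        ((Pool.Agent.W540.BE.affCount (Pool.Agent.W540.BE.redv (V v) v) : ℤ) + 1) =
        (Ideal.absNorm v.asIdeal : ℤ) -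
          (Pool.Agent.W540.BE.affCount (Pool.Agent.W540.BE.redv (V v) v) : ℤ) := by ring
    rw [this]
    rfl
  rw [e] at h
  exact h

theorem abs_nt (V : HeightOneSpectrum (𝓞 F) → WeierstrassCurve (𝓞 F))
    (v : HeightOneSpectrum (𝓞 F)) : |nt V v| ≤ 2 := by
  have hsq0 : 0 < Real.sqrt (nm v) :=
    Real.sqrt_pos.2 (by exact_mod_cast (by have := two_le_nm v; omega : 0 < nm v))
  unfold nt
  split_ifs with h
  · rw [abs_mul, abs_inv, abs_of_pos hsq0]
    calc |(EC.trc V v : ℝ)| * (Real.sqrt (nm v))⁻¹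
        ≤ 2 * Real.sqrt (nm v) * (Real.sqrt (nm v))⁻¹ :=
          mul_le_mul_of_nonneg_right (trc_hasse V h.1 h.2) (inv_nonneg.2 hsq0.le)
      _ = 2 := by rw [mul_assoc, mul_inv_cancel₀ hsq0.ne', mul_one]
  · rw [abs_zero]
    norm_num

/-- good reduction at almost all primes -/
theorem fin_bad {E : WeierstrassCurve F} [E.IsElliptic]
    {V : HeightOneSpectrum (𝓞 F) → WeierstrassCurve (𝓞 F)} (hV : MinimalModels E V) :
    {v : HeightOneSpectrum (𝓞 F) | ¬ ((6 : 𝓞 F) ∉ v.asIdeal ∧ (V v).Δ ∉ v.asIdeal)}.Finite := by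
  obtain ⟨v0⟩ := Pool.Agent.X288.AR.prime0 (F := F)
  have hΔ0 : (V v0).Δ ≠ 0 := by
    intro h0
    obtain ⟨C, hC⟩ := (hV v0).1
    have h1 : ((V v0).map (algebraMap (𝓞 F) F)).Δ = 0 := by
      rw [WeierstrassCurve.map_Δ, h0, map_zero]
    rw [← hC, WeierstrassCurve.variableChange_Δ] at h1
    have h2 : E.Δ ≠ 0 := E.isUnit_Δ.ne_zero
    exact (mul_ne_zero (pow_ne_zero _ (Units.ne_zero _)) h2) h1
  have h6 : (6 : 𝓞 F) ≠ 0 := by norm_num
  refine ((Pool.Agent.W540.BE.finite_mem_prime h6).union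
    (Pool.Agent.W540.BE.finite_mem_prime hΔ0)).subset fun v hv => ?_
  rw [Set.mem_ofPred_eq, not_and_or, not_not, not_not] at hv
  rcases hv with h | h
  · exact Or.inl h
  · right
    have h3 := (hV v).2 (V v0) (hV v0).1 1 (by rw [pow_one]; exact h)
    rw [pow_one] at h3
    exact h3

/-- **The size of the Euler product** -/
theorem size_own {E : WeierstrassCurve F} [E.IsElliptic]
    {V : HeightOneSpectrum (𝓞 F) → WeierstrassCurve (𝓞 F)} (hV : MinimalModels E V) (τ : ℝ) :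
    (∀ᶠ ε : ℝ in 𝓝[>] 0, LSeries V (3 / 2 + τ * I + ε) ≠ 0) ∧
    ∃ C : ℝ, ∀ᶠ ε : ℝ in 𝓝[>] 0,
      |((sysK F).E ε fun v => ((nt V v : ℂ) * ((nm v : ℕ) : ℂ) ^ (-(τ * I))).re) -
        Real.log ‖LSeries V (3 / 2 + τ * I + ε)‖| ≤ C := by
  classical
  obtain ⟨C, hC⟩ := quad_log (sysK F)
    (Good := fun v => (6 : 𝓞 F) ∉ v.asIdeal ∧ (V v).Δ ∉ v.asIdeal) (fin_bad hV)
    (fun v => (EC.trc V v : ℂ)) (EC.dlt V) (by
      intro v hv
      rw [Complex.norm_intCast]
      exact trc_hasse V hv.1 hv.2) (by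
      intro v hv
      unfold EC.dlt
      rw [if_neg hv.2]) (by
      intro v hv
      exact EC.five_le_v hv.1) (by
      intro v _
      rw [Complex.norm_intCast]
      have h2 : |EC.trc V v| ≤ nm v := EC.trc_le V v
      have h3 : (|(EC.trc V v : ℤ)| : ℝ) ≤ ((nm v : ℕ) : ℝ) := by exact_mod_cast h2
      exact h3) (by
      intro v _
      unfold EC.dlt
      split_ifs <;> simp) τ
  refine ⟨hC.mono fun ε h => h.1, C, hC.mono fun ε h => ?_⟩
  have e : (fun v => ((nt V v : ℂ) * ((nm v : ℕ) : ℂ) ^ (-(τ * I))).re) = fun v =>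
      (if (6 : 𝓞 F) ∉ v.asIdeal ∧ (V v).Δ ∉ v.asIdeal then
        (EC.trc V v : ℂ) * ((Real.sqrt ((sysK F).N v) : ℝ) : ℂ)⁻¹ *
          (((sysK F).N v : ℕ) : ℂ) ^ (-(τ * I)) else 0).re := by
    funext v
    unfold nt
    split_ifs with h
    · have : (sysK F).N v = nm v := rfl
      rw [this]
      push_cast
      rfl
    · simp
  exact (congrArg (fun φ : HeightOneSpectrum (𝓞 F) → ℝ => |(sysK F).E ε φ -
    Real.log ‖LSeries V (3 / 2 + τ * I + ε)‖|) e).le.trans h.2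

end

end Pool.Agent.X288.CX
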