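import Pool.Agent.X288.CX.MotThm

/-! Symmetric powers of newforms: bounds for the complete symmetric functions of two numbers on the
unit circle, and the second moment of the traces. -/

set_option autoImplicit false
set_option linter.unusedSectionVars false

namespace Pool.Agent.X288.CX

open Complex Filter Topology ComplexConjugate NumberField IsDedekindDomain Polynomial
  Pool.Agent.W401.Cheb Pool.Agent.W540.BE Pool.Agent.W353.L1 Asymptotics
open Pool.Agent.H341R2 (lam lam_tendsto sysK)
open Pool.Agent.H921R2.TatePole (kerPrime below deg nm_eq two_le_nm)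
open Pool.Agent.W353.TP (LL LL_tendsto)
open Pool.Agent.X288.AR (RZ hd has_hd hd_self hd_ne exists_U prime0 EP_abs EP_cs)
open MatrixGroups CongruenceSubgroup
open UpperHalfPlane hiding I

/-- the complete symmetric functions of two variables -/
def hh {M : Type*} [CommRing M] (x y : M) : ℕ → M
  | 0 => 1
  | 1 => x + y
  | (a + 2) => (x + y) * hh x y (a + 1) - x * y * hh x y a

section
variable {M : Type*} [CommRing M] (x y : M)

theorem hh_step (a : ℕ) : hh x y (a + 1) = x * hh x y a + y ^ (a + 1) := by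
  induction a with
  | zero => simp [hh]
  | succ a ih =>
    rw [show hh x y (a + 1 + 1) = (x + y) * hh x y (a + 1) - x * y * hh x y a from rfl, ih]
    ring

theorem hh_sum (a : ℕ) : ∑ j : Fin (a + 1), x ^ (a - j.val) * y ^ j.val = hh x y a := by
  induction a with
  | zero => simp [hh]
  | succ a ih =>
    rw [hh_step, ← ih, Fin.sum_univ_castSucc, Finset.mul_sum]
    congr 1
    · refine Finset.sum_congr rfl fun j _ => ?_
      have h : a + 1 - (Fin.castSucc j).val = (a - j.val) + 1 := by
        have := j.2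
        simp only [Fin.val_castSucc]
        omega
      rw [h, pow_succ]
      simp only [Fin.val_castSucc]
      ring
    · simp

/-- the identity of Cassini -/
theorem hh_cassini (a : ℕ) :
    hh x y (a + 1) ^ 2 = (x * y) ^ (a + 1) + hh x y a * hh x y (a + 2) := by
  induction a with
  | zero => simp only [hh]; ring
  | succ a ih =>
    have e1 : hh x y (a + 1 + 2) = (x + y) * hh x y (a + 2) - x * y * hh x y (a + 1) := rfl
    have e2 : hh x y (a + 1 + 1) = hh x y (a + 2) := rfl
    have e3 : hh x y (a + 2) = (x + y) * hh x y (a + 1) - x * y * hh x y a := rfl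
    rw [e1, e2, pow_succ (x * y) (a + 1)]
    have e4 : (x * y) ^ (a + 1) = hh x y (a + 1) ^ 2 - hh x y a * hh x y (a + 2) := by
      rw [ih]; ring
    rw [e4]
    have e5 : x * y * hh x y a = (x + y) * hh x y (a + 1) - hh x y (a + 2) := by
      rw [e3]; ring
    linear_combination hh x y (a + 2) * e5 - hh x y (a + 2) * 0

/-- the odd functions -/
theorem hh_odd (k : ℕ) : hh x y (2 * k + 1) = (x + y) * hh (x ^ 2) (y ^ 2) k ∧
    hh x y (2 * k + 2) = hh (x ^ 2) (y ^ 2) (k + 1) + x * y * hh (x ^ 2) (y ^ 2) k := by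
  induction k with
  | zero => constructor <;> simp only [hh] <;> ring
  | succ k ih =>
    obtain ⟨h1, h2⟩ := ih
    have e1 : hh x y (2 * (k + 1) + 1) = (x + y) * hh x y (2 * k + 2) - x * y * hh x y (2 * k + 1) :=
      rfl
    have e2 : hh x y (2 * (k + 1) + 2) =
        (x + y) * hh x y (2 * (k + 1) + 1) - x * y * hh x y (2 * k + 2) := rfl
    have e3 : hh (x ^ 2) (y ^ 2) (k + 1 + 1) = (x ^ 2 + y ^ 2) * hh (x ^ 2) (y ^ 2) (k + 1) -
        x ^ 2 * y ^ 2 * hh (x ^ 2) (y ^ 2) k := rfl
    have h3 : hh x y (2 * (k + 1) + 1) = (x + y) * hh (x ^ 2) (y ^ 2) (k + 1) := by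
      rw [e1, h1, h2]
      ring
    refine ⟨h3, ?_⟩
    rw [e2, h3, h2, e3]
    ring

end

theorem norm_hh_le {x y : ℂ} (hx : ‖x‖ = 1) (hy : ‖y‖ = 1) (a : ℕ) : ‖hh x y a‖ ≤ a + 1 := by
  rw [← hh_sum]
  refine (norm_sum_le _ _).trans ?_
  simp only [norm_mul, norm_pow, hx, hy, one_pow, mul_one, Finset.sum_const, Finset.card_univ,
    Fintype.card_fin, nsmul_eq_mul]
  push_cast
  exact le_refl _

theorem norm_hh_odd {x y : ℂ} (hx : ‖x‖ = 1) (hy : ‖y‖ = 1) (k : ℕ) :
    ‖hh x y (2 * k + 1)‖ ≤ (k + 1) * ‖x + y‖ := by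
  rw [(hh_odd x y k).1, norm_mul, mul_comm]
  refine mul_le_mul_of_nonneg_right ?_ (norm_nonneg _)
  exact norm_hh_le (by rw [norm_pow, hx, one_pow]) (by rw [norm_pow, hy, one_pow]) k

/-- the constant term of the bound -/
def cA (a : ℕ) : ℝ := if Even a then 1 else 0

/-- the coefficient of the bound -/
noncomputable def cB (a : ℕ) : ℝ := if Even a then (a : ℝ) * (a + 2) / 4 else ((a : ℝ) + 1) ^ 2 / 4

theorem cA_nonneg (a : ℕ) : 0 ≤ cA a := by
  unfold cA
  split_ifs <;> norm_num

theorem cB_nonneg (a : ℕ) : 0 ≤ cB a := by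
  unfold cB
  split_ifs <;> positivity

/-- **the bound for the complete symmetric functions** on the unit circle -/
theorem norm_hh_sq {x y : ℂ} (hx : ‖x‖ = 1) (hy : ‖y‖ = 1) (a : ℕ) :
    ‖hh x y a‖ ^ 2 ≤ cA a + cB a * ‖x + y‖ ^ 2 := by
  have h0 := norm_nonneg (x + y)
  rcases Nat.even_or_odd' a with ⟨k, rfl | rfl⟩
  · have he : Even (2 * k) := even_two_mul k
    unfold cA cB
    rw [if_pos he, if_pos he]
    rcases Nat.eq_zero_or_pos k with rfl | hk
    · simp [hh]
    · obtain ⟨m, rfl⟩ : ∃ m, k = m + 1 := ⟨k - 1, by omega⟩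
      have h1 := hh_cassini x y (2 * m + 1)
      have e1 : 2 * (m + 1) = 2 * m + 1 + 1 := by ring
      have e2 : 2 * m + 1 + 2 = 2 * (m + 1) + 1 := by ring
      rw [e1, ← norm_pow, h1, e2]
      refine (norm_add_le _ _).trans ?_
      rw [norm_pow, norm_mul, hx, hy, one_mul, one_pow, norm_mul]
      have h2 := norm_hh_odd hx hy m
      have h3 := norm_hh_odd hx hy (m + 1)
      have h4 := mul_le_mul h2 h3 (norm_nonneg _) (by positivity)
      push_cast at h4 ⊢
      nlinarith
  · have ho : ¬ Even (2 * k + 1) := by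
      rw [Nat.not_even_iff_odd]
      exact odd_two_mul_add_one k
    unfold cA cB
    rw [if_neg ho, if_neg ho, zero_add]
    have h2 := pow_le_pow_left₀ (norm_nonneg _) (norm_hh_odd hx hy k) 2
    push_cast
    rw [mul_pow] at h2
    refine h2.trans (le_of_eq ?_)
    ring

end Pool.Agent.X288.CX
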