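import Pool.Agent.X288.CX.Att

/-! The edge of the L-functions of the elliptic curves attached to a newform and Artin
representations. -/

set_option autoImplicit false

namespace Pool.Agent.X288.CX

open Complex Filter Topology ComplexConjugate NumberField IsDedekindDomain Pool.Agent.H341R2
  Asymptotics
open Pool.Agent.H921R2.TatePole (nm two_le_nm)
open Pool.Agent.W353.TP (LL)
open Pool.Agent.TH322.BC.Edge (MinimalModels LSeries size HasOrder orders)
open Pool.Agent.W401.Cheb Pool.Agent.W353.L1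
open Pool.Agent.W540.BE (EP EP_sum EP_const_mul normSys exists_isFrob)
open Pool.Agent.X288.AR (RZ hd hd_self hd_ne exists_U)
open MatrixGroups CongruenceSubgroup
open UpperHalfPlane hiding I

section
variable {F : Type} [Field F] [NumberField F]

/-- `E` over `F` belongs to the newform `f` and the Artin representation `R` -/
def Belongs (V : HeightOneSpectrum (𝓞 F) → WeierstrassCurve (𝓞 F)) {N : ℕ}
    (f : CuspForm (Gamma1 N : Subgroup (GL (Fin 2) ℝ)) (2 : ℤ)) {r : ℕ}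
    (R : Representation ℂ (GK ℚ) (Fin r → ℂ)) : Prop :=
  ∀ᶠ v0 : HeightOneSpectrum (𝓞 ℚ) in cofinite, ∀ σ : GK ℚ, IsFrob v0 σ →
    (((∑ᶠ v : {v : HeightOneSpectrum (𝓞 F) // Ideal.absNorm v.asIdeal =
      Ideal.absNorm v0.asIdeal}, EC.trc V v.1 : ℤ)) : ℂ) =
        (qExpansion 1 f).coeff (Ideal.absNorm v0.asIdeal) * R.character σ⁻¹

theorem LSeries_conj (V : HeightOneSpectrum (𝓞 F) → WeierstrassCurve (𝓞 F)) (s : ℂ) :
    LSeries V (conj s) = conj (LSeries V s) := by
  unfold Pool.Agent.TH322.BC.Edge.LSeries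
  have hpow : ∀ (n : ℕ) (z : ℂ), 0 < n → ((n : ℕ) : ℂ) ^ (conj z) = conj (((n : ℕ) : ℂ) ^ z) := by
    intro n z hn
    have h := Complex.cpow_conj ((n : ℕ) : ℂ) z (by
      rw [Complex.natCast_arg]
      exact Real.pi_pos.ne)
    rw [Complex.conj_natCast] at h
    exact h
  set φ : HeightOneSpectrum (𝓞 F) → ℂ → ℂ := fun v s =>
    (1 - ((((Ideal.absNorm v.asIdeal : ℕ) : ℤ) -
          ((Nat.card {p : (𝓞 F ⧸ v.asIdeal) × (𝓞 F ⧸ v.asIdeal) //
            p.2 ^ 2 + Ideal.Quotient.mk v.asIdeal (V v).a₁ * p.1 * p.2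
              + Ideal.Quotient.mk v.asIdeal (V v).a₃ * p.2
            = p.1 ^ 3 + Ideal.Quotient.mk v.asIdeal (V v).a₂ * p.1 ^ 2
              + Ideal.Quotient.mk v.asIdeal (V v).a₄ * p.1
              + Ideal.Quotient.mk v.asIdeal (V v).a₆} : ℕ) : ℤ) : ℤ) : ℂ)
          * ((Ideal.absNorm v.asIdeal : ℕ) : ℂ) ^ (-s)
      + (open Classical in if (V v).Δ ∈ v.asIdeal then (0 : ℂ) else 1)
          * ((Ideal.absNorm v.asIdeal : ℕ) : ℂ) ^ (1 - 2 * s))⁻¹ with hφ
  have h1 : ∀ v, φ v (conj s) = conj (φ v s) := by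
    intro v
    have hn : 0 < Ideal.absNorm v.asIdeal := by
      have := two_le_nm v
      exact lt_of_lt_of_le (by norm_num) this
    rw [hφ]
    simp only
    have e1 : -(conj s) = conj (-s) := by rw [map_neg]
    have e2 : 1 - 2 * conj s = conj (1 - 2 * s) := by
      rw [map_sub, map_mul, map_one, map_ofNat]
    rw [e1, e2, hpow _ _ hn, hpow _ _ hn, map_inv₀, map_add, map_sub, map_mul, map_mul, map_one,
      map_intCast]
    congr 3
    split_ifs <;> simp
  change ∏' v, φ v (conj s) = conj (∏' v, φ v s)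
  simp only [h1]
  by_cases hm : Multipliable fun v => φ v s
  · exact (hm.map_tprod (starRingEnd ℂ) Complex.continuous_conj).symm
  · rw [tprod_eq_one_of_not_multipliable hm, map_one]
    apply tprod_eq_one_of_not_multipliable
    intro h
    apply hm
    have h2 := h.map (starRingEnd ℂ) Complex.continuous_conj
    refine h2.congr fun v => ?_
    simp

theorem size_neg (V : HeightOneSpectrum (𝓞 F) → WeierstrassCurve (𝓞 F)) (τ ε : ℝ) :
    size V (-τ) ε = size V τ ε := by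
  unfold size
  have e : (3 / 2 + ((-τ : ℝ) : ℂ) * I + (ε : ℂ)) = conj (3 / 2 + (τ : ℂ) * I + (ε : ℂ)) := by
    rw [map_add, map_add, map_mul, Complex.conj_ofReal, Complex.conj_ofReal, Complex.conj_I]
    have : (starRingEnd ℂ) (3 / 2 : ℂ) = 3 / 2 := by
      rw [map_div₀, map_ofNat, map_ofNat]
    rw [this]
    push_cast
    ring
  rw [e, LSeries_conj, Complex.norm_conj]

end

section
variable {N : ℕ} [NeZero N] {ψ : DirichletCharacter ℂ N}
  {f : CuspForm (Gamma1 N : Subgroup (GL (Fin 2) ℝ)) (2 : ℤ)} (hf : Newf N 2 ψ f)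
  (hbd : ∀ p : ℕ, p.Prime → ¬ p ∣ N → ‖W388.lamC f p‖ ≤ 2)
  {κ : Type} [Fintype κ] {F : κ → Type} [∀ k, Field (F k)] [∀ k, NumberField (F k)]
  {E : ∀ k, WeierstrassCurve (F k)} [∀ k, (E k).IsElliptic]
  {V : ∀ k, HeightOneSpectrum (𝓞 (F k)) → WeierstrassCurve (𝓞 (F k))}
  (hV : ∀ k, MinimalModels (E k) (V k)) {n : κ → ℕ}
  (R : ∀ k, Representation ℂ (GK ℚ) (Fin (n k) → ℂ))
  (hopen : ∀ k, ∃ U : Subgroup (GK ℚ), IsOpen (U : Set (GK ℚ)) ∧ ∀ u ∈ U, R k u = 1)
  (hatt : ∀ k, Belongs (V k) f (R k))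

include hf hbd hV hopen hatt in
/-- **The Gram inequality** -/
theorem q_gram (τ : κ → ℝ) (C : ℝ) {η : ℝ} (hη : 0 < η) :
    ∀ᶠ ε : ℝ in 𝓝[>] 0, ∀ c : κ → ℝ, (∀ k, |c k| ≤ C) →
      (∑ k, c k * size (V k) (τ k) ε) ^ 2 ≤ (∑ k, ∑ l, c k * c l * hd R τ k l) + η := by
  obtain ⟨U, hUn, hU, hρ⟩ := exists_U R hopen
  have hfin : Finite (GK ℚ ⧸ U) := Subgroup.quotient_finite_of_isOpen U hU
  choose σ hσ using exists_isFrob (F := ℚ)
  have h := gramX (b := 2) (tq f) (norm_tq f) U hU R hρ τ σ hσ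
    (fun k ε => size (V k) (τ k) ε)
    (fun k => att_corr (hV k) hbd U R hρ k (hatt k) (τ k) σ hσ) (β := 1) zero_le_one
    (sec_tq (by norm_num) hf) C hη
  simpa only [one_mul] using h

include hbd hV hatt in
theorem virt_corr (U : Subgroup (GK ℚ)) [U.Normal] [Finite (GK ℚ ⧸ U)]
    (hρ : ∀ k, ∀ u ∈ U, R k u = 1) (σ : HeightOneSpectrum (𝓞 ℚ) → GK ℚ) (hσ : ∀ v, IsFrob v (σ v))
    (t : ℝ) (c : κ → ℝ) {r : ℕ} (S : Representation ℂ (GK ℚ) (Fin r → ℂ))
    (hc : ∀ g, S.character g = ∑ k, (c k : ℂ) * (R k).character g) {ι : Type*}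
    (hS : ∀ _ : ι, ∀ u ∈ U, S u = 1) (i : ι) :
    Tendsto (fun ε : ℝ => (EP (Pool.Agent.W540.BE.nm ℚ) ε fun v =>
      (tq f v * RZ U (fun _ : ι => S) hS σ i t v).re) / lam ε - ∑ k, c k * size (V k) t ε)
      (𝓝[>] 0) (𝓝 0) := by
  have h1 : Tendsto (fun ε : ℝ => ∑ k, c k * ((EP (Pool.Agent.W540.BE.nm ℚ) ε fun v =>
      (tq f v * RZ U R hρ σ k t v).re) / lam ε - size (V k) t ε)) (𝓝[>] 0) (𝓝 (∑ k : κ, c k * 0)) :=
    tendsto_finsetSum _ fun k _ =>
      (att_corr (hV k) hbd U R hρ k (hatt k) t σ hσ).const_mul (c k)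
  have e0 : (∑ k : κ, c k * 0) = 0 := by simp
  rw [e0] at h1
  refine h1.congr' ?_
  filter_upwards [self_mem_nhdsWithin] with ε hε
  have hε' : (0 : ℝ) < ε := hε
  have e1 : (fun v => (tq f v * RZ U (fun _ : ι => S) hS σ i t v).re) = fun v =>
      ∑ k, c k * (tq f v * RZ U R hρ σ k t v).re := by
    funext v
    have e2 : RZ U (fun _ : ι => S) hS σ i t v = S.character (σ v)⁻¹ * zz t v := rfl
    have e3 : ∀ k, RZ U R hρ σ k t v = (R k).character (σ v)⁻¹ * zz t v := fun k => rfl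
    rw [e2, hc, Finset.sum_mul, Finset.mul_sum, Complex.re_sum]
    refine Finset.sum_congr rfl fun k _ => ?_
    rw [e3, ← Complex.re_ofReal_mul]
    congr 1
    ring
  rw [e1, EP_sum (normSys (F := ℚ)) hε' Finset.univ
    (fun k v => c k * (tq f v * RZ U R hρ σ k t v).re) (fun k => |c k| * (2 * n k))
    (fun k _ v => by
      rw [abs_mul]
      exact mul_le_mul_of_nonneg_left (mul_boundX (tq f) (norm_tq f) U R hρ σ k t v)
        (abs_nonneg _))]
  simp only [EP_const_mul]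
  rw [Finset.sum_div, ← Finset.sum_sub_distrib]
  exact Finset.sum_congr rfl fun k _ => by ring

include hf hbd hV hopen hatt in
/-- **Virtually irreducible combinations**, the strict inequality -/
theorem q_virtual (t : ℝ) (c : κ → ℝ) {r : ℕ} (S : Representation ℂ (GK ℚ) (Fin r → ℂ))
    (hSo : ∃ U : Subgroup (GK ℚ), IsOpen (U : Set (GK ℚ)) ∧ ∀ u ∈ U, S u = 1)
    (hSi : S.IsIrreducible)
    (hc : ∀ g, S.character g = ∑ k, (c k : ℂ) * (R k).character g) (h : t ≠ 0 ∨ 3 ≤ r) :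
    ∃ A : ℝ, A < 1 ∧ ∀ᶠ ε : ℝ in 𝓝[>] 0, |∑ k, c k * size (V k) t ε| ≤ A := by
  obtain ⟨U1, hUn1, hU1, hρ1⟩ := exists_U R hopen
  obtain ⟨U2, hUn2, hU2, hS2⟩ := exists_U (κ := Unit) (fun _ => S) (fun _ => hSo)
  set U : Subgroup (GK ℚ) := U1 ⊓ U2 with hUdef
  have hU : IsOpen (U : Set (GK ℚ)) := by
    rw [hUdef, Subgroup.coe_inf]
    exact hU1.inter hU2
  have hUn : U.Normal := Subgroup.normal_inf_normal U1 U2
  have hfin : Finite (GK ℚ ⧸ U) := Subgroup.quotient_finite_of_isOpen U hU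
  have hρ : ∀ k, ∀ u ∈ U, R k u = 1 := fun k u hu => hρ1 k u hu.1
  have hS : ∀ u ∈ U, S u = 1 := fun u hu => hS2 () u hu.2
  choose σ hσ using exists_isFrob (F := ℚ)
  rcases h with h | h
  · have h1 := disjX (b := 2) (tq f) (norm_tq f) U hU (fun _ : Bool => S) (fun _ => hS)
      (fun i => if i then t else -t) σ hσ (fun _ ε => ∑ k, c k * size (V k) t ε)
      (fun i => by
        rcases i with _ | _
        · have h2 := virt_corr hbd hV R hatt U hρ σ hσ (-t) c S hc (ι := Bool) (fun _ => hS) false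
          simp only [size_neg] at h2
          simpa using h2
        · have h2 := virt_corr hbd hV R hatt U hρ σ hσ t c S hc (ι := Bool) (fun _ => hS) true
          simpa using h2) (β := 1) zero_le_one (sec_tq (by norm_num) hf) (fun _ => hSi)
      (fun i j hij heq => by
        exfalso
        apply h
        rcases i with _ | _ <;> rcases j with _ | _
        · exact (hij rfl).elim
        · simp only [Bool.false_eq_true, if_false, if_true] at heq
          linarith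
        · simp only [Bool.false_eq_true, if_false, if_true] at heq
          linarith
        · exact (hij rfl).elim) (η := 1 / 8) (by norm_num)
    refine ⟨4 / 5, by norm_num, h1.mono fun ε h3 => ?_⟩
    rw [Fintype.sum_bool] at h3
    refine abs_le_of_sq_le_sq ?_ (by norm_num)
    norm_num
    linarith
  · have h1 := strictX (b := 2) (tq f) (norm_tq f) U hU (fun _ : Unit => S) (fun _ => hS)
      (fun _ => t) σ hσ (fun _ ε => ∑ k, c k * size (V k) t ε)
      (fun i => virt_corr hbd hV R hatt U hρ σ hσ t c S hc (ι := Unit) (fun _ => hS) i)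
      (sec_tq (by norm_num) hf) (k := ()) hSi (by
        have : (3 : ℝ) ≤ r := by exact_mod_cast h
        linarith)
    exact h1

omit [Fintype κ] in
include hV in
theorem q_order {m : κ → ℤ} (τ : κ → ℝ) (hm : ∀ k, HasOrder (V k) (τ k) (m k)) (k : κ) :
    Tendsto (size (V k) (τ k)) (𝓝[>] 0) (𝓝 (-(m k : ℝ))) :=
  orders (size_own (hV k) (τ k)).1 (hm k)

end

end Pool.Agent.X288.CX
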