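import Pool.Agent.X288.CX.Sym
import Pool.Agent.Y677.SM.Two

/-! Tensor products of a motive over a number field with a symmetric power of a newform: the second
moment of the traces, and the inequalities for all Artin twists. -/

set_option autoImplicit false
set_option linter.unusedSectionVars false

namespace Pool.Agent.X288.CX

open Complex Filter Topology ComplexConjugate NumberField IsDedekindDomain Polynomial
  Pool.Agent.W401.Cheb Pool.Agent.W540.BE Pool.Agent.W353.L1 Asymptotics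
open Pool.Agent.H341R2 (lam lam_tendsto sysK)
open Pool.Agent.H921R2.TatePole (kerPrime below deg nm_eq two_le_nm)
open Pool.Agent.W353.TP (LL LL_tendsto lam0_sub lam0_isBigO)
open Pool.Agent.X288.AR (RZ hd has_hd hd_self hd_ne exists_U prime0 EP_abs EP_cs)
open MatrixGroups CongruenceSubgroup
open UpperHalfPlane hiding I

theorem hh_smul {M : Type*} [CommRing M] (c x y : M) (a : ℕ) :
    hh (c * x) (c * y) a = c ^ a * hh x y a := by
  rw [← hh_sum, ← hh_sum, Finset.mul_sum]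
  refine Finset.sum_congr rfl fun j _ => ?_
  have h : c ^ a = c ^ (a - j.val) * c ^ j.val := by
    rw [← pow_add]
    congr 1
    have := j.2
    omega
  rw [h, mul_pow, mul_pow]
  ring

section
variable {F : Type} [Field F] [NumberField F]

/-- the sum over all primes -/
theorem EP_one_lt {δ : ℝ} (hδ : 0 < δ) :
    ∀ᶠ ε : ℝ in 𝓝[>] 0, (EP (nm F) ε fun _ => 1) ≤ (1 + δ) * LL ε := by
  have h1 := EP_one F
  have h2 : ∀ᶠ ε : ℝ in 𝓝[>] 0, (EP (nm F) ε fun _ => 1) / lam ε < 1 + δ / 3 :=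
    h1.eventually (gt_mem_nhds (by linarith))
  have h3 := lam0_sub.def (show (0 : ℝ) < min (δ / 3) 1 by positivity)
  filter_upwards [h2, h3, lam_tendsto.eventually_gt_atTop 0,
    LL_tendsto.eventually_gt_atTop 0] with ε h4 h5 h6 h7
  rw [div_lt_iff₀ h6] at h4
  rw [Real.norm_eq_abs, Real.norm_eq_abs, abs_of_pos h7] at h5
  have h8 := (abs_le.1 h5).2
  have h9 : min (δ / 3) 1 * LL ε ≤ δ / 3 * LL ε :=
    mul_le_mul_of_nonneg_right (min_le_left _ _) h7.le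
  have h10 : min (δ / 3) 1 * LL ε ≤ 1 * LL ε := mul_le_mul_of_nonneg_right (min_le_right _ _) h7.le
  nlinarith

variable {b : ℕ} (w : ℝ)
    (α : HeightOneSpectrum (𝓞 F) → Fin b → ℂ)
    (hα : ∀ᶠ v in cofinite, ∀ j, ‖α v j‖ = (nm F v : ℝ) ^ w)
    {κ : Type*} [Fintype κ] {n : κ → ℕ}
    (ρ : ∀ k, Representation ℂ (GK F) (Fin (n k) → ℂ))
    (hopen : ∀ k, ∃ U : Subgroup (GK F), IsOpen (U : Set (GK F)) ∧ ∀ u ∈ U, ρ k u = 1)
    (τ : κ → ℝ) (B : κ → HeightOneSpectrum (𝓞 F) → ℂ[X])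
    (hB : ∀ k, ∀ᶠ v in cofinite, ∀ σ : GK F, IsFrob v σ → ∀ z : ℂ,
      (B k v).eval z = ∏ j, LinearMap.det (1 - (α v j * z) • ρ k σ⁻¹))
    (hB0 : ∀ k, ∀ v, (B k v).eval (((nm F v : ℕ) : ℂ) ^ (-(w + 1 + τ k * I : ℂ))) ≠ 0)
    (L : κ → ℂ → ℂ)
    (hL : ∀ k, ∀ s : ℂ, w + 1 < s.re →
      L k s = ∏' v, ((B k v).eval (((nm F v : ℕ) : ℂ) ^ (-s)))⁻¹)

include hα hopen hB hB0 hL in
theorem gram_gt {β : ℝ} (hβ : 0 ≤ β)
    (hsec : ∀ δ : ℝ, 0 < δ → ∃ C : ℝ, ∀ᶠ ε : ℝ in 𝓝[>] 0,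
      (EP (nm F) ε fun v => ‖trc w α v‖ ^ 2) ≤ (β + δ) * LL ε + C)
    (C : ℝ) {η : ℝ} (hη : 0 < η) :
    ∀ᶠ ε : ℝ in 𝓝[>] 0, ∀ c : κ → ℝ, (∀ k, |c k| ≤ C) →
      (∑ k, c k * xs w τ L k ε) ^ 2 ≤ β * (∑ k, ∑ l, c k * c l * hd ρ τ k l) + η := by
  set M : ℝ := ∑ k, ∑ l, C * C * |hd ρ τ k l| with hM
  have hM0 : 0 ≤ M := Finset.sum_nonneg fun k _ => Finset.sum_nonneg fun l _ =>
    mul_nonneg (mul_self_nonneg C) (abs_nonneg _)
  set δ : ℝ := η / (2 * (M + 1)) with hδ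
  have hδ0 : 0 < δ := by positivity
  have h := gram_allC w α hα ρ hopen τ B hB hB0 L hL (add_nonneg hβ hδ0.le) (hsec δ hδ0) C
    (η := η / 2) (by positivity)
  filter_upwards [h] with ε h1 c hc
  refine (h1 c hc).trans ?_
  have h2 : ∑ k, ∑ l, c k * c l * hd ρ τ k l ≤ M := by
    refine Finset.sum_le_sum fun k _ => Finset.sum_le_sum fun l _ => ?_
    refine (le_abs_self _).trans ?_
    rw [abs_mul, abs_mul]
    refine mul_le_mul_of_nonneg_right ?_ (abs_nonneg _)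
    exact mul_le_mul (hc k) (hc l) (abs_nonneg _) ((abs_nonneg _).trans (hc k))
  have h3 : δ * ∑ k, ∑ l, c k * c l * hd ρ τ k l ≤ η / 2 := by
    refine (mul_le_mul_of_nonneg_left h2 hδ0.le).trans ?_
    rw [hδ, div_mul_eq_mul_div, div_le_iff₀ (by positivity)]
    nlinarith
  rw [add_mul]
  linarith

include hα hopen hB hB0 hL in
theorem disj_gt {β : ℝ} (hβ : 0 ≤ β)
    (hsec : ∀ δ : ℝ, 0 < δ → ∃ C : ℝ, ∀ᶠ ε : ℝ in 𝓝[>] 0,
      (EP (nm F) ε fun v => ‖trc w α v‖ ^ 2) ≤ (β + δ) * LL ε + C)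
    (hirr : ∀ k, (ρ k).IsIrreducible)
    (hne : ∀ k l, k ≠ l → τ k = τ l → IsEmpty ((ρ k).Equiv (ρ l))) {η : ℝ} (hη : 0 < η) :
    ∀ᶠ ε : ℝ in 𝓝[>] 0, ∑ k, xs w τ L k ε ^ 2 ≤ β + η := by
  have h := disj_allC w α hα ρ hopen τ B hB hB0 L hL (add_nonneg hβ (by positivity))
    (hsec (η / 2) (by positivity)) hirr hne (η := η / 2) (by positivity)
  filter_upwards [h] with ε h1
  linarith

end

section
variable {F : Type} [Field F] [NumberField F] {R : ℕ} (a : ℕ)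

/-- the eigenvalues on the tensor product with the symmetric power -/
noncomputable def sy (α : HeightOneSpectrum (𝓞 F) → Fin R → ℂ) (β : ℕ → Fin 2 → ℂ)
    (v : HeightOneSpectrum (𝓞 F)) (j : Fin (R * (a + 1))) : ℂ :=
  α v (finProdFinEquiv.symm j).1 * ((β (below v : ℕ) 0 ^ deg v) ^ (a - (finProdFinEquiv.symm j).2.val) *
    (β (below v : ℕ) 1 ^ deg v) ^ (finProdFinEquiv.symm j).2.val)

theorem prod_fin {M : Type*} [CommMonoid M] {R m : ℕ} (g : Fin R → Fin m → M) :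
    ∏ j : Fin (R * m), g (finProdFinEquiv.symm j).1 (finProdFinEquiv.symm j).2 =
      ∏ i, ∏ j, g i j := by
  rw [← Equiv.prod_comp (finProdFinEquiv (m := R) (n := m))]
  simp only [Equiv.symm_apply_apply]
  rw [Fintype.prod_prod_type]

theorem sum_fin {M : Type*} [AddCommMonoid M] {R m : ℕ} (g : Fin R → Fin m → M) :
    ∑ j : Fin (R * m), g (finProdFinEquiv.symm j).1 (finProdFinEquiv.symm j).2 =
      ∑ i, ∑ j, g i j := by
  rw [← Equiv.sum_comp (finProdFinEquiv (m := R) (n := m))]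
  simp only [Equiv.symm_apply_apply]
  rw [Fintype.sum_prod_type]

theorem sum_sy (α : HeightOneSpectrum (𝓞 F) → Fin R → ℂ) (β : ℕ → Fin 2 → ℂ)
    (v : HeightOneSpectrum (𝓞 F)) : ∑ j, sy a α β v j =
      (∑ i, α v i) * hh (β (below v : ℕ) 0 ^ deg v) (β (below v : ℕ) 1 ^ deg v) a := by
  unfold sy
  rw [sum_fin (g := fun (i : Fin R) (j : Fin (a + 1)) => α v i *
    ((β (below v : ℕ) 0 ^ deg v) ^ (a - j.val) * (β (below v : ℕ) 1 ^ deg v) ^ j.val)),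
    Finset.sum_mul]
  refine Finset.sum_congr rfl fun i _ => ?_
  rw [← Finset.mul_sum, hh_sum]

variable {N : ℕ} [NeZero N] {k : ℤ} {ψ : DirichletCharacter ℂ N}
  {f : CuspForm (Gamma1 N : Subgroup (GL (Fin 2) ℝ)) k}
  {w : ℝ} {α : HeightOneSpectrum (𝓞 F) → Fin R → ℂ} {β : ℕ → Fin 2 → ℂ}

theorem norm_sy (hα : ∀ᶠ v in cofinite, ∀ j, ‖α v j‖ = (nm F v : ℝ) ^ w)
    (hβ : ∀ p : ℕ, p.Prime → ¬ p ∣ N → ∀ j, ‖β p j‖ = (p : ℝ) ^ (((k : ℝ) - 1) / 2)) :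
    ∀ᶠ v in cofinite, ∀ j, ‖sy a α β v j‖ = (nm F v : ℝ) ^ (w + a * (((k : ℝ) - 1) / 2)) := by
  filter_upwards [hα, ev_level (F := F) (N := N)] with v h1 h2 j
  unfold sy
  have h3 : ∀ e : Fin 2, ‖β (below v : ℕ) e ^ deg v‖ = (nm F v : ℝ) ^ (((k : ℝ) - 1) / 2) := by
    intro e
    rw [norm_pow, hβ _ (below v).2 h2, nm_rpow]
  have h0 : (0 : ℝ) < nm F v := by exact_mod_cast nm_pos v
  rw [norm_mul, norm_mul, norm_pow (β (below v : ℕ) 0 ^ deg v),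
    norm_pow (β (below v : ℕ) 1 ^ deg v), h1, h3, h3, ← pow_add]
  have h4 : a - (finProdFinEquiv.symm j).2.val + (finProdFinEquiv.symm j).2.val = a := by
    have := (finProdFinEquiv.symm j).2.2
    omega
  rw [h4, ← Real.rpow_natCast, ← Real.rpow_mul h0.le, ← Real.rpow_add h0]
  congr 2
  ring

/-- **the second moment** of the traces on the tensor product, first form -/
theorem sec_sy0 (hk : 1 ≤ k) (hf : Newf N k ψ f)
    (hβ : ∀ p : ℕ, p.Prime → ¬ p ∣ N → β p 0 + β p 1 = (qExpansion 1 f).coeff p ∧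
      ∀ j, ‖β p j‖ = (p : ℝ) ^ (((k : ℝ) - 1) / 2))
    (hbd : ∀ p : ℕ, p.Prime → ¬ p ∣ N → ‖W388.lamC f p‖ ≤ 2) :
    ∃ C : ℝ, ∀ᶠ ε : ℝ in 𝓝[>] 0,
      (EP (nm F) ε fun v => ‖trc (w + a * (((k : ℝ) - 1) / 2)) (sy a α β) v‖ ^ 2) ≤
        (R : ℝ) ^ 2 * cB a * Module.finrank ℚ F * LL ε + C +
          (R : ℝ) ^ 2 * cA a * EP (nm F) ε fun _ => 1 := by
  set W : ℝ := w + a * (((k : ℝ) - 1) / 2) with hW
  set c0 : ℝ := (R : ℝ) ^ 2 * cA a with hc0
  have hc00 : 0 ≤ c0 := mul_nonneg (sq_nonneg _) (cA_nonneg a)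
  set b3 : ℝ := ((R * (a + 1) : ℕ) : ℝ) ^ 2 with hb3
  have hb30 : 0 ≤ b3 := sq_nonneg _
  have htb : ∀ v, ‖trc W (sy a α β) v‖ ^ 2 ≤ b3 := fun v =>
    pow_le_pow_left₀ (norm_nonneg _) (norm_trc_le _ _ v) 2
  set φ : HeightOneSpectrum (𝓞 F) → ℝ := fun v => max (‖trc W (sy a α β) v‖ ^ 2 - c0) 0 with hφ
  have hφ0 : ∀ v, 0 ≤ φ v := fun v => le_max_right _ _
  have hφb : ∀ v, φ v ≤ b3 := fun v => max_le ((sub_le_self _ hc00).trans (htb v)) hb30
  obtain ⟨C, hC⟩ := EP_secG (F := F) (s := fun p => min (‖W388.lamC f p‖ ^ 2) 4)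
    (b3 := b3) (R := (R : ℝ) ^ 2 * cB a)
    (fun p => le_min (sq_nonneg _) (by norm_num)) (b2 := 4) (fun p => min_le_right _ _)
    (mul_nonneg (sq_nonneg _) (cB_nonneg a)) (E_newf hk hf 4) (φ := φ) hφ0 hφb N (fun p hp u => by
      have hpN : ¬ (p : ℕ) ∣ N := fun h => by
        have := Nat.le_of_dvd (Nat.pos_of_ne_zero (NeZero.ne N)) h
        omega
      have hp0 : (0 : ℝ) < ((p : ℕ) : ℝ) := by exact_mod_cast p.2.pos
      set v := (kerPrime p u).1.1 with hv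
      have hnm : nm F v = (p : ℕ) := Pool.Agent.H341R2.nm_kerPrime p u
      have hbel : (below v : ℕ) = (p : ℕ) := by
        have := (kerPrime p u).1.2
        rw [hv, this]
      have hdeg : deg v = 1 := (kerPrime p u).2
      obtain ⟨hβs, hβn⟩ := hβ p p.2 hpN
      have hl := hbd p p.2 hpN
      have hmin : min (‖W388.lamC f p‖ ^ 2) 4 = ‖W388.lamC f p‖ ^ 2 := by
        refine min_eq_left ?_
        calc ‖W388.lamC f p‖ ^ 2 ≤ 2 ^ 2 := pow_le_pow_left₀ (norm_nonneg _) hl 2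
          _ = 4 := by norm_num
      rw [hmin, hφ]
      have hnn : 0 ≤ (R : ℝ) ^ 2 * cB a * ‖W388.lamC f p‖ ^ 2 :=
        mul_nonneg (mul_nonneg (sq_nonneg _) (cB_nonneg a)) (sq_nonneg _)
      refine max_le ?_ hnn
      rw [sub_le_iff_le_add]
      unfold trc
      split_ifs with h
      · set P : ℝ := ((p : ℕ) : ℝ) ^ (((k : ℝ) - 1) / 2) with hP
        have hP0 : 0 < P := Real.rpow_pos_of_pos hp0 _
        have hPc : (P : ℂ) ≠ 0 := by exact_mod_cast hP0.ne'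
        set x : ℂ := (P : ℂ)⁻¹ * β p 0 with hx
        set y : ℂ := (P : ℂ)⁻¹ * β p 1 with hy
        have hnP : ‖(P : ℂ)⁻¹‖ = P⁻¹ := by
          rw [norm_inv, Complex.norm_real, Real.norm_eq_abs, abs_of_pos hP0]
        have hx1 : ‖x‖ = 1 := by
          rw [hx, norm_mul, hnP, hβn 0, inv_mul_cancel₀ hP0.ne']
        have hy1 : ‖y‖ = 1 := by
          rw [hy, norm_mul, hnP, hβn 1, inv_mul_cancel₀ hP0.ne']
        have hxy : ‖x + y‖ = ‖W388.lamC f p‖ := by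
          rw [hx, hy, ← mul_add, hβs]
          unfold W388.lamC
          rw [← hP, div_eq_inv_mul]
        have hx' : β p 0 = P * x := by rw [hx, mul_inv_cancel_left₀ hPc]
        have hy' : β p 1 = P * y := by rw [hy, mul_inv_cancel_left₀ hPc]
        have hαn : ∀ i, ‖α v i‖ = (nm F v : ℝ) ^ w := by
          intro i
          have h1 := h (finProdFinEquiv (i, (0 : Fin (a + 1))))
          unfold sy at h1
          rw [Equiv.symm_apply_apply, hdeg, pow_one, pow_one, hbel, norm_mul, norm_mul, norm_pow,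
            norm_pow, hβn, hβn, hnm, ← pow_add, hW, Real.rpow_add hp0] at h1
          have e1 : a - ((0 : Fin (a + 1)) : ℕ) + ((0 : Fin (a + 1)) : ℕ) = a := by simp
          rw [e1, mul_comm (a : ℝ), Real.rpow_mul_natCast hp0.le, ← hP] at h1
          rw [hnm]
          exact mul_right_cancel₀ (pow_pos hP0 a).ne' h1
        rw [sum_sy, hdeg, pow_one, pow_one, hbel, hx', hy', hh_smul, norm_mul, norm_mul, norm_mul,
          norm_pow, Complex.norm_real, Real.norm_eq_abs, abs_of_pos hP0, norm_cpow_nm, hnm]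
        have e1 : ((p : ℕ) : ℝ) ^ (-W) = ((p : ℕ) : ℝ) ^ (-w) * (P ^ a)⁻¹ := by
          have e2 : P ^ a = ((p : ℕ) : ℝ) ^ ((a : ℝ) * (((k : ℝ) - 1) / 2)) := by
            rw [mul_comm (a : ℝ), Real.rpow_mul_natCast hp0.le]
          rw [e2, ← Real.rpow_neg hp0.le, ← Real.rpow_add hp0, hW]
          congr 1
          ring
        rw [e1]
        have e3 : ‖∑ i, α v i‖ * ((p : ℕ) : ℝ) ^ (-w) ≤ R := by
          have h1 : ‖∑ i, α v i‖ ≤ R * ((p : ℕ) : ℝ) ^ w := by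
            refine (norm_sum_le _ _).trans ?_
            rw [Finset.sum_congr rfl fun j _ => hαn j, Finset.sum_const, Finset.card_univ,
              Fintype.card_fin, nsmul_eq_mul, hnm]
          calc ‖∑ i, α v i‖ * ((p : ℕ) : ℝ) ^ (-w)
              ≤ R * ((p : ℕ) : ℝ) ^ w * ((p : ℕ) : ℝ) ^ (-w) :=
                mul_le_mul_of_nonneg_right h1 (by positivity)
            _ = R := by rw [mul_assoc, ← Real.rpow_add hp0, add_neg_cancel, Real.rpow_zero, mul_one]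
        have e4 : ‖∑ i, α v i‖ * (P ^ a * ‖hh x y a‖) * (((p : ℕ) : ℝ) ^ (-w) * (P ^ a)⁻¹) =
            (‖∑ i, α v i‖ * ((p : ℕ) : ℝ) ^ (-w)) * ‖hh x y a‖ := by
          have := (pow_pos hP0 a).ne'
          field_simp
        rw [e4, mul_pow]
        have h5 := norm_hh_sq hx1 hy1 a
        rw [hxy] at h5
        have h6 : (‖∑ i, α v i‖ * ((p : ℕ) : ℝ) ^ (-w)) ^ 2 ≤ (R : ℝ) ^ 2 :=
          pow_le_pow_left₀ (by positivity) e3 2
        calc (‖∑ i, α v i‖ * ((p : ℕ) : ℝ) ^ (-w)) ^ 2 * ‖hh x y a‖ ^ 2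
            ≤ (R : ℝ) ^ 2 * (cA a + cB a * ‖W388.lamC f p‖ ^ 2) :=
              mul_le_mul h6 h5 (sq_nonneg _) (sq_nonneg _)
          _ = _ := by rw [hc0]; ring
      · rw [norm_zero, zero_pow two_ne_zero]
        exact add_nonneg hnn hc00)
  refine ⟨C, ?_⟩
  filter_upwards [hC, self_mem_nhdsWithin] with ε h1 h3
  have hε : (0 : ℝ) < ε := h3
  have hN : NormSys (nm F) := normSys
  have h5 : (EP (nm F) ε fun v => ‖trc W (sy a α β) v‖ ^ 2) ≤
      EP (nm F) ε (fun v => φ v + c0 * 1) := by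
    refine Pool.Agent.Y677.SM.EP_mono hN hε (A := b3) (B := b3 + c0) (fun v => ?_) (fun v => ?_)
      fun v => ?_
    · rw [abs_of_nonneg (sq_nonneg _)]
      exact htb v
    · rw [mul_one, abs_of_nonneg (add_nonneg (hφ0 v) hc00)]
      exact add_le_add_left (hφb v) _
    · rw [mul_one]
      have := le_max_left (‖trc W (sy a α β) v‖ ^ 2 - c0) 0
      change _ ≤ max (‖trc W (sy a α β) v‖ ^ 2 - c0) 0 + c0
      linarith
  have h6 : EP (nm F) ε (fun v => φ v + c0 * 1) = EP (nm F) ε φ + c0 * EP (nm F) ε fun _ => 1 := by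
    rw [EP_add hN hε (φ := φ) (ψ := fun _ => c0 * 1) (B := b3) (B' := c0) (fun v => by
        rw [abs_of_nonneg (hφ0 v)]
        exact hφb v) (fun v => by rw [mul_one, abs_of_nonneg hc00]), EP_const_mul]
  rw [h6] at h5
  linarith

/-- **the second moment** of the traces on the tensor product -/
theorem sec_sy (hk : 1 ≤ k) (hf : Newf N k ψ f)
    (hβ : ∀ p : ℕ, p.Prime → ¬ p ∣ N → β p 0 + β p 1 = (qExpansion 1 f).coeff p ∧
      ∀ j, ‖β p j‖ = (p : ℝ) ^ (((k : ℝ) - 1) / 2))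
    (hbd : ∀ p : ℕ, p.Prime → ¬ p ∣ N → ‖W388.lamC f p‖ ≤ 2) {δ : ℝ} (hδ : 0 < δ) :
    ∃ C : ℝ, ∀ᶠ ε : ℝ in 𝓝[>] 0,
      (EP (nm F) ε fun v => ‖trc (w + a * (((k : ℝ) - 1) / 2)) (sy a α β) v‖ ^ 2) ≤
        ((R : ℝ) ^ 2 * (cA a + cB a * Module.finrank ℚ F) + δ) * LL ε + C := by
  obtain ⟨C, hC⟩ := sec_sy0 (F := F) (w := w) (α := α) a hk hf hβ hbd
  set c0 : ℝ := (R : ℝ) ^ 2 * cA a with hc0
  have hc00 : 0 ≤ c0 := mul_nonneg (sq_nonneg _) (cA_nonneg a)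
  set δ' : ℝ := δ / (c0 + 1) with hδ'
  have hδ'0 : 0 < δ' := by positivity
  refine ⟨C, ?_⟩
  filter_upwards [hC, EP_one_lt (F := F) hδ'0, self_mem_nhdsWithin,
    LL_tendsto.eventually_gt_atTop 0] with ε h1 h2 h3 h4
  have h7 := mul_le_mul_of_nonneg_left h2 hc00
  have h8 : c0 * (δ' * LL ε) ≤ δ * LL ε := by
    rw [← mul_assoc]
    refine mul_le_mul_of_nonneg_right ?_ h4.le
    rw [hδ', mul_div_assoc', div_le_iff₀ (by positivity)]
    nlinarith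
  refine h1.trans ?_
  rw [hc0] at h7 h8 ⊢
  nlinarith

/-- the second moment for the odd symmetric powers -/
theorem sec_sy_odd (ha : ¬ Even a) (hk : 1 ≤ k) (hf : Newf N k ψ f)
    (hβ : ∀ p : ℕ, p.Prime → ¬ p ∣ N → β p 0 + β p 1 = (qExpansion 1 f).coeff p ∧
      ∀ j, ‖β p j‖ = (p : ℝ) ^ (((k : ℝ) - 1) / 2))
    (hbd : ∀ p : ℕ, p.Prime → ¬ p ∣ N → ‖W388.lamC f p‖ ≤ 2) :
    ∃ C : ℝ, ∀ᶠ ε : ℝ in 𝓝[>] 0,
      (EP (nm F) ε fun v => ‖trc (w + a * (((k : ℝ) - 1) / 2)) (sy a α β) v‖ ^ 2) ≤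
        ((R : ℝ) * ((a + 1) / 2) * Real.sqrt (Module.finrank ℚ F)) ^ 2 * LL ε + C := by
  obtain ⟨C, hC⟩ := sec_sy0 (F := F) (w := w) (α := α) a hk hf hβ hbd
  refine ⟨C, hC.mono fun ε hε => hε.trans (le_of_eq ?_)⟩
  have h1 : cA a = 0 := if_neg ha
  have h2 : cB a = ((a : ℝ) + 1) ^ 2 / 4 := if_neg ha
  rw [h1, h2, mul_pow, Real.sq_sqrt (Nat.cast_nonneg _)]
  ring

end

end Pool.Agent.X288.CX
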