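import Pool.Agent.X288.CX.Sym2
import Pool.Agent.X288.AR.Thm

/-! The second cohomology of products of modular elliptic curves over a number field, with all Artin
twists: the defects of Tate's conjecture on the pole of the `L`-function. -/

set_option autoImplicit false
set_option linter.unusedSectionVars false

namespace Pool.Agent.X288.CX

open Complex Filter Topology ComplexConjugate NumberField IsDedekindDomain Polynomial
  Pool.Agent.W401.Cheb Pool.Agent.W540.BE Pool.Agent.W353.L1 Asymptotics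
open Pool.Agent.H341R2 (lam lam_tendsto sysK)
open Pool.Agent.W353.TP (LL LL_tendsto lam0_sub lam0_isBigO)
open Pool.Agent.X288.AR (RZ hd has_hd hd_self hd_ne exists_U prime0 EP_abs EP_cs curve curve_Δ_ne
  tr_sec trv_eq)
open Pool.Agent.Y722.EP (IsModular)

section
variable {F : Type} [Field F] [NumberField F]

/-- a function with finite support has bounded sums -/
theorem EP_fin {φ : HeightOneSpectrum (𝓞 F) → ℝ} (h : {v | φ v ≠ 0}.Finite) :
    ∃ C : ℝ, ∀ ε : ℝ, 0 < ε → |EP (nm F) ε φ| ≤ C := by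
  refine ⟨∑ v ∈ h.toFinset, |φ v|, fun ε hε => ?_⟩
  unfold EP
  rw [tsum_eq_sum (s := h.toFinset) fun v hv => by
    have h1 : φ v = 0 := by
      by_contra h2
      exact hv (h.mem_toFinset.2 h2)
    rw [h1, zero_mul]]
  refine (Finset.abs_sum_le_sum_abs _ _).trans (Finset.sum_le_sum fun v _ => ?_)
  rw [abs_mul, abs_of_nonneg (show 0 ≤ (nm F v : ℝ) ^ (-(1 + ε)) by positivity)]
  have h1 : (nm F v : ℝ) ^ (-(1 + ε)) ≤ 1 := by
    refine Real.rpow_le_one_of_one_le_of_nonpos ?_ (by linarith)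
    have := two_le_nm v
    exact_mod_cast (by omega : 1 ≤ nm F v)
  calc |φ v| * (nm F v : ℝ) ^ (-(1 + ε)) ≤ |φ v| * 1 :=
        mul_le_mul_of_nonneg_left h1 (abs_nonneg _)
    _ = |φ v| := mul_one _

/-- the Frobenius eigenvalues of an elliptic curve -/
theorem ec_roots (a b : ℤ) (hab : 4 * a ^ 3 + 27 * b ^ 2 ≠ 0) :
    ∃ α : HeightOneSpectrum (𝓞 F) → Fin 2 → ℂ, ∀ᶠ v in cofinite,
      (∀ j, ‖α v j‖ = (nm F v : ℝ) ^ (1 / 2 : ℝ)) ∧
      α v 0 + α v 1 = (trv (curve F a b) v : ℂ) ∧ α v 0 * α v 1 = ((nm F v : ℕ) : ℂ) := by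
  have h6 : (6 : 𝓞 F) ≠ 0 := by norm_num
  have hΔ := curve_Δ_ne (F := F) hab
  have hgood : ∀ᶠ v : HeightOneSpectrum (𝓞 F) in cofinite,
      (6 : 𝓞 F) ∉ v.asIdeal ∧ (curve F a b).Δ ∉ v.asIdeal := by
    rw [Filter.eventually_cofinite]
    refine ((finite_mem_prime h6).union (finite_mem_prime hΔ)).subset fun v hv => ?_
    rw [Set.mem_ofPred_eq, not_and_or, not_not, not_not] at hv
    exact hv
  have hex : ∀ v : HeightOneSpectrum (𝓞 F), ∃ α : Fin 2 → ℂ,
      ((6 : 𝓞 F) ∉ v.asIdeal ∧ (curve F a b).Δ ∉ v.asIdeal) →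
        (∀ j, ‖α j‖ = (nm F v : ℝ) ^ (1 / 2 : ℝ)) ∧ α 0 + α 1 = (trv (curve F a b) v : ℂ) ∧
          α 0 * α 1 = ((nm F v : ℕ) : ℂ) := by
    intro v
    by_cases h : (6 : 𝓞 F) ∉ v.asIdeal ∧ (curve F a b).Δ ∉ v.asIdeal
    · have hpos : (0 : ℝ) < nm F v := by exact_mod_cast nm_pos v
      obtain ⟨α, h1, h2, h3⟩ := exists_roots hpos (hasse_v (curve F a b) v h.1 h.2)
      refine ⟨α, fun _ => ⟨h1, ?_, ?_⟩⟩
      · rw [h2]; simp
      · rw [h3]; simp
    · exact ⟨0, fun h' => absurd h' h⟩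
  choose α hα using hex
  exact ⟨α, hgood.mono fun v hv => hα v hv⟩

end

section
variable {F : Type} [Field F] [NumberField F] {G : ℕ}

/-- the pairs of factors -/
abbrev Pr (G : ℕ) : Type := {p : Fin G × Fin G // p.1 < p.2}

/-- the basis of the second cohomology -/
abbrev Ix (G : ℕ) : Type := Fin G ⊕ (Pr G × (Fin 2 × Fin 2))

variable (α : Fin G → HeightOneSpectrum (𝓞 F) → Fin 2 → ℂ) (s : Fin G × Fin G → Prop)
  [DecidablePred s]

/-- the eigenvalues -/
noncomputable def eig (v : HeightOneSpectrum (𝓞 F)) : Ix G → ℂ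
  | Sum.inl _ => ((nm F v : ℕ) : ℂ)
  | Sum.inr (p, e) => α p.1.1 v e.1 * α p.1.2 v e.2

theorem sum_eig (v : HeightOneSpectrum (𝓞 F)) : ∑ i, eig α v i =
    G * ((nm F v : ℕ) : ℂ) + ∑ p : Pr G, (∑ j, α p.1.1 v j) * (∑ j, α p.1.2 v j) := by
  rw [Fintype.sum_sum_type]
  congr 1
  · simp only [eig, Finset.sum_const, Finset.card_univ, Fintype.card_fin, nsmul_eq_mul]
  · rw [Fintype.sum_prod_type]
    refine Finset.sum_congr rfl fun p _ => ?_
    rw [Fintype.sum_prod_type, Finset.sum_mul]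
    refine Finset.sum_congr rfl fun i _ => ?_
    rw [Finset.mul_sum]
    rfl

/-- the system of eigenvalues, with indices in a standard set -/
noncomputable def es (v : HeightOneSpectrum (𝓞 F)) (j : Fin (Fintype.card (Ix G))) : ℂ :=
  eig α v ((Fintype.equivFin (Ix G)).symm j)

/-- the normalised trace of a curve -/
noncomputable def tl (l : Fin G) (v : HeightOneSpectrum (𝓞 F)) : ℝ := tr (1 / 2) (α l) v

/-- the number of the pairs of equal curves, plus the number of curves -/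
def rk (G : ℕ) (s : Fin G × Fin G → Prop) [DecidablePred s] : ℕ :=
  G + (Finset.univ.filter fun p : Pr G => s p.1).card

/-- the trace on the rest -/
noncomputable def dd (v : HeightOneSpectrum (𝓞 F)) : ℝ :=
  ∑ p : Pr G, (tl α p.1.1 v * tl α p.1.2 v - if s p.1 then 1 else 0)

variable (hα : ∀ l, ∀ᶠ v in cofinite, ∀ j, ‖α l v j‖ = (nm F v : ℝ) ^ (1 / 2 : ℝ))
  (hr : ∀ l, ∀ᶠ v in cofinite, (∑ j, α l v j).im = 0)

include hα in
theorem norm_es : ∀ᶠ v in cofinite, ∀ j, ‖es α v j‖ = (nm F v : ℝ) ^ (1 : ℝ) := by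
  filter_upwards [eventually_all.2 hα] with v h j
  unfold es
  have h0 : (0 : ℝ) < nm F v := by exact_mod_cast nm_pos v
  rcases (Fintype.equivFin (Ix G)).symm j with l | ⟨p, e⟩
  · simp only [eig]
    rw [Real.rpow_one, Complex.norm_natCast]
  · simp only [eig]
    rw [norm_mul, h, h, ← Real.rpow_add h0]
    norm_num

include hα hr in
/-- the traces -/
theorem trc_es : ∀ᶠ v in cofinite, trc 1 (es α) v = ((dd α s v : ℝ) : ℂ) + rk G s := by
  filter_upwards [eventually_all.2 hα, eventually_all.2 hr, norm_es α hα] with v h1 h2 h3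
  have h0 : (0 : ℝ) < nm F v := by exact_mod_cast nm_pos v
  have h0c : ((nm F v : ℕ) : ℂ) ≠ 0 := by exact_mod_cast (nm_pos v).ne'
  have h4 : ∀ l, ∑ j, α l v j = (tl α l v : ℂ) * (((nm F v : ℝ) ^ (1 / 2 : ℝ) : ℝ) : ℂ) := by
    intro l
    unfold tl tr
    rw [if_pos ⟨h1 l, h2 l⟩]
    have e1 : ((∑ j, α l v j).re : ℂ) = ∑ j, α l v j :=
      Complex.ext (by simp) (by rw [Complex.ofReal_im, h2 l])
    rw [Complex.ofReal_mul, e1, mul_assoc, ← Complex.ofReal_mul, ← Real.rpow_add h0]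
    norm_num
  unfold trc
  rw [if_pos h3]
  have e2 : ∑ j, es α v j = ∑ i, eig α v i := by
    unfold es
    exact Equiv.sum_comp (Fintype.equivFin (Ix G)).symm (eig α v)
  have e3 : (((nm F v : ℝ) ^ (1 / 2 : ℝ) : ℝ) : ℂ) * (((nm F v : ℝ) ^ (1 / 2 : ℝ) : ℝ) : ℂ) =
      ((nm F v : ℕ) : ℂ) := by
    rw [← Complex.ofReal_mul, ← Real.rpow_add h0]
    norm_num
  have e4 : ((nm F v : ℕ) : ℂ) ^ (-((1 : ℝ) : ℂ)) = ((nm F v : ℕ) : ℂ)⁻¹ := by
    rw [Complex.ofReal_one, Complex.cpow_neg_one]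
  rw [e2, sum_eig, e4]
  have e5 : ∑ p : Pr G, (∑ j, α p.1.1 v j) * (∑ j, α p.1.2 v j) =
      (∑ p : Pr G, (tl α p.1.1 v : ℂ) * (tl α p.1.2 v : ℂ)) * ((nm F v : ℕ) : ℂ) := by
    rw [Finset.sum_mul]
    refine Finset.sum_congr rfl fun p _ => ?_
    rw [h4, h4, ← e3]
    ring
  rw [e5, ← add_mul, mul_assoc, mul_inv_cancel₀ h0c, mul_one]
  unfold dd rk
  have e6 : ((∑ p : Pr G, (tl α p.1.1 v * tl α p.1.2 v - if s p.1 then 1 else 0) : ℝ) : ℂ) =
      (∑ p : Pr G, (tl α p.1.1 v : ℂ) * (tl α p.1.2 v : ℂ)) -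
        (((Finset.univ.filter fun p : Pr G => s p.1).card : ℕ) : ℂ) := by
    rw [← Finset.sum_boole, ← Finset.sum_sub_distrib, Complex.ofReal_sum]
    refine Finset.sum_congr rfl fun p _ => ?_
    split_ifs <;> simp
  rw [e6]
  push_cast
  ring

theorem tl_le (l : Fin G) (v : HeightOneSpectrum (𝓞 F)) : |tl α l v| ≤ 2 := by
  have := abs_tr_le (1 / 2) (α l) v
  unfold tl
  exact_mod_cast this

theorem dd_le (v : HeightOneSpectrum (𝓞 F)) : |dd α s v| ≤ 5 * Fintype.card (Pr G) := by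
  unfold dd
  refine (Finset.abs_sum_le_sum_abs _ _).trans ?_
  rw [mul_comm, ← Finset.card_univ, ← nsmul_eq_mul]
  refine Finset.sum_le_card_nsmul _ _ _ fun p _ => ?_
  refine (abs_sub _ _).trans ?_
  rw [abs_mul]
  have h1 := mul_le_mul (tl_le α p.1.1 v) (tl_le α p.1.2 v) (abs_nonneg _) (by norm_num)
  have h2 : |if s p.1 then (1 : ℝ) else 0| ≤ 1 := by split_ifs <;> norm_num
  linarith

/-- the square roots of the second moments -/
noncomputable def sq (F : Type) [Field F] [NumberField F] (s : Fin G × Fin G → Prop)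
    [DecidablePred s] (p : Pr G) : ℝ :=
  if s p.1 then Real.sqrt (1 + 2 * Module.finrank ℚ F) else Real.sqrt (4 * Module.finrank ℚ F)

theorem sq_pos (p : Pr G) : 0 < sq F s p := by
  have h : (0 : ℝ) < Module.finrank ℚ F := by exact_mod_cast Module.finrank_pos (R := ℚ) (M := F)
  unfold sq
  split_ifs
  · exact Real.sqrt_pos.2 (by positivity)
  · exact Real.sqrt_pos.2 (by positivity)

/-- the bounds for the squares -/
noncomputable def uu (p : Pr G) (v : HeightOneSpectrum (𝓞 F)) : ℝ :=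
  if s p.1 then 1 + 2 * tl α p.1.1 v ^ 2 else 4 * tl α p.1.1 v ^ 2

variable (hs : ∀ p : Pr G, s p.1 → α p.1.1 = α p.1.2)

include hs in
theorem sq_le_uu (p : Pr G) (v : HeightOneSpectrum (𝓞 F)) :
    (tl α p.1.1 v * tl α p.1.2 v - if s p.1 then 1 else 0) ^ 2 ≤ uu α s p v := by
  unfold uu
  have h1 := tl_le α p.1.1 v
  have h2 := tl_le α p.1.2 v
  have h3 : tl α p.1.1 v ^ 2 ≤ 4 := by
    rw [← sq_abs]
    nlinarith [abs_nonneg (tl α p.1.1 v)]
  have h4 : tl α p.1.2 v ^ 2 ≤ 4 := by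
    rw [← sq_abs]
    nlinarith [abs_nonneg (tl α p.1.2 v)]
  split_ifs with h
  · have e : tl α p.1.2 v = tl α p.1.1 v := by
      unfold tl
      rw [hs p h]
    rw [e]
    nlinarith [sq_nonneg (tl α p.1.1 v)]
  · rw [sub_zero, mul_pow]
    nlinarith [sq_nonneg (tl α p.1.1 v)]

theorem uu_nonneg (p : Pr G) (v : HeightOneSpectrum (𝓞 F)) : 0 ≤ uu α s p v := by
  unfold uu
  split_ifs <;> positivity

theorem uu_le (p : Pr G) (v : HeightOneSpectrum (𝓞 F)) : uu α s p v ≤ 16 := by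
  unfold uu
  have h3 : tl α p.1.1 v ^ 2 ≤ 4 := by
    rw [← sq_abs]
    nlinarith [abs_nonneg (tl α p.1.1 v), tl_le α p.1.1 v]
  split_ifs <;> linarith

variable (hsec : ∀ l, ∃ C : ℝ, ∀ᶠ ε : ℝ in 𝓝[>] 0, (EP (nm F) ε fun v => tl α l v ^ 2) ≤
  Module.finrank ℚ F * LL ε + C)

include hsec in
theorem EP_uu (p : Pr G) {δ : ℝ} (hδ : 0 < δ) : ∃ C : ℝ, ∀ᶠ ε : ℝ in 𝓝[>] 0,
    EP (nm F) ε (uu α s p) ≤ (sq F s p ^ 2 + δ) * LL ε + C := by
  obtain ⟨C, hC⟩ := hsec p.1.1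
  have hN : NormSys (nm F) := normSys
  have hD : (0 : ℝ) ≤ Module.finrank ℚ F := Nat.cast_nonneg _
  have hb : ∀ v, |tl α p.1.1 v ^ 2| ≤ 4 := fun v => by
    rw [abs_of_nonneg (sq_nonneg _), ← sq_abs]
    nlinarith [abs_nonneg (tl α p.1.1 v), tl_le α p.1.1 v]
  by_cases h : s p.1
  · refine ⟨2 * C, ?_⟩
    filter_upwards [hC, EP_one_lt (F := F) hδ, self_mem_nhdsWithin] with ε h1 h2 h3
    have hε : (0 : ℝ) < ε := h3
    have e1 : uu α s p = fun v => 1 * 1 + 2 * tl α p.1.1 v ^ 2 := by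
      funext v
      unfold uu
      rw [if_pos h, mul_one]
    have e2 : EP (nm F) ε (uu α s p) =
        1 * (EP (nm F) ε fun _ => 1) + 2 * EP (nm F) ε fun v => tl α p.1.1 v ^ 2 := by
      rw [e1, EP_add hN hε (φ := fun _ => 1 * 1) (ψ := fun v => 2 * tl α p.1.1 v ^ 2) (B := 1)
        (B' := 8) (fun v => by norm_num) (fun v => by
          rw [abs_mul, abs_two]
          linarith [hb v]), EP_const_mul, EP_const_mul]
    have e3 : sq F s p ^ 2 = 1 + 2 * Module.finrank ℚ F := by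
      unfold sq
      rw [if_pos h, Real.sq_sqrt (by positivity)]
    rw [e2, e3]
    nlinarith
  · refine ⟨4 * C, ?_⟩
    filter_upwards [hC, LL_tendsto.eventually_gt_atTop 0] with ε h1 h2
    have e1 : uu α s p = fun v => 4 * tl α p.1.1 v ^ 2 := by
      funext v
      unfold uu
      rw [if_neg h]
    have e3 : sq F s p ^ 2 = 4 * Module.finrank ℚ F := by
      unfold sq
      rw [if_neg h, Real.sq_sqrt (by positivity)]
    rw [e1, EP_const_mul, e3]
    nlinarith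

include hs hsec in
/-- **the second moment** -/
theorem sec_dd {δ : ℝ} (hδ : 0 < δ) : ∃ C : ℝ, ∀ᶠ ε : ℝ in 𝓝[>] 0,
    (EP (nm F) ε fun v => ‖((dd α s v : ℝ) : ℂ)‖ ^ 2) ≤
      ((∑ p : Pr G, sq F s p) ^ 2 + δ) * LL ε + C := by
  set S : ℝ := ∑ p : Pr G, sq F s p with hS
  have hS0 : 0 ≤ S := Finset.sum_nonneg fun p _ => (sq_pos s p).le
  set S' : ℝ := ∑ p : Pr G, (sq F s p)⁻¹ with hS'
  have hS'0 : 0 ≤ S' := Finset.sum_nonneg fun p _ => inv_nonneg.2 (sq_pos s p).le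
  set δ' : ℝ := δ / (S * S' + 1) with hδ'
  have hδ'0 : 0 < δ' := by positivity
  have hN : NormSys (nm F) := normSys
  choose C hC using fun p : Pr G => EP_uu α s hsec p hδ'0
  refine ⟨S * ∑ p : Pr G, (sq F s p)⁻¹ * C p, ?_⟩
  filter_upwards [eventually_all.2 hC, self_mem_nhdsWithin, LL_tendsto.eventually_gt_atTop 0]
    with ε h1 h2 h3
  have hε : (0 : ℝ) < ε := h2
  have h4 : ∀ v, ‖((dd α s v : ℝ) : ℂ)‖ ^ 2 ≤ S * ∑ p : Pr G, (sq F s p)⁻¹ * uu α s p v := by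
    intro v
    rw [Complex.norm_real, Real.norm_eq_abs, sq_abs]
    have h5 := Finset.sum_sq_le_sum_mul_sum_of_sq_eq_mul (Finset.univ : Finset (Pr G))
      (r := fun p => tl α p.1.1 v * tl α p.1.2 v - if s p.1 then 1 else 0)
      (f := fun p => sq F s p) (g := fun p => (sq F s p)⁻¹ *
        (tl α p.1.1 v * tl α p.1.2 v - if s p.1 then 1 else 0) ^ 2)
      (fun p _ => (sq_pos s p).le) (fun p _ => mul_nonneg (inv_nonneg.2 (sq_pos s p).le)
        (_root_.sq_nonneg _)) (fun p _ => by rw [mul_inv_cancel_left₀ (sq_pos s p).ne'])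
    unfold dd
    refine h5.trans (mul_le_mul_of_nonneg_left ?_ hS0)
    exact Finset.sum_le_sum fun p _ => mul_le_mul_of_nonneg_left (sq_le_uu α s hs p v)
      (inv_nonneg.2 (sq_pos s p).le)
  have hb1 : ∀ v, |‖((dd α s v : ℝ) : ℂ)‖ ^ 2| ≤ (5 * Fintype.card (Pr G)) ^ 2 := by
    intro v
    rw [abs_of_nonneg (_root_.sq_nonneg _), Complex.norm_real, Real.norm_eq_abs]
    exact pow_le_pow_left₀ (abs_nonneg _) (dd_le α s v) 2
  have hb2 : ∀ v, |S * ∑ p : Pr G, (sq F s p)⁻¹ * uu α s p v| ≤ S * (S' * 16) := by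
    intro v
    rw [abs_of_nonneg (mul_nonneg hS0 (Finset.sum_nonneg fun p _ =>
      mul_nonneg (inv_nonneg.2 (sq_pos s p).le) (uu_nonneg α s p v)))]
    refine mul_le_mul_of_nonneg_left ?_ hS0
    rw [hS', Finset.sum_mul]
    exact Finset.sum_le_sum fun p _ => mul_le_mul_of_nonneg_left (uu_le α s p v)
      (inv_nonneg.2 (sq_pos s p).le)
  refine (Pool.Agent.Y677.SM.EP_mono hN hε hb1 hb2 h4).trans ?_
  rw [EP_const_mul, EP_sum hN hε Finset.univ (fun p v => (sq F s p)⁻¹ * uu α s p v)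
    (fun p => (sq F s p)⁻¹ * 16) (fun p _ v => by
      rw [abs_of_nonneg (mul_nonneg (inv_nonneg.2 (sq_pos s p).le) (uu_nonneg α s p v))]
      exact mul_le_mul_of_nonneg_left (uu_le α s p v) (inv_nonneg.2 (sq_pos s p).le))]
  simp only [EP_const_mul]
  have h6 : ∑ p : Pr G, (sq F s p)⁻¹ * EP (nm F) ε (uu α s p) ≤
      (S + δ' * S') * LL ε + ∑ p : Pr G, (sq F s p)⁻¹ * C p := by
    have h7 : ∑ p : Pr G, (sq F s p)⁻¹ * EP (nm F) ε (uu α s p) ≤
        ∑ p : Pr G, ((sq F s p + δ' * (sq F s p)⁻¹) * LL ε + (sq F s p)⁻¹ * C p) := by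
      refine Finset.sum_le_sum fun p _ => ?_
      have h8 := mul_le_mul_of_nonneg_left (h1 p) (inv_nonneg.2 (sq_pos (F := F) s p).le)
      refine h8.trans (le_of_eq ?_)
      have h9 := (sq_pos (F := F) s p).ne'
      field_simp
    refine h7.trans (le_of_eq ?_)
    rw [Finset.sum_add_distrib, ← Finset.sum_mul, Finset.sum_add_distrib, ← Finset.mul_sum]
  have h7 := mul_le_mul_of_nonneg_left h6 hS0
  have h8 : S * (δ' * S' * LL ε) ≤ δ * LL ε := by
    have h9 : S * (δ' * S') ≤ δ := by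
      rw [hδ']
      have h10 : S * (δ / (S * S' + 1) * S') = δ * (S * S') / (S * S' + 1) := by ring
      rw [h10, div_le_iff₀ (by positivity)]
      nlinarith
    calc S * (δ' * S' * LL ε) = (S * (δ' * S')) * LL ε := by ring
      _ ≤ δ * LL ε := mul_le_mul_of_nonneg_right h9 h3.le
  refine h7.trans ?_
  nlinarith

end

end Pool.Agent.X288.CX
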